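import Pool.Agent.N116.EW.Defs

/-!
Project EW (helper116): the laws of the two coupled configurations.
-/

set_option autoImplicit false

namespace Pool.Agent.N116.EW

open H974 H12S H389NS H984N H984P H342P Finset

variable {E : Type*} [DecidableEq E]

/-- The union of two independent random sets. -/
theorem Ex_cup (p q : ℝ) (S : Finset E) (f : Finset E → ℝ) :
    Ex (fun _ => p) S (fun B => Ex (fun _ => q) S (fun H => f (B ∪ H))) =
      Ex (fun _ => p + q - p * q) S f := by
  induction S using Finset.induction_on generalizing f with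
  | empty => simp [Ex_empty]
  | insert a S ha ih =>
    rw [Ex_insert _ ha, Ex_insert _ ha]
    have h1 : ∀ B : Finset E, Ex (fun _ => q) (insert a S) (fun H => f (insert a B ∪ H)) =
        Ex (fun _ => q) S (fun H => f (insert a (B ∪ H))) := by
      intro B
      rw [Ex_insert _ ha]
      have e1 : (fun H : Finset E => f (insert a B ∪ insert a H)) =
          fun H => f (insert a (B ∪ H)) := by
        funext H
        congr 1
        ext x
        simp only [Finset.mem_union, Finset.mem_insert]
        tauto
      have e2 : (fun H : Finset E => f (insert a B ∪ H)) = fun H => f (insert a (B ∪ H)) := by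
        funext H
        congr 1
        ext x
        simp only [Finset.mem_union, Finset.mem_insert]
        tauto
      rw [e1, e2]
      ring
    have h2 : ∀ B : Finset E, Ex (fun _ => q) (insert a S) (fun H => f (B ∪ H)) =
        q * Ex (fun _ => q) S (fun H => f (insert a (B ∪ H))) +
          (1 - q) * Ex (fun _ => q) S (fun H => f (B ∪ H)) := by
      intro B
      rw [Ex_insert _ ha]
      have e1 : (fun H : Finset E => f (B ∪ insert a H)) = fun H => f (insert a (B ∪ H)) := by
        funext H
        congr 1
        ext x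
        simp only [Finset.mem_union, Finset.mem_insert]
        tauto
      rw [e1]
    simp only [h1, h2]
    rw [Ex_add, Ex_mul_left, Ex_mul_left, ih (fun F => f (insert a F)), ih f]
    ring

/-- The difference of two independent random sets. -/
theorem Ex_dif (p q : ℝ) (S : Finset E) (f : Finset E → ℝ) :
    Ex (fun _ => p) S (fun B => Ex (fun _ => q) S (fun H => f (B \ H))) =
      Ex (fun _ => p * (1 - q)) S f := by
  induction S using Finset.induction_on generalizing f with
  | empty => simp [Ex_empty]
  | insert a S ha ih =>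
    rw [Ex_insert _ ha, Ex_insert _ ha]
    have k1 : Ex (fun _ => p) S (fun B => Ex (fun _ => q) (insert a S)
        (fun H => f (insert a B \ H))) =
        q * Ex (fun _ => p * (1 - q)) S f +
          (1 - q) * Ex (fun _ => p * (1 - q)) S (fun F => f (insert a F)) := by
      rw [← ih f, ← ih (fun F => f (insert a F)), ← Ex_mul_left, ← Ex_mul_left, ← Ex_add]
      apply Ex_congr
      intro B hB
      have haB : a ∉ B := fun h => ha (hB h)
      rw [Ex_insert _ ha]
      congr 2
      · apply Ex_congr
        intro H hH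
        congr 1
        ext x
        simp only [Finset.mem_sdiff, Finset.mem_insert]
        by_cases hx : x = a
        · subst hx; simp [haB]
        · simp [hx]
      · apply Ex_congr
        intro H hH
        have haH : a ∉ H := fun h => ha (hH h)
        congr 1
        ext x
        simp only [Finset.mem_sdiff, Finset.mem_insert]
        by_cases hx : x = a
        · subst hx; simp [haH]
        · simp [hx]
    have k2 : Ex (fun _ => p) S (fun B => Ex (fun _ => q) (insert a S) (fun H => f (B \ H))) =
        Ex (fun _ => p * (1 - q)) S f := by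
      rw [← ih f]
      apply Ex_congr
      intro B hB
      have haB : a ∉ B := fun h => ha (hB h)
      rw [Ex_insert _ ha]
      have e1 : Ex (fun _ => q) S (fun H => f (B \ insert a H)) =
          Ex (fun _ => q) S (fun H => f (B \ H)) := by
        apply Ex_congr
        intro H hH
        congr 1
        ext x
        simp only [Finset.mem_sdiff, Finset.mem_insert]
        by_cases hx : x = a
        · subst hx; simp [haB]
        · simp [hx]
      rw [e1]
      ring
    rw [k1, k2]
    ring

/-- Marks. -/
def mt : Edg ↪ Edg × Bool := ⟨fun e => (e, true), fun _ _ h => (Prod.mk.inj h).1⟩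

def mf : Edg ↪ Edg × Bool := ⟨fun e => (e, false), fun _ _ h => (Prod.mk.inj h).1⟩

theorem mt_apply (e : Edg) : mt e = (e, true) := rfl

theorem mf_apply (e : Edg) : mf e = (e, false) := rfl

theorem mem_mt {S : Finset Edg} {i : Edg × Bool} : i ∈ S.map mt ↔ i.1 ∈ S ∧ i.2 = true := by
  rw [Finset.mem_map]
  constructor
  · rintro ⟨e, he, rfl⟩
    exact ⟨he, rfl⟩
  · rintro ⟨h1, h2⟩
    exact ⟨i.1, h1, Prod.ext rfl h2.symm⟩

theorem mem_mf {S : Finset Edg} {i : Edg × Bool} : i ∈ S.map mf ↔ i.1 ∈ S ∧ i.2 = false := by
  rw [Finset.mem_map]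
  constructor
  · rintro ⟨e, he, rfl⟩
    exact ⟨he, rfl⟩
  · rintro ⟨h1, h2⟩
    exact ⟨i.1, h1, Prod.ext rfl h2.symm⟩

theorem mem_CE {S : Finset Edg} {i : Edg × Bool} : i ∈ CE S ↔ i.1 ∈ S := by
  rw [CE, Finset.mem_product]
  simp

theorem mem_ba {K : Finset (Edg × Bool)} {e : Edg} : e ∈ ba K ↔ (e, true) ∈ K := by
  simp only [ba, Finset.mem_image, Finset.mem_filter]
  constructor
  · rintro ⟨i, ⟨h1, h2⟩, rfl⟩
    rwa [show (i.1, true) = i from Prod.ext rfl h2.symm]
  · intro h
    exact ⟨(e, true), ⟨h, rfl⟩, rfl⟩

theorem mem_fl {K : Finset (Edg × Bool)} {e : Edg} : e ∈ fl K ↔ (e, false) ∈ K := by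
  simp only [fl, Finset.mem_image, Finset.mem_filter]
  constructor
  · rintro ⟨i, ⟨h1, h2⟩, rfl⟩
    rwa [show (i.1, false) = i from Prod.ext rfl h2.symm]
  · intro h
    exact ⟨(e, false), ⟨h, rfl⟩, rfl⟩

theorem CE_eq (S : Finset Edg) : CE S = S.map mt ∪ S.map mf := by
  ext i
  rw [mem_CE, Finset.mem_union, mem_mt, mem_mf]
  obtain ⟨e, b⟩ := i
  cases b <;> simp

theorem CE_disj (S T : Finset Edg) : Disjoint (S.map mt) (T.map mf) := by
  rw [Finset.disjoint_left]
  intro i h1 h2
  rw [mem_mt] at h1
  rw [mem_mf] at h2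
  rw [h1.2] at h2
  exact absurd h2.2 (by decide)

theorem ba_map (B H : Finset Edg) : ba (B.map mt ∪ H.map mf) = B := by
  ext e
  rw [mem_ba, Finset.mem_union, mem_mt, mem_mf]
  simp

theorem fl_map (B H : Finset Edg) : fl (B.map mt ∪ H.map mf) = H := by
  ext e
  rw [mem_fl, Finset.mem_union, mem_mt, mem_mf]
  simp

/-- Expectations of functions of the marks. -/
theorem Ex_CE (η : ℝ) (S : Finset Edg) (f : Finset Edg → Finset Edg → ℝ) :
    Ex (cw η) (CE S) (fun K => f (ba K) (fl K)) =
      Ex (fun _ => (1 / 2 : ℝ)) S (fun B => Ex (fun _ => η) S (fun H => f B H)) := by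
  rw [CE_eq, Ex_union (CE_disj S S), Ex_map]
  have h1 : (fun e => cw η (mt e)) = fun _ => (1 / 2 : ℝ) := by
    funext e
    simp [cw, mt]
  have h2 : (fun e => cw η (mf e)) = fun _ => η := by
    funext e
    simp [cw, mf]
  rw [h1]
  apply Ex_congr
  intro B _
  rw [Ex_map, h2]
  apply Ex_congr
  intro H _
  rw [ba_map, fl_map]

theorem PC_eq (b : Bool) (η : ℝ) (S : Finset Edg) (A : Finset Edg → Finset Edg → Prop) :
    PC b η S A = Ex (fun _ => (1 / 2 : ℝ)) S (fun B => Ex (fun _ => η) S (fun H =>
      ind (A (if b then B else B \ H) (if b then B ∪ H else B)))) := by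
  unfold PC Pr lo up
  exact Ex_CE η S (fun B H => ind (A (if b then B else B \ H) (if b then B ∪ H else B)))

/-- Laws of the lower configuration. -/
theorem PC_lo (b : Bool) (η : ℝ) (S : Finset Edg) (A : Finset Edg → Prop) :
    PC b η S (fun F _ => A F) =
      Pr (fun _ => if b then (1 / 2 : ℝ) else (1 - η) / 2) S A := by
  rw [PC_eq]
  cases b
  · simp only [Bool.false_eq_true, if_false]
    rw [Ex_dif (1 / 2) η S (fun F => ind (A F))]
    unfold Pr
    congr 1
    funext _
    ring
  · simp only [if_true]
    unfold Pr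
    apply Ex_congr
    intro B _
    rw [Ex_const]

/-- Laws of the upper configuration. -/
theorem PC_up (b : Bool) (η : ℝ) (S : Finset Edg) (A : Finset Edg → Prop) :
    PC b η S (fun _ G => A G) =
      Pr (fun _ => if b then (1 + η) / 2 else (1 / 2 : ℝ)) S A := by
  rw [PC_eq]
  cases b
  · simp only [Bool.false_eq_true, if_false]
    unfold Pr
    apply Ex_congr
    intro B _
    rw [Ex_const]
  · simp only [if_true]
    rw [Ex_cup (1 / 2) η S (fun F => ind (A F))]
    unfold Pr
    congr 1
    funext _
    ring

theorem lo_sub_up (b : Bool) (K : Finset (Edg × Bool)) : lo b K ⊆ up b K := by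
  unfold lo up
  cases b
  · simp only [Bool.false_eq_true, if_false]
    exact Finset.sdiff_subset
  · simp only [if_true]
    exact Finset.subset_union_left

theorem ba_sub {S : Finset Edg} {K : Finset (Edg × Bool)} (hK : K ⊆ CE S) : ba K ⊆ S := by
  intro e he
  exact mem_CE.1 (hK (mem_ba.1 he))

theorem fl_sub {S : Finset Edg} {K : Finset (Edg × Bool)} (hK : K ⊆ CE S) : fl K ⊆ S := by
  intro e he
  exact mem_CE.1 (hK (mem_fl.1 he))

theorem up_sub {b : Bool} {S : Finset Edg} {K : Finset (Edg × Bool)} (hK : K ⊆ CE S) :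
    up b K ⊆ S := by
  unfold up
  cases b
  · simp only [Bool.false_eq_true, if_false]
    exact ba_sub hK
  · simp only [if_true]
    exact Finset.union_subset (ba_sub hK) (fl_sub hK)

theorem cw_ok {η : ℝ} (h0 : 0 ≤ η) (h1 : η ≤ 1) : Ok (cw η) := by
  intro i
  unfold cw
  split_ifs
  · norm_num
  · exact ⟨h0, h1⟩

end Pool.Agent.N116.EW
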