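import Pool.Agent.N116.EW.Match

/-!
Project EW (helper116): the matched pieces of the two exploration paths.
-/

set_option autoImplicit false

namespace Pool.Agent.N116.EW

open H974 H12S H389NS H984N H984P H342P H443B Finset

variable {D : Dm} {F G : Finset Edg}

/-- **Matched pieces.** -/
theorem matched (hD : D.Ok) (hFG : F ⊆ G) (hG : G ⊆ D.edges) {ρ : ℕ} (hρ : 1 ≤ ρ)
    (h1 : ¬ BadV D ρ F G) (h2 : ¬ BadW D ρ F G) :
    ∃ (m : ℕ) (a b : ℕ → ℕ), a 0 = 0 ∧ b 0 = 0 ∧ a m = D.len F ∧ b m = D.len G ∧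
      (∀ i < m, a i < a (i + 1)) ∧ (∀ i < m, b i < b (i + 1)) ∧
      ∀ i < m, ∀ k l : ℕ, a i ≤ k → k ≤ a (i + 1) → b i ≤ l → l ≤ b (i + 1) →
        sd (D.walk F k).1 (D.walk G l).1 ≤ 2 * ρ + 4 := by
  classical
  have hF : F ⊆ D.edges := hFG.trans hG
  obtain ⟨A, hA⟩ : ∃ A : Finset ℕ, ∀ k, k ∈ A ↔ k ≤ D.len F ∧ D.walk F k ∈ MM D F G :=
    ⟨(Finset.range (D.len F + 1)).filter (fun k => D.walk F k ∈ MM D F G), fun k => by
      rw [Finset.mem_filter, Finset.mem_range, Nat.lt_succ_iff]⟩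
  have h0A : 0 ∈ A := (hA 0).2 ⟨Nat.zero_le _, start_MM hD F G⟩
  have hLA : D.len F ∈ A := (hA _).2 ⟨le_rfl, by rw [walk_len hD hF]; exact stop_MM hD F G⟩
  obtain ⟨m, hm⟩ : ∃ m, A.card = m + 1 := ⟨A.card - 1, by
    have := Finset.card_pos.2 ⟨0, h0A⟩; omega⟩
  obtain ⟨f, hf⟩ : ∃ f, f = A.orderEmbOfFin hm := ⟨_, rfl⟩
  have hfm : ∀ i, f i ∈ A := fun i => by rw [hf]; exact Finset.orderEmbOfFin_mem _ _ _
  have hfs : ∀ k ∈ A, ∃ i, f i = k := by
    intro k hk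
    have := Finset.range_orderEmbOfFin A hm
    rw [← hf] at this
    have h3 : k ∈ Set.range f := by rw [this]; exact Finset.mem_coe.2 hk
    exact h3
  have hfi : ∀ i j, f i < f j ↔ i < j := fun i j => f.lt_iff_lt
  obtain ⟨a, ha⟩ : ∃ a : ℕ → ℕ, ∀ i (h : i < m + 1), a i = f ⟨i, h⟩ :=
    ⟨fun i => if h : i < m + 1 then f ⟨i, h⟩ else 0, fun i h => by simp [h]⟩
  have haA : ∀ i ≤ m, a i ∈ A := fun i hi => by rw [ha i (by omega)]; exact hfm _
  -- times in the other walk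
  have hex : ∀ i, ∃ k, i ≤ m → k ≤ D.len G ∧ D.walk G k = D.walk F (a i) := by
    intro i
    by_cases hi : i ≤ m
    · have h3 := ((hA _).1 (haA i hi)).2
      obtain ⟨k, hk, hk'⟩ := visited hD hG (clu_mono hFG h3.1) h3.2
      exact ⟨k, fun _ => ⟨hk, hk'⟩⟩
    · exact ⟨0, fun h => absurd h hi⟩
  choose b hb using hex
  have hamono : ∀ i < m, a i < a (i + 1) := by
    intro i hi
    rw [ha i (by omega), ha (i + 1) (by omega), hfi]
    exact Fin.mk_lt_mk.2 (by omega)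
  have hgapF : ∀ i < m, ∀ k, a i < k → k < a (i + 1) → D.walk F k ∉ MM D F G := by
    intro i hi k hk1 hk2 hmem
    have hkA : k ∈ A := (hA k).2 ⟨by
      have := ((hA _).1 (haA (i + 1) (by omega))).1
      omega, hmem⟩
    obtain ⟨⟨j, hj⟩, rfl⟩ := hfs k hkA
    rw [ha i (by omega), hfi] at hk1
    rw [ha (i + 1) (by omega), hfi] at hk2
    have h3 := Fin.mk_lt_mk.1 hk1
    have h4 := Fin.mk_lt_mk.1 hk2
    omega
  have hbmono : ∀ i < m, b i < b (i + 1) := by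
    intro i hi
    have e1 := hb i (by omega)
    have e2 := hb (i + 1) (by omega)
    have p1 := (hA _).1 (haA i (by omega))
    have p2 := (hA _).1 (haA (i + 1) (by omega))
    exact (ord_walk hD hFG hG p1.2 p2.2 p1.1 p2.1 e1.1 e2.1 rfl e1.2 rfl e2.2).1 (hamono i hi)
  have hgapG : ∀ i < m, ∀ k, b i < k → k < b (i + 1) → D.walk G k ∉ MM D F G := by
    intro i hi k hk1 hk2 hmem
    have e1 := hb i (by omega)
    have e2 := hb (i + 1) (by omega)
    have p1 := (hA _).1 (haA i (by omega))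
    have p2 := (hA _).1 (haA (i + 1) (by omega))
    obtain ⟨k', hk', hk''⟩ := visited hD hF hmem.1 (dclu_anti hFG hmem.2)
    have q1 := (ord_walk hD hFG hG p1.2 hmem p1.1 hk' e1.1 (by omega) rfl e1.2 hk'' rfl).2 hk1
    have q2 := (ord_walk hD hFG hG hmem p2.2 hk' p2.1 (by omega) e2.1 hk'' rfl rfl e2.2).2 hk2
    exact hgapF i hi k' q1 q2 (by rw [hk'']; exact hmem)
  refine ⟨m, a, b, ?_, ?_, ?_, ?_, hamono, hbmono, ?_⟩
  · obtain ⟨⟨i, hi⟩, h3⟩ := hfs 0 h0A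
    rw [ha 0 (by omega)]
    have h4 : f ⟨0, by omega⟩ ≤ f ⟨i, hi⟩ := f.monotone (Fin.mk_le_mk.2 (Nat.zero_le _))
    rw [h3] at h4
    exact Nat.le_zero.1 h4
  · have e1 := hb 0 (Nat.zero_le _)
    have h3 : a 0 = 0 := by
      obtain ⟨⟨i, hi⟩, h3⟩ := hfs 0 h0A
      rw [ha 0 (by omega)]
      have h4 : f ⟨0, by omega⟩ ≤ f ⟨i, hi⟩ := f.monotone (Fin.mk_le_mk.2 (Nat.zero_le _))
      rw [h3] at h4
      exact Nat.le_zero.1 h4
    rw [h3] at e1
    exact walk_inj' hD hG e1.1 (Nat.zero_le _) e1.2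
  · obtain ⟨⟨i, hi⟩, h3⟩ := hfs _ hLA
    rw [ha m (by omega)]
    have h4 : f ⟨i, hi⟩ ≤ f ⟨m, by omega⟩ := f.monotone (Fin.mk_le_mk.2 (by omega))
    rw [h3] at h4
    exact le_antisymm ((hA _).1 (hfm _)).1 h4
  · have e1 := hb m le_rfl
    have h3 : a m = D.len F := by
      obtain ⟨⟨i, hi⟩, h3⟩ := hfs _ hLA
      rw [ha m (by omega)]
      have h4 : f ⟨i, hi⟩ ≤ f ⟨m, by omega⟩ := f.monotone (Fin.mk_le_mk.2 (by omega))
      rw [h3] at h4
      exact le_antisymm ((hA _).1 (hfm _)).1 h4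
    rw [h3, walk_len hD hF] at e1
    exact walk_inj' hD hG e1.1 le_rfl (e1.2.trans (walk_len hD hG).symm)
  · intro i hi k l hk1 hk2 hl1 hl2
    have e1 := hb i (by omega)
    have e2 := hb (i + 1) (by omega)
    have p1 := (hA _).1 (haA i (by omega))
    have p2 := (hA _).1 (haA (i + 1) (by omega))
    have q1 := exc_F hD hFG hG hρ h2 (hamono i hi) p2.1 p1.2 (hgapF i hi) hk1 hk2
    have q2 := exc_G hD hG hρ h1 (hbmono i hi) e2.1 (by rw [e1.2]; exact p1.2) (hgapG i hi)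
      hl1 hl2
    rw [e1.2] at q2
    have q3 := sd_tri (D.walk F k).1 (D.walk F (a i)).1 (D.walk G l).1
    rw [sd_comm' (D.walk F k).1 (D.walk F (a i)).1] at q3
    omega

end Pool.Agent.N116.EW
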