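import Pool.Agent.N116.EW.Stm2
import Pool.Agent.N116.EW.Match2
import Pool.Agent.N116.EW.Law
import Pool.Agent.H984R4.NP.ModelLem
import Pool.Agent.H342R3.Lim.Curve

/-!
Project EW (helper116): from the matched pieces to the distance of the curves.
-/

set_option autoImplicit false

namespace Pool.Agent.N116.EW

open H974 H12S H389NS H984N H984P H342P Finset
open H342L (cdist Curve)

theorem cdist_le_of {γ γ' : C(unitInterval, ℂ)} {r : ℝ} (hr : 0 ≤ r)
    (φ : unitInterval ≃o unitInterval) (h : ∀ s, dist (γ s) (γ' (φ s)) ≤ r) :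
    cdist γ γ' ≤ r := by
  refine (H342L.cdist_le γ γ' φ).trans ?_
  rw [ContinuousMap.dist_le hr]
  intro t
  exact h t

theorem len_pos {D : Dm} (hD : D.Ok) {F : Finset Edg} (hF : F ⊆ D.edges) : 0 < D.len F := by
  rcases Nat.eq_zero_or_pos (D.len F) with h | h
  · exfalso
    have h1 := walk_len hD hF
    rw [h] at h1
    have h2 : D.start = Dm.stop := h1
    have h3 := congrArg Prod.snd h2
    simp [Dm.start, Dm.stop] at h3
  · exact h

/-- The two paths are close if there is no long excursion. -/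
theorem close (hPL : S_PL) (R : Rect) {δ : ℝ} (hδ : 0 < δ) (hD : (R.dm δ).Ok)
    {F G : Finset Edg} (hFG : F ⊆ G) (hG : G ⊆ (R.dm δ).edges) {ρ : ℕ} (hρ : 1 ≤ ρ)
    (h1 : ¬ BadV (R.dm δ) ρ F G) (h2 : ¬ BadW (R.dm δ) ρ F G) :
    cdist (R.curve δ F) (R.curve δ G) ≤ δ * (4 * ρ + 9) := by
  obtain ⟨m, a, b, ha0, hb0, ham, hbm, ha, hb, hab⟩ := matched hD hFG hG hρ h1 h2
  have hr : (0 : ℝ) ≤ δ * (4 * ρ + 9) := by positivity
  have key : ∀ i < m, ∀ k l : ℕ, a i ≤ k → k ≤ a (i + 1) → b i ≤ l → l ≤ b (i + 1) →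
      dist (pos δ ((R.dm δ).walk F k)) (pos δ ((R.dm δ).walk G l)) ≤ δ * (4 * ρ + 9) := by
    intro i hi k l hk1 hk2 hl1 hl2
    refine (dist_pos_le hδ.le _ _).trans ?_
    apply mul_le_mul_of_nonneg_left _ hδ.le
    have h3 : ((sd ((R.dm δ).walk F k).1 ((R.dm δ).walk G l).1 : ℤ) : ℝ) ≤
        ((2 * (ρ : ℤ) + 4 : ℤ) : ℝ) := by
      exact_mod_cast hab i hi k l hk1 hk2 hl1 hl2
    push_cast at h3
    linarith
  obtain ⟨φ, hφ⟩ := hPL ((R.dm δ).len F) ((R.dm δ).len G) m
    (fun k => pos δ ((R.dm δ).walk F k)) (fun k => pos δ ((R.dm δ).walk G k)) a b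
    (δ * (4 * ρ + 9)) (len_pos hD (hFG.trans hG)) (len_pos hD hG) ha0 hb0 ham hbm ha hb key
  exact cdist_le_of hr φ hφ

theorem sd_in {D : Dm} {κ n : ℝ} (hS : D.Shape κ n) {u v : Vtx} (hu : inR D.l D.r 0 D.h u)
    (hv : inR D.l D.r 0 D.h v) : ((sd u v : ℤ) : ℝ) ≤ n := by
  obtain ⟨⟨h1, h2⟩, h3, h4⟩ := hu
  obtain ⟨⟨k1, k2⟩, k3, k4⟩ := hv
  have h5 : sd u v ≤ max (D.r - D.l) D.h := by
    unfold sd
    apply max_le_max
    · rw [abs_le]; omega
    · rw [abs_le]; omega
  have h6 : ((sd u v : ℤ) : ℝ) ≤ ((max (D.r - D.l) D.h : ℤ) : ℝ) := by exact_mod_cast h5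
  refine h6.trans ?_
  push_cast
  apply max_le
  · have := hS.w_le
    push_cast at this
    exact this
  · exact hS.h_le

/-- The distance of two paths is bounded. -/
theorem cdist_bdd (hPL : S_PL) (R : Rect) {δ κ n : ℝ} (hδ : 0 < δ) (hS : (R.dm δ).Shape κ n)
    {F G : Finset Edg} (hF : F ⊆ (R.dm δ).edges) (hG : G ⊆ (R.dm δ).edges) (hn : 0 ≤ n) :
    cdist (R.curve δ F) (R.curve δ G) ≤ δ * (2 * n + 1) := by
  have hr : (0 : ℝ) ≤ δ * (2 * n + 1) := by positivity
  have hlF := len_pos hS.ok hF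
  have hlG := len_pos hS.ok hG
  have k1 : ∀ i < 1, i * (R.dm δ).len F < (i + 1) * (R.dm δ).len F := by
    intro i hi
    have : i = 0 := by omega
    subst this
    simpa using hlF
  have k2 : ∀ i < 1, i * (R.dm δ).len G < (i + 1) * (R.dm δ).len G := by
    intro i hi
    have : i = 0 := by omega
    subst this
    simpa using hlG
  have k3 : ∀ i < 1, ∀ k l : ℕ, i * (R.dm δ).len F ≤ k → k ≤ (i + 1) * (R.dm δ).len F →
      i * (R.dm δ).len G ≤ l → l ≤ (i + 1) * (R.dm δ).len G →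
      dist (pos δ ((R.dm δ).walk F k)) (pos δ ((R.dm δ).walk G l)) ≤ δ * (2 * n + 1) := by
    intro i _ k l _ _ _ _
    refine (dist_pos_le hδ.le _ _).trans ?_
    apply mul_le_mul_of_nonneg_left _ hδ.le
    have := sd_in hS (walk_in hS.ok hF k) (walk_in hS.ok hG l)
    linarith
  obtain ⟨φ, hφ⟩ := hPL ((R.dm δ).len F) ((R.dm δ).len G) 1
    (fun k => pos δ ((R.dm δ).walk F k)) (fun k => pos δ ((R.dm δ).walk G k))
    (fun i => i * (R.dm δ).len F) (fun i => i * (R.dm δ).len G)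
    (δ * (2 * n + 1)) hlF hlG (Nat.zero_mul _) (Nat.zero_mul _) (Nat.one_mul _)
    (Nat.one_mul _) k1 k2 k3
  exact cdist_le_of hr φ hφ

/-- Few flips. -/
theorem PC_ne (b : Bool) {η : ℝ} (h0 : 0 ≤ η) (h1 : η ≤ 1) (S : Finset Edg) :
    PC b η S (fun F G => F ≠ G) ≤ η * S.card := by
  rw [PC_eq]
  have hok : Ok (fun _ : Edg => (1 / 2 : ℝ)) := fun _ => by norm_num
  have hokη : Ok (fun _ : Edg => η) := fun _ => ⟨h0, h1⟩
  apply Ex_le_of_le hok
  intro B hB
  have h2 : Ex (fun _ => η) S (fun H => ind ((if b then B else B \ H) ≠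
      (if b then B ∪ H else B))) ≤ Pr (fun _ => η) S (fun H => ∃ e ∈ S, e ∈ H) := by
    apply Ex_mono hokη
    intro H hH
    apply ind_mono
    intro hne
    by_contra hcon
    push Not at hcon
    have hH0 : H = ∅ := by
      apply Finset.eq_empty_of_forall_notMem
      intro e he
      exact hcon e (hH he) he
    apply hne
    rw [hH0]
    cases b <;> simp
  refine h2.trans ?_
  refine (Pr_exists_le hokη S S (fun e H => e ∈ H)).trans ?_
  have h3 : ∀ e ∈ S, Pr (fun _ => η) S (fun H => e ∈ H) = η := by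
    intro e he
    rw [← Finset.insert_erase he]
    unfold Pr
    rw [Ex_insert _ (Finset.notMem_erase e S)]
    have e1 : Ex (fun _ => η) (S.erase e) (fun F => ind (e ∈ insert e F)) = 1 := by
      have : (fun F : Finset Edg => ind (e ∈ insert e F)) = fun _ => 1 := by
        funext F
        exact ind_of (Finset.mem_insert_self e F)
      rw [this, Ex_const]
    have e2 : Ex (fun _ => η) (S.erase e) (fun F => ind (e ∈ F)) = 0 := by
      have : Ex (fun _ => η) (S.erase e) (fun F => ind (e ∈ F)) =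
          Ex (fun _ => η) (S.erase e) (fun _ => 0) := by
        apply Ex_congr
        intro F hF
        exact ind_not_of (fun h => Finset.notMem_erase e S (hF h))
      rw [this, Ex_const]
    rw [e1, e2]
    ring
  rw [Finset.sum_congr rfl h3, Finset.sum_const, nsmul_eq_mul]
  linarith

end Pool.Agent.N116.EW
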