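import Pool.Agent.N116.EW.Iff
import Pool.Agent.N322.EW.LocF
import Pool.Agent.N86.EW.T2A
import Pool.Agent.N592.EW.One
import Pool.Agent.N592.EW.EdgeDet
import Pool.Agent.N717.EW.XA
import Pool.Agent.N717.EW.SUP
import Pool.Agent.N833.EW.XeP
import Pool.Agent.N861.EW.Low
import Pool.Agent.N583.EW.XD
import Pool.Agent.N144.EW.Sum
import Pool.Agent.N690.EW.NXF
import Pool.Agent.N839.EW.PL
import Pool.Agent.N97.EW.Arc

/-!
Project EW (helper116): the parts put together.
-/

set_option autoImplicit false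

namespace Pool.Agent.N116.EW

theorem allXE : ∀ b, S_XE b
  | true => Pool.Agent.N833.EW.xeP Pool.Agent.N592.EW.xeSub Pool.Agent.N592.EW.dichE
  | false => Pool.Agent.N861.EW.xeD Pool.Agent.N717.EW.xaSub Pool.Agent.N592.EW.xeSub
      Pool.Agent.N717.EW.dichA

theorem allXD : ∀ b, S_XD b := Pool.Agent.N583.EW.xd allXE

theorem allSUM : S_SUM := Pool.Agent.N144.EW.sum allXE allXD Pool.Agent.N690.EW.nx

theorem allPL : S_PL := Pool.Agent.N839.EW.plIso

theorem allSUP : S_SUP := Pool.Agent.N717.EW.sup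

theorem allARC : S_ARC := Pool.Agent.N97.EW.arc

theorem allT2 : ∀ b, S_T2 b := Pool.Agent.N86.EW.t2 allXE allXD

theorem allLOC : S_LOC := Pool.Agent.N322.EW.loc allXE allXD allT2

theorem allONE : S_ONE := Pool.Agent.N592.EW.one allT2

end Pool.Agent.N116.EW
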