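import Pool.Agent.N116.EW.Close

/-!
Project EW (helper116): the probability that the two coupled paths are not close.
-/

set_option autoImplicit false

namespace Pool.Agent.N116.EW

open H974 H12S H389NS H984N H984P H342P Finset
open H342L (cdist Curve)

theorem card_edges {D : Dm} {κ n : ℝ} (hn : 1 ≤ n) (hS : D.Shape κ n) :
    (D.edges.card : ℝ) ≤ 8 * n ^ 2 := by
  have h1 : D.edges.card ≤ (D.r - D.l + 1).toNat * ((D.h + 1).toNat * 2) := by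
    unfold Dm.edges RE
    refine (Finset.card_filter_le _ _).trans ?_
    rw [Finset.card_product, Finset.card_product, Int.card_Icc, Int.card_Icc]
    have e1 : (D.r + 1 - D.l).toNat = (D.r - D.l + 1).toNat := by congr 1; ring
    have e2 : (D.h + 1 - 0).toNat = (D.h + 1).toNat := by rw [sub_zero]
    rw [e1, e2]
    simp
  have hw : (((D.r - D.l + 1).toNat : ℕ) : ℝ) ≤ 2 * n := by
    have h2 : (((D.r - D.l + 1).toNat : ℕ) : ℤ) = D.r - D.l + 1 := by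
      have := hS.ok.l_neg
      have := hS.ok.r_pos
      omega
    have h3 : (((D.r - D.l + 1).toNat : ℕ) : ℝ) = ((D.r - D.l : ℤ) : ℝ) + 1 := by
      have : ((((D.r - D.l + 1).toNat : ℕ) : ℤ) : ℝ) = ((D.r - D.l + 1 : ℤ) : ℝ) := by rw [h2]
      push_cast at this ⊢
      exact this
    rw [h3]
    have := hS.w_le
    linarith
  have hh : (((D.h + 1).toNat : ℕ) : ℝ) ≤ 2 * n := by
    have h2 : (((D.h + 1).toNat : ℕ) : ℤ) = D.h + 1 := by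
      have := hS.ok.h_pos
      omega
    have h3 : (((D.h + 1).toNat : ℕ) : ℝ) = (D.h : ℝ) + 1 := by
      have : ((((D.h + 1).toNat : ℕ) : ℤ) : ℝ) = ((D.h + 1 : ℤ) : ℝ) := by rw [h2]
      push_cast at this ⊢
      exact this
    rw [h3]
    have := hS.h_le
    linarith
  have h4 : (D.edges.card : ℝ) ≤ (((D.r - D.l + 1).toNat : ℕ) : ℝ) *
      ((((D.h + 1).toNat : ℕ) : ℝ) * 2) := by exact_mod_cast h1
  refine h4.trans ?_
  have h5 : (0 : ℝ) ≤ (((D.r - D.l + 1).toNat : ℕ) : ℝ) := Nat.cast_nonneg _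
  have h6 : (0 : ℝ) ≤ (((D.h + 1).toNat : ℕ) : ℝ) := Nat.cast_nonneg _
  nlinarith

theorem PC_mono {b : Bool} {η : ℝ} (h0 : 0 ≤ η) (h1 : η ≤ 1) {S : Finset Edg}
    {A B : Finset Edg → Finset Edg → Prop}
    (h : ∀ F G : Finset Edg, F ⊆ G → G ⊆ S → A F G → B F G) : PC b η S A ≤ PC b η S B := by
  unfold PC
  exact Pr_mono (cw_ok h0 h1) fun K hK hA => h _ _ (lo_sub_up b K) (up_sub hK) hA

theorem PC_or {b : Bool} {η : ℝ} (h0 : 0 ≤ η) (h1 : η ≤ 1) (S : Finset Edg)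
    (A B : Finset Edg → Finset Edg → Prop) :
    PC b η S (fun F G => A F G ∨ B F G) ≤ PC b η S A + PC b η S B := by
  unfold PC
  exact Pr_or_le (cw_ok h0 h1) _ _ _

theorem PC_le_one {b : Bool} {η : ℝ} (h0 : 0 ≤ η) (h1 : η ≤ 1) (S : Finset Edg)
    (A : Finset Edg → Finset Edg → Prop) : PC b η S A ≤ 1 := Pr_le_one (cw_ok h0 h1) _ _

theorem PC_nonneg {b : Bool} {η : ℝ} (h0 : 0 ≤ η) (h1 : η ≤ 1) (S : Finset Edg)
    (A : Finset Edg → Finset Edg → Prop) : 0 ≤ PC b η S A := Pr_nonneg (cw_ok h0 h1) _ _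

theorem PC_false {b : Bool} {η : ℝ} (S : Finset Edg) {A : Finset Edg → Finset Edg → Prop}
    (h : ∀ F G : Finset Edg, F ⊆ G → G ⊆ S → ¬ A F G) : PC b η S A = 0 := by
  unfold PC Pr
  rw [Ex_congr (g := fun _ => 0) (fun K hK => ind_not_of (h _ _ (lo_sub_up b K) (up_sub hK))),
    Ex_const]

/-- **The coupled paths are close.** -/
theorem partA (hSUM : S_SUM) (hPL : S_PL) (R : Rect) : ∃ C δ0 : ℝ, 0 < C ∧ 0 < δ0 ∧
    ∀ δ η r : ℝ, 0 < δ → δ ≤ δ0 → 0 ≤ η → η ≤ 1 → 0 < r → ∀ b : Bool,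
      PC b η (R.dm δ).edges (fun F G => r < cdist (R.curve δ F) (R.curve δ G)) ≤
        C * ((η * δ ^ (-(3 / 4) : ℝ)) * r ^ (-(5 / 4) : ℝ)) := by
  obtain ⟨κ, S, δ0, hκ, hS, hδ0, hδ01, hshape⟩ := R.shape
  obtain ⟨C1, t1, hC1, ht1, hsum⟩ := hSUM κ hκ
  obtain ⟨R0, hR0⟩ : ∃ R0, R0 = 2 * S + 1 := ⟨_, rfl⟩
  have hR0p : 0 < R0 := by rw [hR0]; positivity
  obtain ⟨c2, hc2⟩ : ∃ c2, c2 = t1 * S ^ (-(3 / 4) : ℝ) * R0 ^ (-(5 / 4) : ℝ) := ⟨_, rfl⟩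
  have hc2p : 0 < c2 := by rw [hc2]; positivity
  obtain ⟨C3, hC3⟩ : ∃ C3, C3 = 2 * C1 * S ^ 2 * 8 ^ (5 / 4 : ℝ) := ⟨_, rfl⟩
  have hC3p : 0 < C3 := by rw [hC3]; positivity
  obtain ⟨C4, hC4⟩ : ∃ C4, C4 = 8 * S ^ 2 * 26 ^ (5 / 4 : ℝ) := ⟨_, rfl⟩
  have hC4p : 0 < C4 := by rw [hC4]; positivity
  refine ⟨1 / c2 + C3 + C4, min δ0 S, by positivity, lt_min hδ0 hS, ?_⟩
  intro δ η r hδ hle hη0 hη1 hr b
  have hδle : δ ≤ δ0 := hle.trans (min_le_left _ _)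
  have hδS : δ ≤ S := hle.trans (min_le_right _ _)
  have hsh := hshape δ hδ hδle
  have hn : 1 ≤ S / δ := by rw [le_div_iff₀ hδ]; linarith
  obtain ⟨x, hx⟩ : ∃ x, x = (η * δ ^ (-(3 / 4) : ℝ)) * r ^ (-(5 / 4) : ℝ) := ⟨_, rfl⟩
  have hx0 : 0 ≤ x := by rw [hx]; positivity
  rw [← hx]
  have e1 : 1 / c2 * x ≤ (1 / c2 + C3 + C4) * x := by
    apply mul_le_mul_of_nonneg_right _ hx0
    linarith
  have e3 : C3 * x ≤ (1 / c2 + C3 + C4) * x := by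
    apply mul_le_mul_of_nonneg_right _ hx0
    have : 0 < 1 / c2 := by positivity
    linarith
  have e4 : C4 * x ≤ (1 / c2 + C3 + C4) * x := by
    apply mul_le_mul_of_nonneg_right _ hx0
    have : 0 < 1 / c2 := by positivity
    linarith
  -- large distances
  rcases lt_or_ge R0 r with hbig | hsmall
  · rw [PC_false]
    · exact mul_nonneg (by positivity) hx0
    · intro F G hFG hG hlt
      have h1 := cdist_bdd hPL R hδ hsh (hFG.trans hG) hG (by positivity)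
      have h2 : δ * (2 * (S / δ) + 1) = 2 * S + δ := by field_simp
      rw [h2] at h1
      have : δ ≤ 1 := hδle.trans hδ01
      linarith
  rcases lt_or_ge t1 (η * (S / δ) ^ (3 / 4 : ℝ)) with ht | ht
  · -- outside of the window
    refine (PC_le_one hη0 hη1 _ _).trans (le_trans ?_ e1)
    rw [one_div, ← div_eq_inv_mul, le_div_iff₀ hc2p, one_mul, hc2, hx]
    have h1 : t1 * S ^ (-(3 / 4) : ℝ) ≤ η * δ ^ (-(3 / 4) : ℝ) := by
      have h2 : (S / δ) ^ (3 / 4 : ℝ) = S ^ (3 / 4 : ℝ) * δ ^ (-(3 / 4) : ℝ) := by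
        rw [Real.div_rpow hS.le hδ.le, Real.rpow_neg hδ.le]
        rfl
      rw [h2] at ht
      have h3 : S ^ (-(3 / 4) : ℝ) * S ^ (3 / 4 : ℝ) = 1 := by
        rw [← Real.rpow_add hS]; norm_num
      have h4 : 0 < S ^ (-(3 / 4) : ℝ) := by positivity
      calc t1 * S ^ (-(3 / 4) : ℝ) ≤ (η * (S ^ (3 / 4 : ℝ) * δ ^ (-(3 / 4) : ℝ))) *
            S ^ (-(3 / 4) : ℝ) := mul_le_mul_of_nonneg_right ht.le h4.le
        _ = η * δ ^ (-(3 / 4) : ℝ) * (S ^ (-(3 / 4) : ℝ) * S ^ (3 / 4 : ℝ)) := by ring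
        _ = _ := by rw [h3, mul_one]
    have h5 : R0 ^ (-(5 / 4) : ℝ) ≤ r ^ (-(5 / 4) : ℝ) :=
      Real.rpow_le_rpow_of_nonpos hr hsmall (by norm_num)
    exact mul_le_mul h1 h5 (by positivity) (by positivity)
  rcases lt_or_ge r (26 * δ) with hr26 | hr26
  · -- microscopic distances
    have h1 : PC b η (R.dm δ).edges (fun F G => r < cdist (R.curve δ F) (R.curve δ G)) ≤
        PC b η (R.dm δ).edges (fun F G => F ≠ G) := by
      apply PC_mono hη0 hη1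
      intro F G _ _ hlt heq
      rw [heq, H342L.cdist_self] at hlt
      linarith
    refine h1.trans ((PC_ne b hη0 hη1 _).trans (le_trans ?_ e4))
    have h2 := card_edges hn hsh
    have h3 : η * ((R.dm δ).edges.card : ℝ) ≤ η * (8 * (S / δ) ^ 2) :=
      mul_le_mul_of_nonneg_left h2 hη0
    refine h3.trans ?_
    rw [hC4, hx]
    have h4 : (26 * δ) ^ (-(5 / 4) : ℝ) ≤ r ^ (-(5 / 4) : ℝ) :=
      Real.rpow_le_rpow_of_nonpos hr hr26.le (by norm_num)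
    have h5 : (26 : ℝ) ^ (5 / 4 : ℝ) * (26 * δ) ^ (-(5 / 4) : ℝ) = δ ^ (-(5 / 4) : ℝ) := by
      rw [Real.mul_rpow (by norm_num) hδ.le, ← mul_assoc, ← Real.rpow_add (by norm_num)]
      norm_num
    have h6 : δ ^ (-(3 / 4) : ℝ) * δ ^ (-(5 / 4) : ℝ) = (δ ^ 2)⁻¹ := by
      rw [← Real.rpow_add hδ, ← Real.rpow_natCast, ← Real.rpow_neg hδ.le]
      norm_num
    calc η * (8 * (S / δ) ^ 2) = 8 * S ^ 2 * η * (δ ^ 2)⁻¹ := by
          rw [div_pow]; field_simp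
      _ = 8 * S ^ 2 * η * (δ ^ (-(3 / 4) : ℝ) *
          ((26 : ℝ) ^ (5 / 4 : ℝ) * (26 * δ) ^ (-(5 / 4) : ℝ))) := by rw [h5, h6]
      _ = (8 * S ^ 2 * (26 : ℝ) ^ (5 / 4 : ℝ) * (η * δ ^ (-(3 / 4) : ℝ))) *
          (26 * δ) ^ (-(5 / 4) : ℝ) := by ring
      _ ≤ (8 * S ^ 2 * (26 : ℝ) ^ (5 / 4 : ℝ) * (η * δ ^ (-(3 / 4) : ℝ))) *
          r ^ (-(5 / 4) : ℝ) := mul_le_mul_of_nonneg_left h4 (by positivity)
      _ = _ := by ring
  · -- the main case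
    obtain ⟨ρ, hρ⟩ : ∃ ρ : ℕ, ρ = ⌊(r / δ - 9) / 4⌋₊ := ⟨_, rfl⟩
    have hrd : 26 ≤ r / δ := by rw [le_div_iff₀ hδ]; exact hr26
    have hfl : ((ρ : ℕ) : ℝ) ≤ (r / δ - 9) / 4 := by
      rw [hρ]; exact Nat.floor_le (by linarith)
    have hfl' : (r / δ - 9) / 4 < (ρ : ℝ) + 1 := by
      rw [hρ]; exact Nat.lt_floor_add_one _
    have hρr : r / δ / 8 ≤ (ρ : ℝ) := by linarith
    have hρ1 : 1 ≤ ρ := by
      have : (0 : ℝ) < (ρ : ℝ) := by linarith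
      exact_mod_cast this
    have hcl : δ * (4 * (ρ : ℝ) + 9) ≤ r := by
      have : 4 * (ρ : ℝ) + 9 ≤ r / δ := by linarith
      calc δ * (4 * (ρ : ℝ) + 9) ≤ δ * (r / δ) := mul_le_mul_of_nonneg_left this hδ.le
        _ = r := by field_simp
    have h1 : PC b η (R.dm δ).edges (fun F G => r < cdist (R.curve δ F) (R.curve δ G)) ≤
        PC b η (R.dm δ).edges (fun F G => BadV (R.dm δ) ρ F G ∨ BadW (R.dm δ) ρ F G) := by
      apply PC_mono hη0 hη1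
      intro F G hFG hG hlt
      by_contra hcon
      push Not at hcon
      have := close hPL R hδ hsh.ok hFG hG hρ1 hcon.1 hcon.2
      linarith
    have h2 := hsum (S / δ) (R.dm δ) hn hsh η hη0 hη1 ht ρ hρ1 b
    refine h1.trans ((PC_or hη0 hη1 _ _ _).trans ((add_le_add h2.1 h2.2).trans (le_trans ?_ e3)))
    rw [hC3, hx]
    have h4 : (ρ : ℝ) ^ (-(5 / 4) : ℝ) ≤ (r / δ / 8) ^ (-(5 / 4) : ℝ) :=
      Real.rpow_le_rpow_of_nonpos (by positivity) hρr (by norm_num)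
    have h5 : (r / δ / 8) ^ (-(5 / 4) : ℝ) =
        r ^ (-(5 / 4) : ℝ) * δ ^ (5 / 4 : ℝ) * 8 ^ (5 / 4 : ℝ) := by
      rw [Real.div_rpow (by positivity) (by norm_num), Real.div_rpow hr.le hδ.le,
        Real.rpow_neg hδ.le, Real.rpow_neg (by norm_num : (0 : ℝ) ≤ 8), div_inv_eq_mul,
        div_inv_eq_mul]
    have h6 : (δ ^ 2)⁻¹ * δ ^ (5 / 4 : ℝ) = δ ^ (-(3 / 4) : ℝ) := by
      rw [← Real.rpow_natCast, ← Real.rpow_neg hδ.le, ← Real.rpow_add hδ]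
      norm_num
    have h7 : (ρ : ℝ) ^ (-(5 / 4 : ℝ)) = (ρ : ℝ) ^ (-(5 / 4) : ℝ) := rfl
    calc C1 * (η * (S / δ) ^ 2 * (ρ : ℝ) ^ (-(5 / 4 : ℝ))) +
          C1 * (η * (S / δ) ^ 2 * (ρ : ℝ) ^ (-(5 / 4 : ℝ)))
        = 2 * C1 * S ^ 2 * η * (δ ^ 2)⁻¹ * (ρ : ℝ) ^ (-(5 / 4) : ℝ) := by
          rw [div_pow]; field_simp; ring
      _ ≤ 2 * C1 * S ^ 2 * η * (δ ^ 2)⁻¹ * (r ^ (-(5 / 4) : ℝ) * δ ^ (5 / 4 : ℝ) *
          8 ^ (5 / 4 : ℝ)) := by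
          rw [← h5]
          exact mul_le_mul_of_nonneg_left h4 (by positivity)
      _ = 2 * C1 * S ^ 2 * 8 ^ (5 / 4 : ℝ) * (η * ((δ ^ 2)⁻¹ * δ ^ (5 / 4 : ℝ)) *
          r ^ (-(5 / 4) : ℝ)) := by ring
      _ = _ := by rw [h6]

end Pool.Agent.N116.EW
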