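import Pool.Agent.N116.EW.Uni
import Pool.Agent.N116.EW.PartA
import Pool.Agent.N144.EW.Sums

/-!
Project EW (helper116): few vertices are visited by exactly one of the two paths.
-/

set_option autoImplicit false

namespace Pool.Agent.N116.EW

open H974 H12S H389NS H984N H984P H342P H443B Finset
open Pool.Agent.N144.EW (sum_rpow sum_inj)

/-- The one-point weight at distance `k` of the boundary, cut at `N`. -/
noncomputable def gb (N : ℕ) (k : ℤ) : ℝ :=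
  if k.toNat < N then ((k.toNat : ℝ) + 1) ^ (-(1 / 4 : ℝ)) else 0

theorem gb_nonneg (N : ℕ) (k : ℤ) : 0 ≤ gb N k := by
  unfold gb
  split_ifs
  · positivity
  · exact le_rfl

theorem sum_gb {p q : ℤ} (N : ℕ) (k : ℤ → ℤ) (hk : ∀ x ∈ Icc p q, 0 ≤ k x)
    (hinj : ∀ x y, k x = k y → x = y) :
    ∑ x ∈ Icc p q, gb N (k x) ≤ 4 / 3 * (N : ℝ) ^ (3 / 4 : ℝ) := by
  have h1 : ∑ s ∈ range N, ((s : ℝ) + 1) ^ (-(1 / 4 : ℝ)) ≤ 4 / 3 * (N : ℝ) ^ (3 / 4 : ℝ) := by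
    have := sum_rpow (a := 1 / 4) (by norm_num) (by norm_num) N
    refine this.trans (le_of_eq ?_)
    norm_num
    ring
  refine le_trans ?_ h1
  unfold gb
  refine sum_inj _ (fun x => (k x).toNat < N) (fun x => (k x).toNat) N (fun _ _ h => h) ?_
    (fun s => ((s : ℝ) + 1) ^ (-(1 / 4 : ℝ))) (fun s => by positivity)
  intro x hx y hy hxy _ _
  apply hinj
  have h2 := hk x hx
  have h3 := hk y hy
  have h4 : (k x).toNat = (k y).toNat := hxy
  omega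

theorem card_Icc_le {p q : ℤ} {n : ℝ} (hn : 1 ≤ n) (h : ((q - p : ℤ) : ℝ) ≤ n) :
    ((Icc p q).card : ℝ) ≤ 2 * n := by
  rw [Int.card_Icc]
  rcases le_or_gt 0 (q + 1 - p) with h1 | h1
  · have h2 : (((q + 1 - p).toNat : ℕ) : ℝ) = ((q - p : ℤ) : ℝ) + 1 := by
      have h3 : (((q + 1 - p).toNat : ℕ) : ℤ) = q - p + 1 := by omega
      have : ((((q + 1 - p).toNat : ℕ) : ℤ) : ℝ) = ((q - p + 1 : ℤ) : ℝ) := by rw [h3]
      push_cast at this ⊢
      exact this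
    rw [h2]
    linarith
  · have h2 : (q + 1 - p).toNat = 0 := by omega
    rw [h2, Nat.cast_zero]
    linarith

theorem sum_bd {D : Dm} {κ n : ℝ} (hn : 1 ≤ n) (hs : D.Shape κ n) (N : ℕ) :
    ∑ x ∈ vts D, gb N (D.bd x) ≤ 11 * (n * (N : ℝ) ^ (3 / 4 : ℝ)) := by
  have h1 : ∀ x ∈ vts D, gb N (D.bd x) ≤
      (gb N (x.1 - D.l) + gb N (D.r - x.1)) + (gb N x.2 + gb N (D.h - x.2)) := by
    intro x _
    have n1 := gb_nonneg N (x.1 - D.l)
    have n2 := gb_nonneg N (D.r - x.1)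
    have n3 := gb_nonneg N x.2
    have n4 := gb_nonneg N (D.h - x.2)
    unfold Dm.bd
    rcases min_choice (min (x.1 - D.l) (D.r - x.1)) (min x.2 (D.h - x.2)) with h | h
    · rw [h]
      rcases min_choice (x.1 - D.l) (D.r - x.1) with h | h
      · rw [h]; linarith
      · rw [h]; linarith
    · rw [h]
      rcases min_choice x.2 (D.h - x.2) with h | h
      · rw [h]; linarith
      · rw [h]; linarith
  refine (Finset.sum_le_sum h1).trans ?_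
  unfold vts
  rw [Finset.sum_product]
  have hw : ((D.r - D.l : ℤ) : ℝ) ≤ n := hs.w_le
  have hh : ((D.h - 0 : ℤ) : ℝ) ≤ n := by rw [sub_zero]; exact hs.h_le
  have c1 := card_Icc_le hn hw
  have c2 := card_Icc_le hn hh
  obtain ⟨T, hT⟩ : ∃ T : ℝ, T = (N : ℝ) ^ (3 / 4 : ℝ) := ⟨_, rfl⟩
  have hT0 : 0 ≤ T := by rw [hT]; positivity
  rw [← hT]
  have e1 : ∑ x ∈ Icc D.l D.r, (gb N (x - D.l) + gb N (D.r - x)) ≤ 8 / 3 * T := by
    rw [Finset.sum_add_distrib]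
    have a1 := sum_gb (p := D.l) (q := D.r) N (fun x => x - D.l)
      (fun x hx => by rw [Finset.mem_Icc] at hx; omega)
      (fun x y h => by omega)
    have a2 := sum_gb (p := D.l) (q := D.r) N (fun x => D.r - x)
      (fun x hx => by rw [Finset.mem_Icc] at hx; omega)
      (fun x y h => by omega)
    rw [← hT] at a1 a2
    linarith
  have e2 : ∑ y ∈ Icc (0 : ℤ) D.h, (gb N y + gb N (D.h - y)) ≤ 8 / 3 * T := by
    rw [Finset.sum_add_distrib]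
    have a1 := sum_gb (p := 0) (q := D.h) N (fun x => x)
      (fun x hx => by rw [Finset.mem_Icc] at hx; omega)
      (fun x y h => h)
    have a2 := sum_gb (p := 0) (q := D.h) N (fun x => D.h - x)
      (fun x hx => by rw [Finset.mem_Icc] at hx; omega)
      (fun x y h => by omega)
    rw [← hT] at a1 a2
    linarith
  have e3 : ∑ x ∈ Icc D.l D.r, ∑ y ∈ Icc (0 : ℤ) D.h,
      ((gb N (x - D.l) + gb N (D.r - x)) + (gb N y + gb N (D.h - y))) =
      ((Icc (0 : ℤ) D.h).card : ℝ) * ∑ x ∈ Icc D.l D.r, (gb N (x - D.l) + gb N (D.r - x)) +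
      ((Icc D.l D.r).card : ℝ) * ∑ y ∈ Icc (0 : ℤ) D.h, (gb N y + gb N (D.h - y)) := by
    simp only [Finset.sum_add_distrib, Finset.sum_const, nsmul_eq_mul, ← Finset.mul_sum]
    ring
  refine (le_of_eq e3).trans ?_
  have p1 : ((Icc (0 : ℤ) D.h).card : ℝ) * ∑ x ∈ Icc D.l D.r,
      (gb N (x - D.l) + gb N (D.r - x)) ≤ (2 * n) * (8 / 3 * T) := by
    apply mul_le_mul c2 e1 _ (by linarith)
    exact Finset.sum_nonneg fun x _ => add_nonneg (gb_nonneg _ _) (gb_nonneg _ _)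
  have p2 : ((Icc D.l D.r).card : ℝ) * ∑ y ∈ Icc (0 : ℤ) D.h, (gb N y + gb N (D.h - y)) ≤
      (2 * n) * (8 / 3 * T) := by
    apply mul_le_mul c1 e2 _ (by linarith)
    exact Finset.sum_nonneg fun x _ => add_nonneg (gb_nonneg _ _) (gb_nonneg _ _)
  have : 0 ≤ n * T := by positivity
  nlinarith

/-- The number of vertices. -/
theorem card_vts {D : Dm} {κ n : ℝ} (hn : 1 ≤ n) (hs : D.Shape κ n) :
    ((vts D).card : ℝ) ≤ 4 * n ^ 2 := by
  unfold vts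
  rw [Finset.card_product]
  push_cast
  have hw : ((D.r - D.l : ℤ) : ℝ) ≤ n := hs.w_le
  have hh : ((D.h - 0 : ℤ) : ℝ) ≤ n := by rw [sub_zero]; exact hs.h_le
  have c1 := card_Icc_le hn hw
  have c2 := card_Icc_le hn hh
  have c3 : (0 : ℝ) ≤ ((Icc (0 : ℤ) D.h).card : ℝ) := Nat.cast_nonneg _
  nlinarith

/-- **Few vertices are visited by exactly one of the two paths.** -/
theorem cO_bound (hLOC : S_LOC) (hONE : S_ONE) : ∀ κ : ℝ, 0 < κ → ∃ C t : ℝ, 0 < C ∧ 0 < t ∧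
    ∀ (n : ℝ) (D : Dm), 1 ≤ n → D.Shape κ n → ∀ η : ℝ, 0 ≤ η → η ≤ 1 →
    η * n ^ (3 / 4 : ℝ) ≤ t → ∀ ρ : ℕ, 1 ≤ ρ → ∀ (b : Bool) (Y : ℝ), 0 < Y →
    PC b η D.edges (fun F G => (¬ BadV D ρ F G ∧ ¬ BadW D ρ F G) ∧ Y ≤ cO D F G) ≤
      C * (η * n ^ 2 * (ρ : ℝ) ^ (1 / 2 : ℝ) + n * (ρ : ℝ) ^ (3 / 4 : ℝ)) / Y := by
  classical
  intro κ hκ
  obtain ⟨C1, t1, hC1, ht1, h1⟩ := hLOC κ hκ
  obtain ⟨C2, t2, hC2, ht2, h2⟩ := hONE κ hκ
  refine ⟨4 * C1 + 176 * C2, min t1 t2, by positivity, lt_min ht1 ht2, ?_⟩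
  intro n D hn hs η hη0 hη1 ht ρ hρ b Y hY
  have hok := cw_ok hη0 hη1
  rw [le_div_iff₀ hY]
  -- Markov
  have hmk : PC b η D.edges (fun F G => (¬ BadV D ρ F G ∧ ¬ BadW D ρ F G) ∧ Y ≤ cO D F G) * Y ≤
      ∑ x ∈ vts D, PC b η D.edges (fun F G => (¬ BadV D ρ F G ∧ ¬ BadW D ρ F G) ∧
        Vx D F G x) := by
    unfold PC Pr
    rw [← Ex_mul_right, ← Ex_sum]
    apply Ex_mono hok
    intro K hK
    by_cases hc : (¬ BadV D ρ (lo b K) (up b K) ∧ ¬ BadW D ρ (lo b K) (up b K)) ∧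
        Y ≤ cO D (lo b K) (up b K)
    · rw [ind_of hc, one_mul]
      refine hc.2.trans ?_
      unfold cO
      rw [Finset.card_filter]
      push_cast
      apply Finset.sum_le_sum
      intro x _
      split_ifs with hx
      · rw [ind_of ⟨hc.1, hx⟩]
      · exact ind_nonneg _
    · rw [ind_not_of hc, zero_mul]
      exact Finset.sum_nonneg fun x _ => ind_nonneg _
  refine hmk.trans ?_
  -- one vertex
  have hx : ∀ x ∈ vts D, PC b η D.edges (fun F G => (¬ BadV D ρ F G ∧ ¬ BadW D ρ F G) ∧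
      Vx D F G x) ≤ C1 * (η * (ρ : ℝ) ^ (1 / 2 : ℝ)) + 2 * C2 * gb (8 * ρ) (D.bd x) := by
    intro x hx
    rw [mem_vts] at hx
    have hb0 : 0 ≤ D.bd x := by
      obtain ⟨⟨a1, a2⟩, a3, a4⟩ := hx
      unfold Dm.bd
      omega
    rcases le_or_gt (8 * (ρ : ℤ)) (D.bd x) with h | h
    · have h3 := h1 n D hn hs η hη0 hη1 (ht.trans (min_le_left _ _)) x ρ hx hρ h b
      refine (h3.trans (le_add_of_nonneg_right ?_))
      exact mul_nonneg (by positivity) (gb_nonneg _ _)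
    · have h3 := h2 n D hn hs η hη0 hη1 (ht.trans (min_le_right _ _)) x hx b
      have h4 : PC b η D.edges (fun F G => (¬ BadV D ρ F G ∧ ¬ BadW D ρ F G) ∧ Vx D F G x) ≤
          PC b η D.edges (fun F G => (∃ q : Q4, x ∈ D.clu F ∧ face ((x, q) : St) ∈ D.dclu F) ∨
            (∃ q : Q4, x ∈ D.clu G ∧ face ((x, q) : St) ∈ D.dclu G)) := by
        apply PC_mono hη0 hη1
        rintro F G _ _ ⟨_, q, hq | hq⟩
        · exact Or.inr ⟨q, hq.1, hq.2.2⟩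
        · exact Or.inl ⟨q, hq.1, hq.2.1⟩
      have h5 := PC_or (b := b) hη0 hη1 D.edges
        (fun F _ => ∃ q : Q4, x ∈ D.clu F ∧ face ((x, q) : St) ∈ D.dclu F)
        (fun _ G => ∃ q : Q4, x ∈ D.clu G ∧ face ((x, q) : St) ∈ D.dclu G)
      have h6 : gb (8 * ρ) (D.bd x) = ((D.bd x : ℝ) + 1) ^ (-(1 / 4 : ℝ)) := by
        unfold gb
        have h7 : (D.bd x).toNat < 8 * ρ := by omega
        rw [if_pos h7]
        have h8 : (((D.bd x).toNat : ℕ) : ℝ) = (D.bd x : ℝ) := by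
          have : (((D.bd x).toNat : ℕ) : ℤ) = D.bd x := by omega
          exact_mod_cast this
        rw [h8]
      rw [h6]
      have h9 : 0 ≤ C1 * (η * (ρ : ℝ) ^ (1 / 2 : ℝ)) := by positivity
      linarith [h3.1, h3.2]
  refine (Finset.sum_le_sum hx).trans ?_
  rw [Finset.sum_add_distrib, Finset.sum_const, nsmul_eq_mul, ← Finset.mul_sum]
  have h3 := card_vts hn hs
  have h4 := sum_bd hn hs (8 * ρ)
  have h5 : (((8 * ρ : ℕ) : ℝ)) ^ (3 / 4 : ℝ) ≤ 8 * (ρ : ℝ) ^ (3 / 4 : ℝ) := by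
    push_cast
    rw [Real.mul_rpow (by norm_num) (by positivity)]
    apply mul_le_mul_of_nonneg_right _ (by positivity)
    calc (8 : ℝ) ^ (3 / 4 : ℝ) ≤ 8 ^ (1 : ℝ) :=
          Real.rpow_le_rpow_of_exponent_le (by norm_num) (by norm_num)
      _ = 8 := Real.rpow_one _
  have q1 : ((vts D).card : ℝ) * (C1 * (η * (ρ : ℝ) ^ (1 / 2 : ℝ))) ≤
      4 * C1 * (η * n ^ 2 * (ρ : ℝ) ^ (1 / 2 : ℝ)) := by
    calc ((vts D).card : ℝ) * (C1 * (η * (ρ : ℝ) ^ (1 / 2 : ℝ))) ≤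
          (4 * n ^ 2) * (C1 * (η * (ρ : ℝ) ^ (1 / 2 : ℝ))) :=
          mul_le_mul_of_nonneg_right h3 (by positivity)
      _ = _ := by ring
  have q2 : 2 * C2 * ∑ x ∈ vts D, gb (8 * ρ) (D.bd x) ≤
      176 * C2 * (n * (ρ : ℝ) ^ (3 / 4 : ℝ)) := by
    calc 2 * C2 * ∑ x ∈ vts D, gb (8 * ρ) (D.bd x) ≤
          2 * C2 * (11 * (n * ((8 * ρ : ℕ) : ℝ) ^ (3 / 4 : ℝ))) :=
          mul_le_mul_of_nonneg_left h4 (by positivity)
      _ ≤ 2 * C2 * (11 * (n * (8 * (ρ : ℝ) ^ (3 / 4 : ℝ)))) := by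
          apply mul_le_mul_of_nonneg_left _ (by positivity)
          apply mul_le_mul_of_nonneg_left _ (by norm_num)
          exact mul_le_mul_of_nonneg_left h5 (by linarith)
      _ = _ := by ring
  have r1 : 0 ≤ η * n ^ 2 * (ρ : ℝ) ^ (1 / 2 : ℝ) := by positivity
  have r2 : 0 ≤ n * (ρ : ℝ) ^ (3 / 4 : ℝ) := by positivity
  nlinarith

end Pool.Agent.N116.EW
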