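import Pool.Agent.H984R4.NP.Model
import Pool.Agent.H443R3.BT.Conv
import Pool.Agent.W424.OD.Defs

/-!
Project EW (helper116): the near-critical window of the exploration path.  Definitions.

A pair of configurations `F ⊆ G` of a lattice rectangle, one of them critical, the other one
slightly subcritical or slightly supercritical.  The edges of `G \ F` are the flipped edges.
-/

set_option autoImplicit false

namespace Pool.Agent.N116.EW

open H974 H12S H389NS H984N H984P H342P Finset
open Pool.Agent.W424.OD (AE Cl A3v)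

/-! ## Coupled configurations -/

/-- Weights: a mark `(e, true)` has probability `1/2`, a mark `(e, false)` has probability `η`. -/
noncomputable def cw (η : ℝ) : Edg × Bool → ℝ := fun i => if i.2 then 1 / 2 else η

/-- The marks of the edges of `S`. -/
def CE (S : Finset Edg) : Finset (Edg × Bool) := S ×ˢ Finset.univ

/-- The base configuration (critical): the edges with the mark `true`. -/
def ba (K : Finset (Edg × Bool)) : Finset Edg := (K.filter (fun i => i.2 = true)).image Prod.fst

/-- The edges with the mark `false`. -/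
def fl (K : Finset (Edg × Bool)) : Finset Edg := (K.filter (fun i => i.2 = false)).image Prod.fst

/-- The lower configuration. -/
def lo (b : Bool) (K : Finset (Edg × Bool)) : Finset Edg := if b then ba K else ba K \ fl K

/-- The upper configuration. -/
def up (b : Bool) (K : Finset (Edg × Bool)) : Finset Edg := if b then ba K ∪ fl K else ba K

/-- Probability of an event for the pair (lower configuration, upper configuration).  For
`b = true` the lower one is critical and the upper one has parameter `(1 + η) / 2`; for `b = false`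
the upper one is critical and the lower one has parameter `(1 - η) / 2`. -/
noncomputable def PC (b : Bool) (η : ℝ) (S : Finset Edg) (A : Finset Edg → Finset Edg → Prop) : ℝ :=
  Pr (cw η) (CE S) (fun K => A (lo b K) (up b K))

/-! ## Mixed arm events -/

/-- The cluster of `x` in the box of radius `m` around `c`. -/
def CB (c : ℤ × ℤ) (m : ℕ) (F : Set Edg) (x : Vtx) : Set Vtx := {z | Reach (F ∩ ↑(blk c m)) x z}

/-- The two ends of the edge `e` are `x` and `v`. -/
def En (e : Edg) (x v : Vtx) : Prop := (x = src e ∧ v = tgt e) ∨ (x = tgt e ∧ v = src e)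

/-- Mixed four arms at `e`: one end `x` is joined to the boundary of the box by edges of `F`, the
other one `v` by edges of `G` off the `F`-cluster of `x` in the box; the edge `e` itself is not
used. -/
def XE (e : Edg) (m : ℕ) (F G : Set Edg) : Prop :=
  ∃ x v : Vtx, En e x v ∧ v ∉ CB (src e) m (F \ {e}) x ∧
    (∃ w ∈ bdB (src e) m, w ∈ CB (src e) m (F \ {e}) x) ∧
    ∃ w ∈ bdB (src e) m, Reach ({g | g ∈ G \ {e} ∧ src g ∉ CB (src e) m (F \ {e}) x ∧
      tgt g ∉ CB (src e) m (F \ {e}) x} ∩ ↑(blk (src e) m)) v w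

/-- `XE` if the radius is positive. -/
def XE' (e : Edg) (m : ℕ) (F G : Set Edg) : Prop := 1 ≤ m → XE e m F G

/-- Mixed four arms in an annulus: an `F`-cluster of the annulus crosses it, and a `G`-path off this
cluster crosses it. -/
def XA (c : ℤ × ℤ) (d k : ℕ) (F G : Set Edg) : Prop :=
  ∃ u ∈ bdB c d, (∃ w ∈ bdB c k, w ∈ Cl c d k F u) ∧
    ∃ x ∈ bdB c d, ∃ y ∈ bdB c k,
      x ∉ Cl c d k F u ∧
      Reach ({g | g ∈ G ∧ src g ∉ Cl c d k F u ∧ tgt g ∉ Cl c d k F u} ∩ AE c d k) x y

/-- Mixed four arms at `e`, dual version: the roles are played by the closed edges of `G` and the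
closed edges of `F`, in the lattice of faces. -/
def XD (e : Edg) (m : ℕ) (F G : Set Edg) : Prop := XE (dl e) m (dl '' Gᶜ) (dl '' Fᶜ)

/-- `XD` if the radius is positive. -/
def XD' (e : Edg) (m : ℕ) (F G : Set Edg) : Prop := 1 ≤ m → XD e m F G

/-- Distance of the first end of `e` to `c`. -/
def nrm (c : ℤ × ℤ) (e : Edg) : ℕ := max (e.1 - c.1).natAbs (e.2.1 - c.2).natAbs

/-! ## Long excursions -/

/-- A long excursion of vertices: behind a flipped edge, outside of the cluster of the lower
configuration. -/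
def BadV (D : Dm) (ρ : ℕ) (F G : Finset Edg) : Prop :=
  ∃ e ∈ G, e ∉ D.cfg F ∧ ∃ x v y : Vtx, En e x v ∧ (y = dsrc e ∨ y = dtgt e) ∧
    x ∈ D.clu F ∧ v ∉ D.clu F ∧ y ∈ D.dclu G ∧ ∃ w, (ρ : ℤ) ≤ sd v w ∧
      Reach {g | g ∈ D.cfg G ∧ src g ∉ D.clu F ∧ tgt g ∉ D.clu F} v w

/-- A long excursion of faces: behind a flipped edge, outside of the dual cluster of the upper
configuration. -/
def BadW (D : Dm) (ρ : ℕ) (F G : Finset Edg) : Prop :=
  ∃ e ∈ G, e ∉ D.cfg F ∧ ∃ x y z : Vtx, (x = src e ∨ x = tgt e) ∧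
    ((y = dsrc e ∧ z = dtgt e) ∨ (y = dtgt e ∧ z = dsrc e)) ∧
    x ∈ D.clu F ∧ y ∈ D.dclu G ∧ z ∉ D.dclu G ∧ ∃ w, (ρ : ℤ) ≤ sd z w ∧
      DReach {g | g ∈ D.edges ∧ g ∉ D.cfg F ∧ dsrc g ∉ D.dclu G ∧ dtgt g ∉ D.dclu G} z w

/-! ## Near the boundary -/

/-- Distance of a vertex to the corners of the rectangle and to the ends of the path. -/
def qd (D : Dm) (z : Vtx) : ℤ :=
  min (min (min (sd z (D.l, 0)) (sd z (D.r, 0))) (min (sd z (D.l, D.h)) (sd z (D.r, D.h))))
    (min (sd z (D.t, D.h)) (sd z (0, 0)))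

/-- Vertices of the wired arc. -/
def wv (D : Dm) : Set Vtx := {u | ∃ e ∈ D.wir, u = src e ∨ u = tgt e}

/-- A primal arm (if the wired arc is far away) or a dual arm (if the outer faces are far away)
from the box of radius `d` around `z` to distance `R`, by edges outside of this box. -/
def NX (D : Dm) (z : Vtx) (d R : ℕ) (F : Finset Edg) : Prop :=
  ((∀ u ∈ wv D, (R : ℤ) ≤ sd u z) → ∃ u w : Vtx, sd u z ≤ d ∧ (R : ℤ) ≤ sd w z ∧
    Reach (↑F \ ↑(blk z d)) u w) ∧
  ((∀ f ∈ D.outer, (R : ℤ) ≤ sd f z) → ∃ f g : Vtx, sd f z ≤ d + 1 ∧ (R : ℤ) ≤ sd g z ∧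
    DReach {e | e ∈ D.edges ∧ e ∉ D.cfg F ∧ e ∉ blk z d} f g)

end Pool.Agent.N116.EW
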