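import Pool.Agent.N116.EW.Model

/-!
Project EW (helper116): couplings and weak convergence of random curves.
-/

set_option autoImplicit false

namespace Pool.Agent.N116.EW

open MeasureTheory Filter Topology
open H342L (cdist Curve)

theorem mk_cont : Continuous (fun γ : C(unitInterval, ℂ) => (⟨γ⟩ : Curve)) := by
  apply LipschitzWith.continuous (K := 1)
  apply LipschitzWith.of_dist_le_mul
  intro γ γ'
  rw [NNReal.coe_one, one_mul, H342L.Curve.dist_def]
  refine (H342L.cdist_le γ γ' (OrderIso.refl _)).trans (le_of_eq ?_)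
  congr 1

instance instSep : TopologicalSpace.SeparableSpace Curve := by
  have hs : Function.Surjective (fun γ : C(unitInterval, ℂ) => (⟨γ⟩ : Curve)) :=
    fun γ => ⟨γ.path, rfl⟩
  exact hs.denseRange.separableSpace mk_cont

instance instSC : SecondCountableTopology Curve := UniformSpace.secondCountable_of_separable Curve

section
variable {Ω : Type*} [PseudoMetricSpace Ω] [MeasurableSpace Ω] [BorelSpace Ω]
  [SecondCountableTopology Ω]

theorem meas_far (r : ℝ) : MeasurableSet {q : Ω × Ω | r < dist q.1 q.2} :=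
  measurableSet_lt measurable_const (measurable_fst.dist measurable_snd)

/-- Coupled sequences whose distance tends to zero in probability have the same limits. -/
theorem slutsky {μ ν : ℕ → ProbabilityMeasure Ω} {π : ℕ → Measure (Ω × Ω)}
    (h1 : ∀ i, (π i).map Prod.fst = μ i) (h2 : ∀ i, (π i).map Prod.snd = ν i)
    (h3 : ∀ r : ℝ, 0 < r → Tendsto (fun i => π i {q | r < dist q.1 q.2}) atTop (𝓝 0))
    {μ0 : ProbabilityMeasure Ω} (h : Tendsto μ atTop (𝓝 μ0)) : Tendsto ν atTop (𝓝 μ0) := by
  have hprob : ∀ i, IsProbabilityMeasure (π i) := by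
    intro i
    constructor
    have := congrArg (fun m : Measure Ω => m Set.univ) (h1 i)
    simp only [measure_univ] at this
    rwa [Measure.map_apply measurable_fst MeasurableSet.univ, Set.preimage_univ] at this
  rw [tendsto_iff_forall_lipschitz_integral_tendsto] at h ⊢
  intro f hfb hfl
  have hf := h f hfb hfl
  obtain ⟨C, hC⟩ := hfb
  obtain ⟨L, hL⟩ := hfl
  have hCn : 0 ≤ C ∨ IsEmpty Ω := by
    rcases isEmpty_or_nonempty Ω with he | ⟨⟨x⟩⟩
    · exact Or.inr he
    · exact Or.inl (dist_nonneg.trans (hC x x))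
  have hfm : Measurable f := hL.continuous.measurable
  have hbd : ∃ M : ℝ, ∀ x, |f x| ≤ M := by
    rcases isEmpty_or_nonempty Ω with he | ⟨⟨x0⟩⟩
    · exact ⟨0, fun x => (he.false x).elim⟩
    · refine ⟨|f x0| + C, fun x => ?_⟩
      have := hC x x0
      rw [Real.dist_eq] at this
      have h4 := abs_sub_abs_le_abs_sub (f x) (f x0)
      linarith
  obtain ⟨M, hM⟩ := hbd
  have hint : ∀ (m : Measure (Ω × Ω)) [IsProbabilityMeasure m] (g : Ω × Ω → Ω),
      Measurable g → Integrable (fun q => f (g q)) m := by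
    intro m _ g hg
    refine Integrable.of_bound (hfm.comp hg).aestronglyMeasurable M ?_
    exact Eventually.of_forall fun q => by rw [Real.norm_eq_abs]; exact hM _
  have e1 : ∀ i, ∫ x, f x ∂(μ i : Measure Ω) = ∫ q, f q.1 ∂(π i) := by
    intro i
    rw [← h1 i, integral_map measurable_fst.aemeasurable hfm.aestronglyMeasurable]
  have e2 : ∀ i, ∫ x, f x ∂(ν i : Measure Ω) = ∫ q, f q.2 ∂(π i) := by
    intro i
    rw [← h2 i, integral_map measurable_snd.aemeasurable hfm.aestronglyMeasurable]
  have hdiff : Tendsto (fun i => (∫ q, f q.2 ∂(π i)) - ∫ q, f q.1 ∂(π i)) atTop (𝓝 0) := by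
    rw [Metric.tendsto_atTop]
    intro ε hε
    obtain ⟨r, hr, hLr⟩ : ∃ r : ℝ, 0 < r ∧ (L : ℝ) * r ≤ ε / 3 := by
      refine ⟨ε / 3 / ((L : ℝ) + 1), by positivity, ?_⟩
      rw [mul_div_assoc', div_le_iff₀ (by positivity)]
      have : 0 ≤ (L : ℝ) := L.2
      nlinarith
    have hpos : (0 : ENNReal) < ENNReal.ofReal (ε / (3 * (|C| + 1))) := by
      rw [ENNReal.ofReal_pos]; positivity
    have h5 := (h3 r hr).eventually (gt_mem_nhds hpos)
    obtain ⟨N, hN⟩ := eventually_atTop.1 h5
    refine ⟨N, fun i hi => ?_⟩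
    have h6 := hN i hi
    have hA := meas_far (Ω := Ω) r
    have h7 : (π i).real {q : Ω × Ω | r < dist q.1 q.2} < ε / (3 * (|C| + 1)) := by
      unfold Measure.real
      rw [← ENNReal.toReal_ofReal (show 0 ≤ ε / (3 * (|C| + 1)) by positivity)]
      exact (ENNReal.toReal_lt_toReal (measure_ne_top _ _) ENNReal.ofReal_ne_top).2 h6
    rw [Real.dist_eq, sub_zero, ← integral_sub (hint _ _ measurable_snd) (hint _ _ measurable_fst)]
    have h8 : ∀ q : Ω × Ω, |f q.2 - f q.1| ≤
        L * r + {q : Ω × Ω | r < dist q.1 q.2}.indicator (fun _ => |C|) q := by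
      intro q
      by_cases hq : q ∈ {q : Ω × Ω | r < dist q.1 q.2}
      · rw [Set.indicator_of_mem hq]
        have h9 := hC q.2 q.1
        rw [Real.dist_eq] at h9
        have h10 : 0 ≤ (L : ℝ) * r := by positivity
        have := le_abs_self C
        linarith
      · rw [Set.indicator_of_notMem hq, add_zero]
        have h9 := hL.dist_le_mul q.2 q.1
        rw [Real.dist_eq, dist_comm] at h9
        have h10 : dist q.1 q.2 ≤ r := not_lt.1 hq
        exact h9.trans (mul_le_mul_of_nonneg_left h10 L.2)
    have hi1 : Integrable (fun q : Ω × Ω => |f q.2 - f q.1|) (π i) :=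
      ((hint _ _ measurable_snd).sub (hint _ _ measurable_fst)).abs
    have hi2 : Integrable (fun q : Ω × Ω => L * r +
        {q : Ω × Ω | r < dist q.1 q.2}.indicator (fun _ => |C|) q) (π i) :=
      (integrable_const _).add ((integrable_const _).indicator hA)
    calc |∫ q, (f q.2 - f q.1) ∂(π i)| ≤ ∫ q, |f q.2 - f q.1| ∂(π i) :=
          abs_integral_le_integral_abs
      _ ≤ ∫ q, (L * r + {q : Ω × Ω | r < dist q.1 q.2}.indicator (fun _ => |C|) q) ∂(π i) :=
          integral_mono hi1 hi2 h8
      _ = L * r + (π i).real {q : Ω × Ω | r < dist q.1 q.2} * |C| := by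
          rw [integral_add (integrable_const _) ((integrable_const _).indicator hA),
            integral_indicator_const _ hA]
          simp
      _ < ε := by
          have h11 : (π i).real {q : Ω × Ω | r < dist q.1 q.2} * |C| ≤
              ε / (3 * (|C| + 1)) * |C| := mul_le_mul_of_nonneg_right h7.le (abs_nonneg _)
          have h12 : ε / (3 * (|C| + 1)) * |C| ≤ ε / 3 := by
            rw [div_mul_eq_mul_div, div_le_div_iff₀ (by positivity) (by norm_num)]
            nlinarith [abs_nonneg C]
          linarith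
  have h13 := hf.add hdiff
  rw [add_zero] at h13
  refine h13.congr fun i => ?_
  rw [e1, e2]
  ring

end

end Pool.Agent.N116.EW
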