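import Pool.Agent.N116.EW.PartA
import Pool.Agent.N116.EW.Slut

/-!
Project EW (helper116): the theorem, from the parts.
-/

set_option autoImplicit false

namespace Pool.Agent.N116.EW

open H974 H12S H389NS H984N H984P H342P MeasureTheory Filter Topology
open H342L (cdist Curve)

/-! ### The coupling -/

/-- Weight of a set of marks. -/
noncomputable def wK (η : ℝ) (S : Finset Edg) (K : Finset (Edg × Bool)) : ℝ :=
  (∏ i ∈ K, cw η i) * ∏ i ∈ CE S \ K, (1 - cw η i)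

theorem wK_nonneg {η : ℝ} (h0 : 0 ≤ η) (h1 : η ≤ 1) (S : Finset Edg) (K : Finset (Edg × Bool)) :
    0 ≤ wK η S K := by
  have hok := cw_ok h0 h1
  exact mul_nonneg (Finset.prod_nonneg fun i _ => (hok i).1)
    (Finset.prod_nonneg fun i _ => by linarith [(hok i).2])

/-- The coupled paths: the first one is critical. -/
noncomputable def pr (R : Rect) (δ : ℝ) (b : Bool) (K : Finset (Edg × Bool)) : Curve × Curve :=
  (⟨R.curve δ (if b then lo b K else up b K)⟩, ⟨R.curve δ (if b then up b K else lo b K)⟩)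

noncomputable def cpl (R : Rect) (δ η : ℝ) (b : Bool) : Measure (Curve × Curve) :=
  ∑ K ∈ (CE (R.dm δ).edges).powerset,
    ENNReal.ofReal (wK η (R.dm δ).edges K) • Measure.dirac (pr R δ b K)

theorem cpl_apply (R : Rect) (δ : ℝ) {η : ℝ} (h0 : 0 ≤ η) (h1 : η ≤ 1) (b : Bool)
    {A : Set (Curve × Curve)} (hA : MeasurableSet A) :
    cpl R δ η b A =
      ENNReal.ofReal (Pr (cw η) (CE (R.dm δ).edges) (fun K => pr R δ b K ∈ A)) := by
  classical
  have e0 : Pr (cw η) (CE (R.dm δ).edges) (fun K => pr R δ b K ∈ A) =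
      ∑ K ∈ (CE (R.dm δ).edges).powerset, wK η (R.dm δ).edges K * ind (pr R δ b K ∈ A) := rfl
  rw [e0, ENNReal.ofReal_sum_of_nonneg
    (fun K _ => mul_nonneg (wK_nonneg h0 h1 _ K) (ind_nonneg _))]
  unfold cpl
  rw [Measure.finsetSum_apply]
  apply Finset.sum_congr rfl
  intro K _
  rw [Measure.smul_apply, Measure.dirac_apply' _ hA, smul_eq_mul,
    ENNReal.ofReal_mul (wK_nonneg h0 h1 _ K)]
  congr 1
  by_cases h : pr R δ b K ∈ A
  · rw [ind_of h, Set.indicator_of_mem h]; simp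
  · rw [ind_not_of h, Set.indicator_of_notMem h]; simp

/-- The other parameter. -/
noncomputable def op (b : Bool) (η : ℝ) : ℝ := if b then (1 + η) / 2 else (1 - η) / 2

theorem cpl_fst (R : Rect) (δ : ℝ) {η : ℝ} (h0 : 0 ≤ η) (h1 : η ≤ 1) (b : Bool) :
    (cpl R δ η b).map Prod.fst = lawM R δ pc := by
  ext G hG
  rw [Measure.map_apply measurable_fst hG, cpl_apply R δ h0 h1 b (measurable_fst hG),
    lawM_apply R δ pc hG]
  congr 1
  cases b
  · have h := PC_up false η (R.dm δ).edges (fun F => (⟨R.curve δ F⟩ : Curve) ∈ G)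
    simp only [Bool.false_eq_true, if_false] at h
    exact h
  · have h := PC_lo true η (R.dm δ).edges (fun F => (⟨R.curve δ F⟩ : Curve) ∈ G)
    simp only [if_true] at h
    exact h

theorem cpl_snd (R : Rect) (δ : ℝ) {η : ℝ} (h0 : 0 ≤ η) (h1 : η ≤ 1) (b : Bool)
    {p : unitInterval} (hp : (p : ℝ) = op b η) :
    (cpl R δ η b).map Prod.snd = lawM R δ p := by
  ext G hG
  rw [Measure.map_apply measurable_snd hG, cpl_apply R δ h0 h1 b (measurable_snd hG),
    lawM_apply R δ p hG, hp]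
  congr 1
  cases b
  · have h := PC_lo false η (R.dm δ).edges (fun F => (⟨R.curve δ F⟩ : Curve) ∈ G)
    simp only [Bool.false_eq_true, if_false] at h
    exact h
  · have h := PC_up true η (R.dm δ).edges (fun F => (⟨R.curve δ F⟩ : Curve) ∈ G)
    simp only [if_true] at h
    exact h

theorem cpl_far (R : Rect) (δ : ℝ) {η : ℝ} (h0 : 0 ≤ η) (h1 : η ≤ 1) (b : Bool) (r : ℝ) :
    cpl R δ η b {q | r < dist q.1 q.2} = ENNReal.ofReal (PC b η (R.dm δ).edges
      (fun F G => r < cdist (R.curve δ F) (R.curve δ G))) := by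
  rw [cpl_apply R δ h0 h1 b (meas_far r)]
  have h2 : ∀ γ γ' : Curve, dist γ γ' = cdist γ.path γ'.path := fun _ _ => rfl
  have h3 : Pr (cw η) (CE (R.dm δ).edges) (fun K => pr R δ b K ∈ {q | r < dist q.1 q.2}) =
      Pr (cw η) (CE (R.dm δ).edges) (fun K => r < cdist (R.curve δ (lo b K))
        (R.curve δ (up b K))) := by
    apply Pr_congr
    intro K _
    cases b
    · simp only [pr, Set.mem_ofPred_eq, h2, Bool.false_eq_true, if_false]
      rw [H342L.cdist_comm]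
    · simp only [pr, Set.mem_ofPred_eq, h2, if_true]
  rw [h3]
  unfold PC
  rfl

theorem par (p : unitInterval) : ∃ (b : Bool) (η : ℝ), 0 ≤ η ∧ η ≤ 1 ∧ (p : ℝ) = op b η ∧
    η = 2 * |(p : ℝ) - 1 / 2| := by
  have h0 := p.2.1
  have h1 := p.2.2
  rcases le_total (1 / 2) (p : ℝ) with h | h
  · refine ⟨true, 2 * (p : ℝ) - 1, by linarith, by linarith, ?_, ?_⟩
    · simp only [op, if_true]; ring
    · rw [abs_of_nonneg (by linarith)]; ring
  · refine ⟨false, 1 - 2 * (p : ℝ), by linarith, by linarith, ?_, ?_⟩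
    · simp only [op, Bool.false_eq_true, if_false]; ring
    · rw [abs_of_nonpos (by linarith)]; ring

/-- **Part 1**: the monotone coupling. -/
theorem part1 (hSUM : S_SUM) (hPL : S_PL) (R : Rect) : ∃ C δ0 : ℝ, 0 < C ∧ 0 < δ0 ∧
    ∀ δ : ℝ, 0 < δ → δ ≤ δ0 → ∀ p : unitInterval, ∃ π : Measure (Curve × Curve),
      π.map Prod.fst = law R δ pc ∧ π.map Prod.snd = law R δ p ∧ ∀ r : ℝ, 0 < r →
        π {q | r < dist q.1 q.2} ≤
          ENNReal.ofReal (C * (|(p : ℝ) - 1 / 2| * δ ^ (-(3 / 4) : ℝ)) * r ^ (-(5 / 4) : ℝ)) := by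
  obtain ⟨C, δ0, hC, hδ0, h⟩ := partA hSUM hPL R
  refine ⟨2 * C, δ0, by positivity, hδ0, ?_⟩
  intro δ hδ hle p
  obtain ⟨b, η, hη0, hη1, hp, hη⟩ := par p
  refine ⟨cpl R δ η b, cpl_fst R δ hη0 hη1 b, cpl_snd R δ hη0 hη1 b hp, fun r hr => ?_⟩
  rw [cpl_far R δ hη0 hη1 b r]
  apply ENNReal.ofReal_le_ofReal
  refine (h δ η r hδ hle hη0 hη1 hr b).trans (le_of_eq ?_)
  rw [hη]
  ring

/-! ### Away from the window -/

theorem part2_aux (hSUP : S_SUP) (hPL : S_PL) (hARC : S_ARC) (R : Rect) (r : ℝ) (hr : 0 < r) :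
    ∃ C c δ0 : ℝ, 0 < C ∧ 0 < c ∧ 0 < δ0 ∧ ∀ δ : ℝ, 0 < δ → δ ≤ δ0 → ∀ p : ℝ, 1 / 2 ≤ p →
      p ≤ 1 →
      Pr (fun _ => p) (R.dm δ).edges (fun F => r < cdist (R.curve δ F) (arcR R)) ≤
        C * Real.exp (-(c * ((p - 1 / 2) ^ (4 / 3 : ℝ) / δ))) ∧
      Pr (fun _ => 1 - p) (R.dm δ).edges (fun F => r < cdist (R.curve δ F) (arcL R)) ≤
        C * Real.exp (-(c * ((p - 1 / 2) ^ (4 / 3 : ℝ) / δ))) := by
  obtain ⟨κ, S, δ0, hκ, hS, hδ0, hδ01, hshape⟩ := R.shape
  obtain ⟨Ca, δa, hCa, hδa, harc⟩ := hARC R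
  obtain ⟨C, c, n0, hC, hc, hsup⟩ := hSUP κ (r / (16 * S)) hκ (by positivity)
  obtain ⟨δ1, hδ1⟩ : ∃ δ1, δ1 = min (min δ0 δa) (min (min S (S / (|n0| + 1)))
    (min (r / (2 * Ca)) (r / 52))) := ⟨_, rfl⟩
  refine ⟨C, c * S, δ1, hC, by positivity, ?_, ?_⟩
  · rw [hδ1]
    refine lt_min (lt_min hδ0 hδa) (lt_min (lt_min hS (by positivity))
      (lt_min (by positivity) (by positivity)))
  intro δ hδ hle p hp hp1
  rw [hδ1] at hle
  have q1 : δ ≤ δ0 := hle.trans ((min_le_left _ _).trans (min_le_left _ _))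
  have q2 : δ ≤ δa := hle.trans ((min_le_left _ _).trans (min_le_right _ _))
  have q3 : δ ≤ S := hle.trans ((min_le_right _ _).trans ((min_le_left _ _).trans (min_le_left _ _)))
  have q4 : δ ≤ S / (|n0| + 1) :=
    hle.trans ((min_le_right _ _).trans ((min_le_left _ _).trans (min_le_right _ _)))
  have q5 : δ ≤ r / (2 * Ca) :=
    hle.trans ((min_le_right _ _).trans ((min_le_right _ _).trans (min_le_left _ _)))
  have q6 : δ ≤ r / 52 :=
    hle.trans ((min_le_right _ _).trans ((min_le_right _ _).trans (min_le_right _ _)))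
  have hsh := hshape δ hδ q1
  have hn : 1 ≤ S / δ := by rw [le_div_iff₀ hδ]; linarith
  have hn0 : n0 ≤ S / δ := by
    rw [le_div_iff₀ (by positivity)] at q4
    rw [le_div_iff₀ hδ]
    have := le_abs_self n0
    nlinarith
  have hCr : Ca * δ ≤ r / 2 := by
    rw [le_div_iff₀ (by positivity)] at q5
    linarith
  obtain ⟨ρ, hρ⟩ : ∃ ρ : ℕ, ρ = ⌊(r / 2 / δ - 9) / 4⌋₊ := ⟨_, rfl⟩
  have hrd : 26 ≤ r / 2 / δ := by rw [le_div_iff₀ hδ]; linarith
  have hfl : ((ρ : ℕ) : ℝ) ≤ (r / 2 / δ - 9) / 4 := by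
    rw [hρ]; exact Nat.floor_le (by linarith)
  have hfl' : (r / 2 / δ - 9) / 4 < (ρ : ℝ) + 1 := by
    rw [hρ]; exact Nat.lt_floor_add_one _
  have hρr : r / 2 / δ / 8 ≤ (ρ : ℝ) := by linarith
  have hρ1 : 1 ≤ ρ := by
    have : (0 : ℝ) < (ρ : ℝ) := by linarith
    exact_mod_cast this
  have hcl : δ * (4 * (ρ : ℝ) + 9) ≤ r / 2 := by
    have : 4 * (ρ : ℝ) + 9 ≤ r / 2 / δ := by linarith
    calc δ * (4 * (ρ : ℝ) + 9) ≤ δ * (r / 2 / δ) := mul_le_mul_of_nonneg_left this hδ.le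
      _ = r / 2 := by field_simp
  have hρn : r / (16 * S) * (S / δ) ≤ ρ := by
    refine le_trans (le_of_eq ?_) hρr
    field_simp
    norm_num
  obtain ⟨s1, s2⟩ := hsup (S / δ) (R.dm δ) hn0 hn hsh p hp hp1 ρ hρn
  have hok : Ok (fun _ : Edg => p) := fun _ => ⟨by linarith, hp1⟩
  have hok' : Ok (fun _ : Edg => 1 - p) := fun _ => ⟨by linarith, by linarith⟩
  have hexp : c * (S / δ * (p - 1 / 2) ^ (4 / 3 : ℝ)) = c * S * ((p - 1 / 2) ^ (4 / 3 : ℝ) / δ) := by
    ring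
  rw [hexp] at s1 s2
  obtain ⟨a1, a2⟩ := harc δ hδ q2
  constructor
  · refine le_trans (Pr_mono hok ?_) s1
    intro F hF hlt
    by_contra hcon
    push Not at hcon
    have h1 := close hPL R hδ hsh.ok hF (Finset.Subset.refl _) hρ1 hcon.1 hcon.2
    have h2 := H342L.cdist_triangle (R.curve δ F) (R.curve δ (R.dm δ).edges) (arcR R)
    linarith
  · refine le_trans (Pr_mono hok' ?_) s2
    intro F hF hlt
    by_contra hcon
    push Not at hcon
    have h1 := close hPL R hδ hsh.ok (Finset.empty_subset F) hF hρ1 hcon.1 hcon.2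
    have h2 := H342L.cdist_triangle (R.curve δ F) (R.curve δ ∅) (arcL R)
    rw [H342L.cdist_comm] at h1
    linarith

theorem meas_ball (γ : Curve) (r : ℝ) : MeasurableSet {x : Curve | r < dist x γ} :=
  measurableSet_lt measurable_const (measurable_id.dist measurable_const)

/-- **Part 2**: beyond the window the path follows a boundary arc. -/
theorem part2 (hSUP : S_SUP) (hPL : S_PL) (hARC : S_ARC) (R : Rect) (r : ℝ) (hr : 0 < r) :
    ∃ C c δ0 : ℝ, 0 < C ∧ 0 < c ∧ 0 < δ0 ∧ ∀ δ : ℝ, 0 < δ → δ ≤ δ0 → ∀ p : unitInterval,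
      ((1 / 2 : ℝ) ≤ p → (law R δ p : Measure Curve) {γ | r < dist γ ⟨arcR R⟩} ≤
        ENNReal.ofReal (C * Real.exp (-(c * (|(p : ℝ) - 1 / 2| ^ (4 / 3 : ℝ) / δ))))) ∧
      ((p : ℝ) ≤ 1 / 2 → (law R δ p : Measure Curve) {γ | r < dist γ ⟨arcL R⟩} ≤
        ENNReal.ofReal (C * Real.exp (-(c * (|(p : ℝ) - 1 / 2| ^ (4 / 3 : ℝ) / δ))))) := by
  obtain ⟨C, c, δ0, hC, hc, hδ0, h⟩ := part2_aux hSUP hPL hARC R r hr
  refine ⟨C, c, δ0, hC, hc, hδ0, fun δ hδ hle p => ⟨fun hp => ?_, fun hp => ?_⟩⟩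
  · show lawM R δ p _ ≤ _
    rw [lawM_apply R δ p (meas_ball _ r)]
    apply ENNReal.ofReal_le_ofReal
    rw [abs_of_nonneg (by linarith)]
    exact (h δ hδ hle p hp p.2.2).1
  · show lawM R δ p _ ≤ _
    rw [lawM_apply R δ p (meas_ball _ r)]
    apply ENNReal.ofReal_le_ofReal
    have h1 := (h δ hδ hle (1 - (p : ℝ)) (by linarith) (by linarith [p.2.1])).2
    rw [sub_sub_cancel] at h1
    rw [abs_of_nonpos (by linarith)]
    refine h1.trans (le_of_eq ?_)
    have : 1 - (p : ℝ) - 1 / 2 = -((p : ℝ) - 1 / 2) := by ring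
    rw [this]

/-! ### Limits -/

/-- **Part 3**: in the window the limits are the critical ones. -/
theorem part3 (hSUM : S_SUM) (hPL : S_PL) (R : Rect) (δ : ℕ → ℝ) (p : ℕ → unitInterval)
    (hδ : ∀ i, 0 < δ i) (hδ0 : Tendsto δ atTop (𝓝 0))
    (hp : Tendsto (fun i => |(p i : ℝ) - 1 / 2| * (δ i) ^ (-(3 / 4) : ℝ)) atTop (𝓝 0))
    (μ : ProbabilityMeasure Curve) :
    Tendsto (fun i => law R (δ i) pc) atTop (𝓝 μ) ↔
      Tendsto (fun i => law R (δ i) (p i)) atTop (𝓝 μ) := by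
  obtain ⟨C, δ0, hC, hδ0', h⟩ := part1 hSUM hPL R
  obtain ⟨N, hN⟩ := eventually_atTop.1 (hδ0.eventually (ge_mem_nhds hδ0'))
  have hex : ∀ i, ∃ π : Measure (Curve × Curve), π.map Prod.fst = law R (δ (i + N)) pc ∧
      π.map Prod.snd = law R (δ (i + N)) (p (i + N)) ∧ ∀ r : ℝ, 0 < r →
        π {q | r < dist q.1 q.2} ≤ ENNReal.ofReal (C * (|(p (i + N) : ℝ) - 1 / 2| *
          (δ (i + N)) ^ (-(3 / 4) : ℝ)) * r ^ (-(5 / 4) : ℝ)) := fun i =>
    h (δ (i + N)) (hδ _) (hN _ (by omega)) (p (i + N))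
  choose π h1 h2 h3 using hex
  have h4 : ∀ r : ℝ, 0 < r → Tendsto (fun i => π i {q | r < dist q.1 q.2}) atTop (𝓝 0) := by
    intro r hr
    have h5 : Tendsto (fun i => ENNReal.ofReal (C * (|(p (i + N) : ℝ) - 1 / 2| *
          (δ (i + N)) ^ (-(3 / 4) : ℝ)) * r ^ (-(5 / 4) : ℝ))) atTop (𝓝 0) := by
      rw [← ENNReal.ofReal_zero]
      apply (ENNReal.continuous_ofReal.tendsto 0).comp
      have h6 := (((tendsto_add_atTop_iff_nat N).2 hp).const_mul C).mul_const (r ^ (-(5 / 4) : ℝ))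
      simpa using h6
    exact tendsto_of_tendsto_of_tendsto_of_le_of_le tendsto_const_nhds h5
      (fun i => zero_le) (fun i => h3 i r hr)
  have hsw : ∀ i, ((π i).map Prod.swap).map Prod.fst = law R (δ (i + N)) (p (i + N)) ∧
      ((π i).map Prod.swap).map Prod.snd = law R (δ (i + N)) pc := by
    intro i
    rw [Measure.map_map measurable_fst measurable_swap, Measure.map_map measurable_snd
      measurable_swap]
    exact ⟨h2 i, h1 i⟩
  have hsw2 : ∀ r : ℝ, 0 < r →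
      Tendsto (fun i => (π i).map Prod.swap {q | r < dist q.1 q.2}) atTop (𝓝 0) := by
    intro r hr
    refine (h4 r hr).congr fun i => ?_
    rw [Measure.map_apply measurable_swap (meas_far r)]
    congr 1
    ext q
    simp only [Set.mem_ofPred_eq, Set.mem_preimage, Prod.fst_swap, Prod.snd_swap]
    rw [dist_comm]
  constructor
  · intro ht
    rw [← tendsto_add_atTop_iff_nat N] at ht ⊢
    exact slutsky h1 h2 h4 ht
  · intro ht
    rw [← tendsto_add_atTop_iff_nat N] at ht ⊢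
    exact slutsky (fun i => (hsw i).1) (fun i => (hsw i).2) hsw2 ht

theorem to_dirac {ν : ℕ → ProbabilityMeasure Curve} {γ : Curve}
    (h : ∀ r : ℝ, 0 < r → Tendsto (fun i => (ν i : Measure Curve) {x | r < dist x γ}) atTop (𝓝 0)) :
    Tendsto ν atTop (𝓝 (⟨Measure.dirac γ, Measure.dirac.isProbabilityMeasure⟩ :
      ProbabilityMeasure Curve)) := by
  have hm : Measurable (fun x : Curve => (γ, x)) := measurable_const.prodMk measurable_id
  refine slutsky (μ := fun _ => ⟨Measure.dirac γ, Measure.dirac.isProbabilityMeasure⟩)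
    (π := fun i => (ν i : Measure Curve).map (fun x => (γ, x))) ?_ ?_ ?_ tendsto_const_nhds
  · intro i
    rw [Measure.map_map measurable_fst hm]
    have : (Prod.fst ∘ fun x : Curve => (γ, x)) = fun _ => γ := rfl
    rw [this, Measure.map_const, measure_univ, one_smul]
    rfl
  · intro i
    rw [Measure.map_map measurable_snd hm]
    have : (Prod.snd ∘ fun x : Curve => (γ, x)) = id := rfl
    rw [this, Measure.map_id]
  · intro r hr
    refine (h r hr).congr fun i => ?_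
    rw [Measure.map_apply hm (meas_far r)]
    congr 1
    ext x
    simp only [Set.mem_ofPred_eq, Set.mem_preimage]
    rw [dist_comm]

/-- **Part 4**: beyond the window the limits are the boundary arcs. -/
theorem part4 (hSUP : S_SUP) (hPL : S_PL) (hARC : S_ARC) (R : Rect) (δ : ℕ → ℝ)
    (p : ℕ → unitInterval) (hδ : ∀ i, 0 < δ i) (hδ0 : Tendsto δ atTop (𝓝 0)) :
    (Tendsto (fun i => ((p i : ℝ) - 1 / 2) * (δ i) ^ (-(3 / 4) : ℝ)) atTop atTop →
      Tendsto (fun i => law R (δ i) (p i)) atTop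
        (𝓝 (⟨Measure.dirac ⟨arcR R⟩, Measure.dirac.isProbabilityMeasure⟩ :
          ProbabilityMeasure Curve))) ∧
    (Tendsto (fun i => ((p i : ℝ) - 1 / 2) * (δ i) ^ (-(3 / 4) : ℝ)) atTop atBot →
      Tendsto (fun i => law R (δ i) (p i)) atTop
        (𝓝 (⟨Measure.dirac ⟨arcL R⟩, Measure.dirac.isProbabilityMeasure⟩ :
          ProbabilityMeasure Curve))) := by
  have key : ∀ r : ℝ, 0 < r → ∀ (C c : ℝ), 0 < c →
      Tendsto (fun i => |((p i : ℝ) - 1 / 2) * (δ i) ^ (-(3 / 4) : ℝ)|) atTop atTop →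
      Tendsto (fun i => ENNReal.ofReal (C * Real.exp (-(c * (|(p i : ℝ) - 1 / 2| ^ (4 / 3 : ℝ) /
        δ i))))) atTop (𝓝 0) := by
    intro r _ C c hc ht
    rw [← ENNReal.ofReal_zero]
    apply (ENNReal.continuous_ofReal.tendsto 0).comp
    rw [← mul_zero C]
    apply Tendsto.const_mul
    apply Real.tendsto_exp_atBot.comp
    apply tendsto_neg_atTop_atBot.comp
    apply Tendsto.const_mul_atTop hc
    have h1 : ∀ i, |(p i : ℝ) - 1 / 2| ^ (4 / 3 : ℝ) / δ i =
        |((p i : ℝ) - 1 / 2) * (δ i) ^ (-(3 / 4) : ℝ)| ^ (4 / 3 : ℝ) := by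
      intro i
      have hd := hδ i
      rw [abs_mul, abs_of_pos (Real.rpow_pos_of_pos hd _),
        Real.mul_rpow (abs_nonneg _) (Real.rpow_nonneg hd.le _), ← Real.rpow_mul hd.le]
      norm_num
      rw [Real.rpow_neg_one, div_eq_mul_inv]
    simp only [h1]
    exact (tendsto_rpow_atTop (by norm_num)).comp ht
  constructor
  · intro ht
    apply to_dirac
    intro r hr
    obtain ⟨C, c, δ0, hC, hc, hδ0', h⟩ := part2 hSUP hPL hARC R r hr
    have h1 := key r hr C c hc (tendsto_abs_atTop_atTop.comp ht)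
    apply tendsto_of_tendsto_of_tendsto_of_le_of_le' tendsto_const_nhds h1
      (Eventually.of_forall fun i => zero_le)
    filter_upwards [hδ0.eventually (ge_mem_nhds hδ0'), ht.eventually_ge_atTop 0] with i hi hi2
    refine (h (δ i) (hδ i) hi (p i)).1 ?_
    have h3 : 0 < (δ i) ^ (-(3 / 4) : ℝ) := Real.rpow_pos_of_pos (hδ i) _
    have := nonneg_of_mul_nonneg_left hi2 h3
    linarith
  · intro ht
    apply to_dirac
    intro r hr
    obtain ⟨C, c, δ0, hC, hc, hδ0', h⟩ := part2 hSUP hPL hARC R r hr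
    have h1 := key r hr C c hc (tendsto_abs_atBot_atTop.comp ht)
    apply tendsto_of_tendsto_of_tendsto_of_le_of_le' tendsto_const_nhds h1
      (Eventually.of_forall fun i => zero_le)
    filter_upwards [hδ0.eventually (ge_mem_nhds hδ0'), ht.eventually_le_atBot 0] with i hi hi2
    refine (h (δ i) (hδ i) hi (p i)).2 ?_
    have h3 : 0 < (δ i) ^ (-(3 / 4) : ℝ) := Real.rpow_pos_of_pos (hδ i) _
    have h4 : (p i : ℝ) - 1 / 2 ≤ 0 := by
      by_contra hcon
      push Not at hcon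
      have := mul_pos hcon h3
      linarith
    linarith

end Pool.Agent.N116.EW
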