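import Pool.Agent.N116.EW.Hit
import Pool.Agent.N116.EW.Fin
import Pool.Agent.H984R4.NP.PL
import Pool.Agent.N839.EW.PL

/-!
Project EW (helper116): the laws at distance of the order of the window have no common limits.
-/

set_option autoImplicit false

namespace Pool.Agent.N116.EW

open H974 H12S H389NS H984N H984P H342P MeasureTheory Filter Topology
open H342L (cdist Curve)

/-! ### The rightmost point of a curve -/

/-- The maximal real part. -/
noncomputable def fre (γ : Curve) : ℝ := ⨆ t : unitInterval, (γ.path t).re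

theorem fre_bdd (γ : Curve) : BddAbove (Set.range fun t : unitInterval => (γ.path t).re) :=
  (isCompact_range (Complex.continuous_re.comp γ.path.continuous)).bddAbove

theorem le_fre (γ : Curve) (t : unitInterval) : (γ.path t).re ≤ fre γ := le_ciSup (fre_bdd γ) t

theorem fre_le {γ : Curve} {x : ℝ} (h : ∀ t, (γ.path t).re ≤ x) : fre γ ≤ x := ciSup_le h

theorem fre_lip (γ γ' : Curve) : fre γ - fre γ' ≤ dist γ γ' := by
  rw [H342L.Curve.dist_def, H342L.cdist_eq]
  apply le_ciInf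
  intro φ
  have : fre γ ≤ fre γ' + dist γ.path (H342L.rep γ'.path φ) := by
    apply fre_le
    intro t
    have h1 := ContinuousMap.dist_apply_le_dist (f := γ.path) (g := H342L.rep γ'.path φ) t
    rw [H342L.rep_apply] at h1
    have h2 := le_fre γ' (φ t)
    have h3 : (γ.path t).re - (γ'.path (φ t)).re ≤ dist (γ.path t) (γ'.path (φ t)) := by
      rw [Complex.dist_eq, ← Complex.sub_re]
      exact (le_abs_self _).trans (Complex.abs_re_le_norm _)
    linarith
  linarith

theorem fre_cont : Continuous fre := by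
  apply LipschitzWith.continuous (K := 1)
  apply LipschitzWith.of_dist_le_mul
  intro γ γ'
  rw [NNReal.coe_one, one_mul, Real.dist_eq, abs_le]
  have h1 := fre_lip γ γ'
  have h2 := fre_lip γ' γ
  rw [dist_comm] at h2
  constructor <;> linarith

/-! ### The discrete path -/

theorem pos_re_le (δ : ℝ) (hδ : 0 < δ) (σ : St) : (pos δ σ).re ≤ δ * (σ.1.1 + 1 / 4) := by
  obtain ⟨⟨x, y⟩, q⟩ := σ
  cases q <;> simp only [pos] <;> nlinarith

theorem le_pos_re (δ : ℝ) (hδ : 0 < δ) (σ : St) : δ * (σ.1.1 - 1 / 4) ≤ (pos δ σ).re := by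
  obtain ⟨⟨x, y⟩, q⟩ := σ
  cases q <;> simp only [pos] <;> nlinarith

/-- The curve is right of the column `m` if the path reaches it. -/
theorem curve_reach (R : Rect) {δ : ℝ} (hδ : 0 < δ) (hD : (R.dm δ).Ok) {F : Finset Edg}
    (hF : F ⊆ (R.dm δ).edges) {m : ℤ} (h : ∃ k ≤ (R.dm δ).len F, m ≤ ((R.dm δ).walk F k).1.1) :
    δ * (m - 1 / 4) ≤ fre ⟨R.curve δ F⟩ := by
  obtain ⟨k, hk, hkm⟩ := h
  have hN := len_pos hD hF
  have hNr : (0 : ℝ) < (R.dm δ).len F := Nat.cast_pos.2 hN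
  have hkr : (k : ℝ) ≤ (R.dm δ).len F := by exact_mod_cast hk
  have hs : (k : ℝ) / (R.dm δ).len F ∈ unitInterval :=
    ⟨by positivity, by rw [div_le_one hNr]; exact hkr⟩
  have hsN : ((⟨(k : ℝ) / (R.dm δ).len F, hs⟩ : unitInterval) : ℝ) * (R.dm δ).len F = k := by
    show (k : ℝ) / (R.dm δ).len F * (R.dm δ).len F = k
    field_simp
  have hv : R.curve δ F ⟨(k : ℝ) / (R.dm δ).len F, hs⟩ = pos δ ((R.dm δ).walk F k) := by
    unfold Rect.curve
    rcases Nat.lt_or_ge k ((R.dm δ).len F) with h1 | h1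
    · rw [pl_seg h1 (by rw [hsN]) (by rw [hsN]; linarith), hsN]
      simp
    · have h2 : k = (R.dm δ).len F := le_antisymm hk h1
      have h3 : (⟨(k : ℝ) / (R.dm δ).len F, hs⟩ : unitInterval) = 1 := by
        apply Subtype.ext
        show (k : ℝ) / (R.dm δ).len F = 1
        rw [h2]
        field_simp
      rw [h3, pl_one, h2]
  have h1 := le_fre ⟨R.curve δ F⟩ ⟨(k : ℝ) / (R.dm δ).len F, hs⟩
  have h2 := le_pos_re δ hδ ((R.dm δ).walk F k)
  have h3 : (m : ℝ) ≤ ((R.dm δ).walk F k).1.1 := by exact_mod_cast hkm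
  have h4 : ((⟨R.curve δ F⟩ : Curve).path ⟨(k : ℝ) / (R.dm δ).len F, hs⟩) =
      pos δ ((R.dm δ).walk F k) := hv
  rw [h4] at h1
  have h5 : δ * ((m : ℝ) - 1 / 4) ≤ δ * ((((R.dm δ).walk F k).1.1 : ℝ) - 1 / 4) :=
    mul_le_mul_of_nonneg_left (by linarith) hδ.le
  linarith

/-- The curve is left of the column `m` if the path does not reach it. -/
theorem curve_not_reach (R : Rect) {δ : ℝ} (hδ : 0 < δ) (hD : (R.dm δ).Ok) {F : Finset Edg}
    (hF : F ⊆ (R.dm δ).edges) {m : ℤ}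
    (h : ¬ ∃ k ≤ (R.dm δ).len F, m ≤ ((R.dm δ).walk F k).1.1) :
    fre ⟨R.curve δ F⟩ ≤ δ * (m - 3 / 4) := by
  push Not at h
  have hN := len_pos hD hF
  have hp : ∀ k ≤ (R.dm δ).len F, (pos δ ((R.dm δ).walk F k)).re ≤ δ * (m - 3 / 4) := by
    intro k hk
    refine (pos_re_le δ hδ _).trans ?_
    apply mul_le_mul_of_nonneg_left _ hδ.le
    have h1 : (((R.dm δ).walk F k).1.1 : ℝ) + 1 ≤ m := by exact_mod_cast h k hk
    linarith
  apply fre_le
  intro t
  obtain ⟨k, hk, hk1, hk2⟩ := pl_exists_seg hN t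
  show (R.curve δ F t).re ≤ _
  unfold Rect.curve
  rw [pl_seg hk hk1 hk2]
  have h1 := hp k hk.le
  have h2 := hp (k + 1) hk
  rw [Complex.add_re, Complex.re_ofReal_mul, Complex.sub_re]
  have h3 : 0 ≤ (t : ℝ) * (R.dm δ).len F - k := by linarith
  have h4 : (t : ℝ) * (R.dm δ).len F - k ≤ 1 := by linarith
  nlinarith

/-! ### No common limits -/

theorem shape_mono {D : Dm} {κ κ' n : ℝ} (hn : 0 ≤ n) (h : κ' ≤ κ) (hs : D.Shape κ n) :
    D.Shape κ' n := by
  have h1 : κ' * n ≤ κ * n := mul_le_mul_of_nonneg_right h hn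
  exact ⟨hs.ok, h1.trans hs.l_ge, h1.trans hs.r_ge, h1.trans hs.h_ge, hs.w_le, hs.h_le⟩

/-- The probabilities of being right of a vertical line differ by a constant. -/
theorem gap (hSEP : S_SEP) (R : Rect) {lam : ℝ} (h0 : 0 < lam) : ∃ xs c : ℝ, xs < R.B ∧ 0 < c ∧
    ∀ x1 x2 : ℝ, xs ≤ x1 → x1 < x2 → x2 < R.B → ∃ δ0 : ℝ, 0 < δ0 ∧ ∀ δ : ℝ, 0 < δ → δ ≤ δ0 →
      ∀ p : unitInterval, lam ≤ |(p : ℝ) - 1 / 2| * δ ^ (-(3 / 4) : ℝ) →
      (law R δ pc : Measure Curve).real {γ | x2 < fre γ} + c ≤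
        (law R δ p : Measure Curve).real {γ | x1 ≤ fre γ} ∨
      (law R δ p : Measure Curve).real {γ | x2 < fre γ} + c ≤
        (law R δ pc : Measure Curve).real {γ | x1 ≤ fre γ} := by
  obtain ⟨κ, S, δ0, hκ, hS, hδ0, hδ01, hshape⟩ := R.shape
  obtain ⟨T, hT⟩ : ∃ T, T = max R.t 0 := ⟨_, rfl⟩
  have hTt : R.t ≤ T := by rw [hT]; exact le_max_left _ _
  have hT0 : 0 ≤ T := by rw [hT]; exact le_max_right _ _
  have hTB : T < R.B := by rw [hT]; exact max_lt R.ht2 R.hB
  obtain ⟨κ', hκ'⟩ : ∃ κ', κ' = min κ ((R.B - T) / (2 * S)) := ⟨_, rfl⟩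
  have hκ'0 : 0 < κ' := by
    rw [hκ']
    exact lt_min hκ (div_pos (by linarith) (by positivity))
  obtain ⟨c, hc, hsep⟩ := hSEP κ' hκ'0
  obtain ⟨c0, hc0⟩ : ∃ c0, c0 = c * min 1 (S ^ (3 / 4 : ℝ) * lam) := ⟨_, rfl⟩
  have hc00 : 0 < c0 := by
    rw [hc0]
    exact mul_pos hc (lt_min one_pos (by positivity))
  refine ⟨(T + R.B) / 2, c0, by linarith, hc00, ?_⟩
  intro x1 x2 hx1 hx12 hx2
  refine ⟨min (min δ0 S) (min ((x2 - x1) / 4) (R.B - x2)),
    lt_min (lt_min hδ0 hS) (lt_min (by linarith) (by linarith)), ?_⟩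
  intro δ hδ hle p hp
  have d1 : δ ≤ δ0 := hle.trans ((min_le_left _ _).trans (min_le_left _ _))
  have d2 : δ ≤ S := hle.trans ((min_le_left _ _).trans (min_le_right _ _))
  have d3 : δ ≤ (x2 - x1) / 4 := hle.trans ((min_le_right _ _).trans (min_le_left _ _))
  have d4 : δ ≤ R.B - x2 := hle.trans ((min_le_right _ _).trans (min_le_right _ _))
  obtain ⟨n, hn⟩ : ∃ n, n = S / δ := ⟨_, rfl⟩
  have hn1 : 1 ≤ n := by rw [hn, le_div_iff₀ hδ]; linarith
  have hn0 : 0 ≤ n := by linarith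
  have hsh : (R.dm δ).Shape κ' n := by
    rw [hn]
    exact shape_mono (by positivity) (by rw [hκ']; exact min_le_left _ _) (hshape δ hδ d1)
  have hD := hsh.ok
  -- the column
  obtain ⟨m, hm⟩ : ∃ m : ℤ, m = ⌊(x1 + x2) / (2 * δ)⌋ := ⟨_, rfl⟩
  have hmle : (m : ℝ) ≤ (x1 + x2) / (2 * δ) := by rw [hm]; exact Int.floor_le _
  have hmge : (x1 + x2) / (2 * δ) < (m : ℝ) + 1 := by rw [hm]; exact Int.lt_floor_add_one _
  have hmle' : δ * (m : ℝ) ≤ (x1 + x2) / 2 := by
    rw [le_div_iff₀ (by positivity)] at hmle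
    linarith
  have hmge' : (x1 + x2) / 2 < δ * (m : ℝ) + δ := by
    rw [div_lt_iff₀ (by positivity)] at hmge
    linarith
  have hdt : (R.dm δ).t = ⌊R.t / δ⌋ := rfl
  have hdr : (R.dm δ).r = ⌈R.B / δ⌉ - 1 := rfl
  have hmr : m ≤ (R.dm δ).r := by
    rw [hdr]
    have h1 : (m : ℝ) + 1 ≤ R.B / δ := by
      rw [le_div_iff₀ hδ]
      linarith
    have h2 : ((m + 1 : ℤ) : ℝ) ≤ ((⌈R.B / δ⌉ : ℤ) : ℝ) := by
      push_cast
      exact h1.trans (Int.le_ceil _)
    have h3 : m + 1 ≤ ⌈R.B / δ⌉ := by exact_mod_cast h2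
    omega
  have hmt : ((max (R.dm δ).t 0 : ℤ) : ℝ) ≤ T / δ := by
    rw [hdt]
    push_cast
    apply max_le
    · refine (Int.floor_le _).trans ?_
      exact div_le_div_of_nonneg_right hTt hδ.le
    · positivity
  have hgap : ((max (R.dm δ).t 0 : ℤ) : ℝ) + κ' * n ≤ m := by
    have h1 : κ' * n ≤ (R.B - T) / (2 * δ) := by
      have h2 : κ' ≤ (R.B - T) / (2 * S) := by rw [hκ']; exact min_le_right _ _
      calc κ' * n ≤ (R.B - T) / (2 * S) * n := mul_le_mul_of_nonneg_right h2 hn0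
        _ = (R.B - T) / (2 * δ) := by rw [hn]; field_simp
    have h2 : T / δ + (R.B - T) / (2 * δ) = (T + R.B) / 2 / δ := by field_simp; ring
    have h3 : (T + R.B) / 2 / δ ≤ m := by
      rw [div_le_iff₀ hδ]
      linarith
    linarith
  -- the events
  have hmpos : max (R.dm δ).t 0 < m := by
    have h1 : 0 < κ' * n := by positivity
    have h2 : ((max (R.dm δ).t 0 : ℤ) : ℝ) < m := by linarith
    exact_mod_cast h2
  have hC : ∀ F : Finset Edg, F ⊆ (R.dm δ).edges → KM (R.dm δ) m F →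
      (⟨R.curve δ F⟩ : Curve) ∈ {γ : Curve | x1 ≤ fre γ} := by
    intro F hF hK
    have h1 := curve_reach R hδ hD hF ((hit (R.dm δ) hD m hmpos hmr F hF).2 hK)
    show x1 ≤ fre ⟨R.curve δ F⟩
    linarith
  have hO : ∀ F : Finset Edg, F ⊆ (R.dm δ).edges →
      (⟨R.curve δ F⟩ : Curve) ∈ {γ : Curve | x2 < fre γ} → KM (R.dm δ) m F := by
    intro F hF hx
    rw [← hit (R.dm δ) hD m hmpos hmr F hF]
    by_contra hcon
    have h1 := curve_not_reach R hδ hD hF hcon
    have h2 : x2 < fre ⟨R.curve δ F⟩ := hx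
    linarith
  have mC : MeasurableSet {γ : Curve | x1 ≤ fre γ} :=
    measurableSet_le measurable_const fre_cont.measurable
  have mO : MeasurableSet {γ : Curve | x2 < fre γ} :=
    measurableSet_lt measurable_const fre_cont.measurable
  have hlawC : ∀ q : unitInterval, Pr (fun _ => (q : ℝ)) (R.dm δ).edges (KM (R.dm δ) m) ≤
      (law R δ q : Measure Curve).real {γ | x1 ≤ fre γ} := by
    intro q
    have hok : Ok (fun _ : Edg => (q : ℝ)) := fun _ => q.2
    have h1 : (law R δ q : Measure Curve) {γ | x1 ≤ fre γ} = _ := lawM_apply R δ q mC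
    unfold Measure.real
    rw [h1, ENNReal.toReal_ofReal (Pr_nonneg hok _ _)]
    exact Pr_mono hok hC
  have hlawO : ∀ q : unitInterval, (law R δ q : Measure Curve).real {γ | x2 < fre γ} ≤
      Pr (fun _ => (q : ℝ)) (R.dm δ).edges (KM (R.dm δ) m) := by
    intro q
    have hok : Ok (fun _ : Edg => (q : ℝ)) := fun _ => q.2
    have h1 : (law R δ q : Measure Curve) {γ | x2 < fre γ} = _ := lawM_apply R δ q mO
    unfold Measure.real
    rw [h1, ENNReal.toReal_ofReal (Pr_nonneg hok _ _)]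
    exact Pr_mono hok hO
  -- the gap
  have hn34 : n ^ (3 / 4 : ℝ) = S ^ (3 / 4 : ℝ) * δ ^ (-(3 / 4) : ℝ) := by
    rw [hn, Real.div_rpow hS.le hδ.le, Real.rpow_neg hδ.le]
    rfl
  have hmin : min 1 (S ^ (3 / 4 : ℝ) * lam) ≤ min 1 (|(p : ℝ) - 1 / 2| * n ^ (3 / 4 : ℝ)) := by
    apply min_le_min le_rfl
    rw [hn34]
    calc S ^ (3 / 4 : ℝ) * lam ≤ S ^ (3 / 4 : ℝ) * (|(p : ℝ) - 1 / 2| * δ ^ (-(3 / 4) : ℝ)) :=
          mul_le_mul_of_nonneg_left hp (by positivity)
      _ = _ := by ring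
  have hcmin := mul_le_mul_of_nonneg_left hmin hc.le
  rw [← hc0] at hcmin
  obtain ⟨s1, s2⟩ := hsep n (R.dm δ) hn1 hsh m hgap hmr p p.2.1 p.2.2
  have hpc : ((pc : unitInterval) : ℝ) = 1 / 2 := rfl
  have a1 := hlawC p
  have a2 := hlawC pc
  have a3 := hlawO p
  have a4 := hlawO pc
  rw [hpc] at a2 a4
  rcases le_total (1 / 2) (p : ℝ) with h | h
  · left
    have h1 := s1 h
    rw [abs_of_nonneg (by linarith)] at hcmin
    linarith
  · right
    have h1 := s2 h
    rw [abs_of_nonpos (by linarith), neg_sub] at hcmin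
    linarith

/-- **Part 5**: at distance of the order of the window there are no common limits. -/
theorem part5 (hSEP : S_SEP) (R : Rect) (δ : ℕ → ℝ) (p : ℕ → unitInterval)
    (hδ : ∀ i, 0 < δ i) (hδ0 : Tendsto δ atTop (𝓝 0)) {lam : ℝ} (h0 : 0 < lam)
    (hp : ∀ i, lam ≤ |(p i : ℝ) - 1 / 2| * (δ i) ^ (-(3 / 4) : ℝ))
    {μ : ProbabilityMeasure Curve} (h1 : Tendsto (fun i => law R (δ i) pc) atTop (𝓝 μ))
    (h2 : Tendsto (fun i => law R (δ i) (p i)) atTop (𝓝 μ)) : False := by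
  obtain ⟨xs, c, hxs, hc, hg⟩ := gap hSEP R h0
  have cl : ∀ x : ℝ, IsClosed {γ : Curve | x ≤ fre γ} := fun x =>
    isClosed_le continuous_const fre_cont
  have op : ∀ x : ℝ, IsOpen {γ : Curve | x < fre γ} := fun x =>
    isOpen_lt continuous_const fre_cont
  have mC : ∀ x : ℝ, MeasurableSet {γ : Curve | x ≤ fre γ} := fun x => (cl x).measurableSet
  -- one interval
  have key : ∀ x1 x2 : ℝ, xs ≤ x1 → x1 < x2 → x2 < R.B →
      c / 2 ≤ (μ : Measure Curve).real {γ | x1 ≤ fre γ} -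
        (μ : Measure Curve).real {γ | x2 < fre γ} := by
    intro x1 x2 hx1 hx12 hx2
    obtain ⟨δ0, hδ0', hgap⟩ := hg x1 x2 hx1 hx12 hx2
    have up : ∀ ν : ℕ → ProbabilityMeasure Curve, Tendsto ν atTop (𝓝 μ) →
        ∀ᶠ i in atTop, (ν i : Measure Curve).real {γ | x1 ≤ fre γ} <
          (μ : Measure Curve).real {γ | x1 ≤ fre γ} + c / 4 := by
      intro ν hν
      have h3 := ProbabilityMeasure.limsup_measure_closed_le_of_tendsto hν (cl x1)
      have h4 : (μ : Measure Curve) {γ | x1 ≤ fre γ} <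
          ENNReal.ofReal ((μ : Measure Curve).real {γ | x1 ≤ fre γ} + c / 4) := by
        rw [← ENNReal.ofReal_toReal (measure_ne_top (μ : Measure Curve) {γ | x1 ≤ fre γ})]
        apply (ENNReal.ofReal_lt_ofReal_iff (by positivity)).2
        unfold Measure.real
        linarith
      filter_upwards [eventually_lt_of_limsup_lt (lt_of_le_of_lt h3 h4)] with i hi
      have h5 := (ENNReal.lt_ofReal_iff_toReal_lt (measure_ne_top _ _)).1 hi
      exact h5
    have lo : ∀ ν : ℕ → ProbabilityMeasure Curve, Tendsto ν atTop (𝓝 μ) →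
        ∀ᶠ i in atTop, (μ : Measure Curve).real {γ | x2 < fre γ} - c / 4 <
          (ν i : Measure Curve).real {γ | x2 < fre γ} := by
      intro ν hν
      have h3 := ProbabilityMeasure.le_liminf_measure_open_of_tendsto hν (op x2)
      rcases le_or_gt ((μ : Measure Curve).real {γ | x2 < fre γ} - c / 4) 0 with h | h
      · rcases h.lt_or_eq with h | h
        · exact Eventually.of_forall fun i => lt_of_lt_of_le h measureReal_nonneg
        · have h4 : ENNReal.ofReal (c / 8) < (μ : Measure Curve) {γ | x2 < fre γ} := by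
            rw [ENNReal.ofReal_lt_iff_lt_toReal (by positivity) (measure_ne_top _ _)]
            have : (μ : Measure Curve).real {γ | x2 < fre γ} = c / 4 := by linarith
            unfold Measure.real at this
            linarith
          filter_upwards [eventually_lt_of_lt_liminf (lt_of_lt_of_le h4 h3)] with i hi
          rw [h]
          have h5 := (ENNReal.ofReal_lt_iff_lt_toReal (by positivity) (measure_ne_top _ _)).1 hi
          unfold Measure.real
          linarith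
      · have h4 : ENNReal.ofReal ((μ : Measure Curve).real {γ | x2 < fre γ} - c / 4) <
            (μ : Measure Curve) {γ | x2 < fre γ} := by
          rw [ENNReal.ofReal_lt_iff_lt_toReal h.le (measure_ne_top _ _)]
          unfold Measure.real
          linarith
        filter_upwards [eventually_lt_of_lt_liminf (lt_of_lt_of_le h4 h3)] with i hi
        exact (ENNReal.ofReal_lt_iff_lt_toReal h.le (measure_ne_top _ _)).1 hi
    obtain ⟨i, i1, i2, i3, i4, i5⟩ := ((up _ h1).and ((up _ h2).and ((lo _ h1).and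
      ((lo _ h2).and (hδ0.eventually (ge_mem_nhds hδ0')))))).exists
    rcases hgap (δ i) (hδ i) i5 (p i) (hp i) with h | h
    · linarith
    · linarith
  -- many intervals
  obtain ⟨N, hN⟩ := exists_nat_gt (2 / c)
  obtain ⟨w, hw⟩ : ∃ w : ℝ, w = (R.B - xs) / (2 * N + 2) := ⟨_, rfl⟩
  have hN0 : (0 : ℝ) ≤ N := Nat.cast_nonneg N
  have hw0 : 0 < w := by rw [hw]; exact div_pos (by linarith) (by positivity)
  have hwN : w * (2 * N + 2) = R.B - xs := by rw [hw]; field_simp
  have hsum : ∀ j : ℕ, j ≤ N → (j : ℝ) * (c / 2) ≤ (μ : Measure Curve).real {γ | xs ≤ fre γ} -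
      (μ : Measure Curve).real {γ | xs + w * (2 * j) ≤ fre γ} := by
    intro j
    induction j with
    | zero => intro _; simp
    | succ j ih =>
      intro hj
      have h3 := ih (by omega)
      have hjN : (j : ℝ) + 1 ≤ N := by exact_mod_cast hj
      have hj0 : (0 : ℝ) ≤ j := Nat.cast_nonneg j
      have h4 := key (xs + w * (2 * j)) (xs + w * (2 * j + 1)) (by nlinarith) (by nlinarith)
        (by nlinarith)
      have h5 : (μ : Measure Curve).real {γ | xs + w * (2 * ((j + 1 : ℕ) : ℝ)) ≤ fre γ} ≤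
          (μ : Measure Curve).real {γ | xs + w * (2 * j + 1) < fre γ} := by
        refine measureReal_mono ?_ (measure_ne_top _ _)
        intro γ hγ
        have h6 : xs + w * (2 * ((j + 1 : ℕ) : ℝ)) ≤ fre γ := hγ
        push_cast at h6
        show xs + w * (2 * j + 1) < fre γ
        nlinarith
      push_cast at h5 ⊢
      linarith
  have h3 := hsum N le_rfl
  have h4 : (μ : Measure Curve).real {γ | xs ≤ fre γ} ≤ 1 := measureReal_le_one
  have h5 : 0 ≤ (μ : Measure Curve).real {γ | xs + w * (2 * N) ≤ fre γ} := measureReal_nonneg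
  rw [div_lt_iff₀ hc] at hN
  linarith

end Pool.Agent.N116.EW
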