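import Mathlib

/-!
Project EW (helper116): two orbits of injective maps which differ by a switch at two points visit
their common points in the same order.
-/

set_option autoImplicit false

namespace Pool.Agent.N116.EW

open Function

variable {α : Type*}

/-- The orbit of `f` is the orbit of `g` without a loop. -/
theorem sub_path {f g : α → α} {s1 s2 : α} (h2 : g s2 = f s1)
    (h : ∀ s, s ≠ s1 → s ≠ s2 → g s = f s) {a b : α} {N N' : ℕ}
    (hN : f^[N] a = b) (hN' : g^[N'] a = b)
    (inj : ∀ i j, i ≤ N → j ≤ N → f^[i] a = f^[j] a → i = j)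
    (inj' : ∀ i j, i ≤ N' → j ≤ N' → g^[i] a = g^[j] a → i = j)
    {k1 k2 : ℕ} (hk : k1 < k2) (hk2 : k2 < N') (e1 : g^[k1] a = s1) (e2 : g^[k2] a = s2) :
    ∃ e : ℕ → ℕ, (∀ i ≤ N, e i ≤ N' ∧ g^[e i] a = f^[i] a) ∧ ∀ i j, i < j → e i < e j := by
  have ag : ∀ i ≤ k1, g^[i] a = f^[i] a := by
    intro i
    induction i with
    | zero => intro _; rfl
    | succ i ih =>
      intro hi
      have hw := ih (by omega)
      rw [iterate_succ_apply', iterate_succ_apply', ← hw]
      apply h
      · intro hs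
        have := inj' i k1 (by omega) (by omega) (hs.trans e1.symm)
        omega
      · intro hs
        have := inj' i k2 (by omega) (by omega) (hs.trans e2.symm)
        omega
  have tl : ∀ t, k2 + 1 + t ≤ N' → g^[k2 + 1 + t] a = f^[k1 + 1 + t] a := by
    intro t
    induction t with
    | zero =>
      intro _
      rw [add_zero, add_zero, iterate_succ_apply', iterate_succ_apply', e2, ← ag k1 le_rfl, e1, h2]
    | succ t ih =>
      intro ht
      have hw := ih (by omega)
      rw [← add_assoc, ← add_assoc, iterate_succ_apply', iterate_succ_apply', ← hw]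
      apply h
      · intro hs
        have := inj' (k2 + 1 + t) k1 (by omega) (by omega) (hs.trans e1.symm)
        omega
      · intro hs
        have := inj' (k2 + 1 + t) k2 (by omega) (by omega) (hs.trans e2.symm)
        omega
  have hNe : N = k1 + 1 + (N' - k2 - 1) := by
    have hend : f^[k1 + 1 + (N' - k2 - 1)] a = b := by
      rw [← tl _ (by omega), show k2 + 1 + (N' - k2 - 1) = N' by omega, hN']
    rcases lt_or_ge N (k1 + 1 + (N' - k2 - 1)) with hlt | hge
    · exfalso
      rcases Nat.lt_or_ge k1 N with h3 | h3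
      · obtain ⟨t, rfl⟩ : ∃ t, N = k1 + 1 + t := ⟨N - k1 - 1, by omega⟩
        have h4 := tl t (by omega)
        have := inj' (k2 + 1 + t) N' (by omega) le_rfl ((h4.trans hN).trans hN'.symm)
        omega
      · have := inj' N N' (by omega) le_rfl (((ag N h3).trans hN).trans hN'.symm)
        omega
    · exact inj N _ le_rfl hge (hN.trans hend.symm)
  refine ⟨fun i => if i ≤ k1 then i else i + (k2 - k1), ?_, ?_⟩
  · intro i hi
    by_cases h3 : i ≤ k1
    · simp only [h3, if_true]
      exact ⟨by omega, ag i h3⟩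
    · simp only [h3, if_false]
      refine ⟨by omega, ?_⟩
      obtain ⟨t, rfl⟩ : ∃ t, i = k1 + 1 + t := ⟨i - k1 - 1, by omega⟩
      rw [show k1 + 1 + t + (k2 - k1) = k2 + 1 + t by omega]
      exact tl t (by omega)
  · intro i j hij
    dsimp only
    split_ifs <;> omega

/-- The first visit of one of the two points, and the visit of the other one by one of the
orbits. -/
theorem other_hit {f g : α → α} (hf : Injective f)
    {s1 s2 : α} (hne : s1 ≠ s2) (h1 : g s1 = f s2)
    (h : ∀ s, s ≠ s1 → s ≠ s2 → g s = f s) {a b : α} {N N' : ℕ}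
    (hN : f^[N] a = b) (hN' : g^[N'] a = b)
    (inj' : ∀ i j, i ≤ N' → j ≤ N' → g^[i] a = g^[j] a → i = j)
    {k1 : ℕ} (hk : k1 < N) (hk' : k1 < N') (e1 : f^[k1] a = s1)
    (e1' : g^[k1] a = s1) :
    (∃ k2, k1 < k2 ∧ k2 < N ∧ f^[k2] a = s2) ∨ ∃ k2, k1 < k2 ∧ k2 < N' ∧ g^[k2] a = s2 := by
  by_contra hcon
  push Not at hcon
  obtain ⟨c1, c2⟩ := hcon
  have w1 : ∀ t, f^[k1 + 1 + t] a = f^[t] (f s1) := by
    intro t
    rw [← e1, add_comm (k1 + 1) t, iterate_add_apply, iterate_succ_apply']
  have w2 : ∀ t, k1 + 1 + t ≤ N' → g^[k1 + 1 + t] a = f^[t] (f s2) := by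
    intro t
    induction t with
    | zero =>
      intro _
      rw [add_zero, iterate_succ_apply', e1', h1]
      rfl
    | succ t ih =>
      intro ht
      have hw := ih (by omega)
      rw [← add_assoc, iterate_succ_apply', iterate_succ_apply', ← hw]
      apply h
      · intro hs
        have := inj' (k1 + 1 + t) k1 (by omega) (by omega) (hs.trans e1'.symm)
        omega
      · exact c2 (k1 + 1 + t) (by omega) (by omega)
  obtain ⟨T, rfl⟩ : ∃ T, N = k1 + 1 + T := ⟨N - k1 - 1, by omega⟩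
  obtain ⟨T', rfl⟩ : ∃ T', N' = k1 + 1 + T' := ⟨N' - k1 - 1, by omega⟩
  have hb : f^[T] (f s1) = f^[T'] (f s2) := by
    rw [← w1, ← w2 T' le_rfl, hN, hN']
  rcases lt_trichotomy T T' with hlt | heq | hgt
  · obtain ⟨t, rfl⟩ : ∃ t, T' = T + (t + 1) := ⟨T' - T - 1, by omega⟩
    rw [iterate_add_apply] at hb
    have h3 := (hf.iterate T) hb
    rw [iterate_succ_apply'] at h3
    have h4 := hf h3
    have h5 := w2 t (by omega)
    rw [← h4] at h5
    have := inj' (k1 + 1 + t) k1 (by omega) (by omega) (h5.trans e1'.symm)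
    omega
  · rw [heq] at hb
    exact hne (hf ((hf.iterate T') hb))
  · obtain ⟨t, rfl⟩ : ∃ t, T = T' + (t + 1) := ⟨T - T' - 1, by omega⟩
    rw [iterate_add_apply] at hb
    have h3 := (hf.iterate T') hb
    rw [iterate_succ_apply'] at h3
    have h4 := hf h3
    exact c1 (k1 + 1 + t) (by omega) (by omega) ((w1 t).trans h4)

/-- Same order, one orientation of the roles. -/
theorem ord_aux {f g : α → α} {a : α} {N N' : ℕ}
    (inj' : ∀ i j, i ≤ N' → j ≤ N' → g^[i] a = g^[j] a → i = j)
    (he : ∃ e : ℕ → ℕ, (∀ i ≤ N, e i ≤ N' ∧ g^[e i] a = f^[i] a) ∧ ∀ i j, i < j → e i < e j)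
    {i j i' j' : ℕ} (hi : i ≤ N) (hj : j ≤ N) (hi' : i' ≤ N') (hj' : j' ≤ N')
    (hσ : f^[i] a = g^[i'] a) (hτ : f^[j] a = g^[j'] a) : i < j ↔ i' < j' := by
  obtain ⟨e, he1, he2⟩ := he
  have h1 : i' = e i := inj' _ _ hi' (he1 i hi).1 (hσ.symm.trans (he1 i hi).2.symm)
  have h2 : j' = e j := inj' _ _ hj' (he1 j hj).1 (hτ.symm.trans (he1 j hj).2.symm)
  subst h1 h2
  constructor
  · exact he2 i j
  · intro h
    rcases lt_trichotomy i j with h3 | h3 | h3
    · exact h3
    · subst h3; omega
    · have := he2 j i h3; omega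

/-- **Two orbits which differ by a switch visit their common points in the same order.** -/
theorem ord_one {f g : α → α} (hf : Injective f)
    {s1 s2 : α} (hne : s1 ≠ s2) (h1 : g s1 = f s2) (h2 : g s2 = f s1)
    (h : ∀ s, s ≠ s1 → s ≠ s2 → g s = f s) {a b : α} {N N' : ℕ}
    (hN : f^[N] a = b) (hN' : g^[N'] a = b)
    (inj : ∀ i j, i ≤ N → j ≤ N → f^[i] a = f^[j] a → i = j)
    (inj' : ∀ i j, i ≤ N' → j ≤ N' → g^[i] a = g^[j] a → i = j)
    {i j i' j' : ℕ} (hi : i ≤ N) (hj : j ≤ N) (hi' : i' ≤ N') (hj' : j' ≤ N')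
    (hσ : f^[i] a = g^[i'] a) (hτ : f^[j] a = g^[j'] a) : i < j ↔ i' < j' := by
  classical
  -- agreement as long as no switch is met
  have ag : ∀ k, (∀ m < k, f^[m] a ≠ s1 ∧ f^[m] a ≠ s2) → g^[k] a = f^[k] a := by
    intro k
    induction k with
    | zero => intro _; rfl
    | succ k ih =>
      intro hm
      rw [iterate_succ_apply', iterate_succ_apply', ih (fun m hmk => hm m (by omega))]
      exact h _ (hm k (by omega)).1 (hm k (by omega)).2
  by_cases hex : ∃ k, k < N ∧ (f^[k] a = s1 ∨ f^[k] a = s2)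
  · -- first visit
    obtain ⟨k1, ⟨hk1, hs⟩, hmin⟩ : ∃ k, (k < N ∧ (f^[k] a = s1 ∨ f^[k] a = s2)) ∧
        ∀ m < k, ¬ (m < N ∧ (f^[m] a = s1 ∨ f^[m] a = s2)) :=
      ⟨Nat.find hex, Nat.find_spec hex, fun m hm => Nat.find_min hex hm⟩
    have hav : ∀ m < k1, f^[m] a ≠ s1 ∧ f^[m] a ≠ s2 := by
      intro m hm
      have := hmin m hm
      push Not at this
      exact this (by omega)
    have hg1 : g^[k1] a = f^[k1] a := ag k1 hav
    have hk1' : k1 < N' := by
      by_contra hcon
      have h3 : g^[N'] a = f^[N'] a := ag N' (fun m hm => hav m (by omega))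
      have := inj N' N (by omega) le_rfl ((h3.symm.trans hN').trans hN.symm)
      omega
    -- the common part, for a labelling
    have key : ∀ t1 t2 : α, t1 ≠ t2 → g t1 = f t2 → g t2 = f t1 →
        (∀ s, s ≠ t1 → s ≠ t2 → g s = f s) → f^[k1] a = t1 → (i < j ↔ i' < j') := by
      intro t1 t2 tne k1' k2' kh ht
      have hgt : g^[k1] a = t1 := hg1.trans ht
      rcases other_hit hf tne k1' kh hN hN' inj' hk1 hk1' ht hgt with
        ⟨k2, q1, q2, q3⟩ | ⟨k2, q1, q2, q3⟩
      · -- the orbit of `g` is the orbit of `f` without a loop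
        have he := sub_path (f := g) (g := f) (s1 := t1) (s2 := t2) k1'.symm
          (fun s u1 u2 => (kh s u1 u2).symm) hN' hN inj' inj q1 q2 ht q3
        exact (ord_aux (f := g) (g := f) inj he hi' hj' hi hj hσ.symm hτ.symm).symm
      · have he := sub_path (f := f) (g := g) (s1 := t1) (s2 := t2) k2' kh hN hN' inj inj'
          q1 q2 hgt q3
        exact ord_aux inj' he hi hj hi' hj' hσ hτ
    rcases hs with hs | hs
    · exact key s1 s2 hne h1 h2 h hs
    · exact key s2 s1 hne.symm h2 h1 (fun s u1 u2 => h s u2 u1) hs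
  · -- the orbits agree
    push Not at hex
    have hall : ∀ k ≤ N, g^[k] a = f^[k] a := fun k hk => ag k (fun m hm => hex m (by omega))
    refine ord_aux inj' ⟨id, ?_, fun i j h => h⟩ hi hj hi' hj' hσ hτ
    intro k hk
    have hNN : N ≤ N' := by
      by_contra hcon
      have h3 : g^[N'] a = f^[N'] a := hall N' (by omega)
      have := inj N' N (by omega) le_rfl ((h3.symm.trans hN').trans hN.symm)
      omega
    exact ⟨by simp only [id]; omega, hall k hk⟩

end Pool.Agent.N116.EW
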