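import Pool.Agent.N116.EW.Defs
import Pool.Agent.N116.EW.Ord

/-!
Project EW (helper116): the exploration paths of two configurations `F ⊆ G` visit the states
between the cluster of `F` and the dual cluster of `G` in the same order; between two such states
they make excursions.
-/

set_option autoImplicit false

namespace Pool.Agent.N116.EW

open H974 H12S H389NS H984N H984P H342P H443B Finset

variable {D : Dm} {F G : Finset Edg}

/-! ### One more open edge -/

/-- The two states which examine the edge `e`. -/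
def s1 (e : Edg) : St := if e.2.2 then ((e.1, e.2.1), .ne) else ((e.1, e.2.1), .nw)

def s2 (e : Edg) : St := if e.2.2 then ((e.1 + 1, e.2.1), .sw) else ((e.1, e.2.1 + 1), .se)

theorem ae_s1 (e : Edg) : ae (s1 e) = e := by
  obtain ⟨x, y, _ | _⟩ := e <;> simp [s1]

theorem ae_s2 (e : Edg) : ae (s2 e) = e := by
  obtain ⟨x, y, _ | _⟩ := e <;> simp [s2]

theorem s1_ne_s2 (e : Edg) : s1 e ≠ s2 e := by
  obtain ⟨x, y, _ | _⟩ := e <;> simp [s1, s2]

theorem mv_s1 (e : Edg) : mv (s1 e) = rt (s2 e) := by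
  obtain ⟨x, y, _ | _⟩ := e <;> simp [s1, s2]

theorem mv_s2 (e : Edg) : mv (s2 e) = rt (s1 e) := by
  obtain ⟨x, y, _ | _⟩ := e <;> simp [s1, s2]

theorem ae_eq {σ : St} {e : Edg} (h : ae σ = e) : σ = s1 e ∨ σ = s2 e := by
  subst h
  obtain ⟨⟨x, y⟩, q⟩ := σ
  cases q <;> simp [s1, s2]

theorem nxt_insert {H : Set Edg} {e : Edg} (he : e ∉ H) :
    nxt (insert e H) (s1 e) = nxt H (s2 e) ∧ nxt (insert e H) (s2 e) = nxt H (s1 e) ∧
    ∀ s, s ≠ s1 e → s ≠ s2 e → nxt (insert e H) s = nxt H s := by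
  refine ⟨?_, ?_, ?_⟩
  · rw [nxt_open (by rw [ae_s1]; exact Set.mem_insert _ _), nxt_closed (by rwa [ae_s2]), mv_s1]
  · rw [nxt_open (by rw [ae_s2]; exact Set.mem_insert _ _), nxt_closed (by rwa [ae_s1]), mv_s2]
  · intro s h1 h2
    have hne : ae s ≠ e := by
      intro h
      rcases ae_eq h with h | h
      · exact h1 h
      · exact h2 h
    by_cases h : ae s ∈ H
    · rw [nxt_open h, nxt_open (Set.mem_insert_of_mem _ h)]
    · rw [nxt_closed h, nxt_closed]
      rintro (h3 | h3)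
      · exact hne h3
      · exact h h3

theorem walk_inj' (hD : D.Ok) (hF : F ⊆ D.edges) {i j : ℕ} (hi : i ≤ D.len F) (hj : j ≤ D.len F)
    (h : D.walk F i = D.walk F j) : i = j := by
  rcases lt_trichotomy i j with h1 | h1 | h1
  · exact absurd h (walk_inj hD hF h1 hj)
  · exact h1
  · exact absurd h.symm (walk_inj hD hF h1 hi)

/-- One more open edge. -/
theorem ord_step (hD : D.Ok) {e : Edg} (hF : insert e F ⊆ D.edges) {i j i' j' : ℕ}
    (hi : i ≤ D.len F) (hj : j ≤ D.len F) (hi' : i' ≤ D.len (insert e F))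
    (hj' : j' ≤ D.len (insert e F)) (hσ : D.walk F i = D.walk (insert e F) i')
    (hτ : D.walk F j = D.walk (insert e F) j') : i < j ↔ i' < j' := by
  have hF0 : F ⊆ D.edges := (Finset.subset_insert _ _).trans hF
  have hcfg : D.cfg (insert e F) = insert e (D.cfg F) := by
    unfold Dm.cfg
    rw [Finset.coe_insert, Set.insert_union]
  by_cases he : e ∈ D.cfg F
  · rw [Set.insert_eq_of_mem he] at hcfg
    have hw : ∀ k, D.walk (insert e F) k = D.walk F k := by
      intro k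
      unfold Dm.walk
      rw [hcfg]
    have hl : D.len (insert e F) = D.len F := by
      unfold Dm.len
      simp only [hw]
    rw [hw] at hσ hτ
    rw [hl] at hi' hj'
    have h1 := walk_inj' hD hF0 hi hi' hσ
    have h2 := walk_inj' hD hF0 hj hj' hτ
    rw [h1, h2]
  · obtain ⟨h1, h2, h3⟩ := nxt_insert he
    rw [← hcfg] at h1 h2 h3
    exact ord_one (f := nxt (D.cfg F)) (g := nxt (D.cfg (insert e F))) (nxt_bij _).1
      (s1_ne_s2 e) h1 h2 h3 (a := D.start) (b := Dm.stop) (walk_len hD hF0) (walk_len hD hF)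
      (fun i j hi hj h => walk_inj' hD hF0 hi hj h) (fun i j hi hj h => walk_inj' hD hF hi hj h)
      hi hj hi' hj' hσ hτ

theorem clu_mono (h : F ⊆ G) : D.clu F ⊆ D.clu G := by
  intro v hv
  have hr : Reach (D.cfg F) (0, 0) v := hv
  refine hr.mono ?_
  rintro e (he | he)
  · exact Or.inl (h he)
  · exact Or.inr he

theorem dclu_anti (h : F ⊆ G) : D.dclu G ⊆ D.dclu F := by
  rintro f ⟨g, hg, hr⟩
  refine ⟨g, hg, hr.mono ?_⟩
  rintro e ⟨he, hc⟩
  refine ⟨he, fun hh => hc ?_⟩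
  rcases hh with h1 | h1
  · exact Or.inl (h h1)
  · exact Or.inr h1

/-- States between the cluster of `F` and the dual cluster of `G`. -/
def MM (D : Dm) (F G : Finset Edg) : Set St := {σ | σ.1 ∈ D.clu F ∧ face σ ∈ D.dclu G}

/-- The same order. -/
theorem ord_all (hD : D.Ok) (T : Finset Edg) : ∀ F : Finset Edg, F ∪ T ⊆ D.edges →
    ∀ σ ∈ MM D F (F ∪ T), ∀ τ ∈ MM D F (F ∪ T), ∀ i j i' j' : ℕ,
    i ≤ D.len F → j ≤ D.len F → i' ≤ D.len (F ∪ T) → j' ≤ D.len (F ∪ T) →
    D.walk F i = σ → D.walk (F ∪ T) i' = σ → D.walk F j = τ → D.walk (F ∪ T) j' = τ →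
    (i < j ↔ i' < j') := by
  induction T using Finset.induction_on with
  | empty =>
    intro F hF σ _ τ _ i j i' j' hi hj hi' hj' h1 h2 h3 h4
    rw [Finset.union_empty] at hF hi' hj' h2 h4
    rw [walk_inj' hD hF hi hi' (h1.trans h2.symm), walk_inj' hD hF hj hj' (h3.trans h4.symm)]
  | insert e T _ ih =>
    intro F hF σ hσ τ hτ i j i' j' hi hj hi' hj' h1 h2 h3 h4
    have hu : F ∪ insert e T = insert e (F ∪ T) := by
      rw [Finset.union_insert]
    rw [hu] at hF hσ hτ hi' hj' h2 h4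
    have hF0 : F ∪ T ⊆ D.edges := (Finset.subset_insert _ _).trans hF
    have hsub : F ∪ T ⊆ insert e (F ∪ T) := Finset.subset_insert _ _
    have hFs : F ⊆ F ∪ T := Finset.subset_union_left
    have hσ0 : σ ∈ MM D F (F ∪ T) := ⟨hσ.1, dclu_anti hsub hσ.2⟩
    have hτ0 : τ ∈ MM D F (F ∪ T) := ⟨hτ.1, dclu_anti hsub hτ.2⟩
    obtain ⟨i0, hi0, e0⟩ := visited hD hF0 (clu_mono hFs hσ0.1) hσ0.2
    obtain ⟨j0, hj0, f0⟩ := visited hD hF0 (clu_mono hFs hτ0.1) hτ0.2
    have k1 := ih F hF0 σ hσ0 τ hτ0 i j i0 j0 hi hj hi0 hj0 h1 e0 h3 f0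
    have k2 := ord_step hD hF hi0 hj0 hi' hj' (e0.trans h2.symm) (f0.trans h4.symm)
    exact k1.trans k2

theorem ord_walk (hD : D.Ok) (hFG : F ⊆ G) (hG : G ⊆ D.edges) {σ τ : St}
    (hσ : σ ∈ MM D F G) (hτ : τ ∈ MM D F G) {i j i' j' : ℕ} (hi : i ≤ D.len F)
    (hj : j ≤ D.len F) (hi' : i' ≤ D.len G) (hj' : j' ≤ D.len G) (h1 : D.walk F i = σ)
    (h2 : D.walk G i' = σ) (h3 : D.walk F j = τ) (h4 : D.walk G j' = τ) : i < j ↔ i' < j' := by
  have hu : F ∪ G = G := Finset.union_eq_right.2 hFG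
  have := ord_all hD G F (by rw [hu]; exact hG) σ (by rw [hu]; exact hσ) τ (by rw [hu]; exact hτ)
    i j i' j'
  rw [hu] at this
  exact this hi hj hi' hj' h1 h2 h3 h4

/-! ### Excursions -/

theorem outer_dclu {f : Vtx} (hf : f ∈ D.outer) (G : Finset Edg) : f ∈ D.dclu G :=
  ⟨f, hf, DReach.refl _ _⟩

theorem start_MM (hD : D.Ok) (F G : Finset Edg) : D.start ∈ MM D F G := by
  refine ⟨clu_start hD F, outer_dclu ?_ G⟩
  refine Or.inr (Or.inr ?_)
  show D.h = D.h ∧ D.t ≤ D.t ∧ D.t ≤ D.r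
  exact ⟨rfl, le_rfl, hD.le_r⟩

theorem stop_MM (hD : D.Ok) (F G : Finset Edg) : Dm.stop ∈ MM D F G := by
  refine ⟨Reach.refl _ _, outer_dclu ?_ G⟩
  refine Or.inl ?_
  show (0 : ℤ) - 1 = -1 ∧ (0 : ℤ) ≤ 0 ∧ (0 : ℤ) ≤ D.r
  have := hD.r_pos
  omega

/-- Turning at an edge which is not in the rectangle. -/
theorem rt_outer (hD : D.Ok) {σ : St} (hv : inR D.l D.r 0 D.h σ.1)
    (hf : face σ ∈ D.outer ∨ ((D.l ≤ (face σ).1 ∧ (face σ).1 < D.r) ∧ 0 ≤ (face σ).2 ∧
      (face σ).2 < D.h)) (he : ae σ ∉ D.edges) (hns : σ ≠ Dm.stop) : face (rt σ) ∈ D.outer := by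
  obtain ⟨⟨x, y⟩, q⟩ := σ
  obtain ⟨h1, h2, h3, h4, h5⟩ := hD
  unfold inR at hv
  unfold Dm.outer at hf ⊢
  unfold Dm.edges at he
  unfold Dm.stop at hns
  simp only [Set.mem_ofPred_eq] at hf ⊢
  cases q
  · simp only [ae_ne, mem_RE_true, rt_ne, face_se, face_ne] at he hf hv ⊢
    omega
  · simp only [ae_nw, mem_RE_false, rt_nw, face_nw, face_ne] at he hf hv ⊢
    omega
  · simp only [ae_sw, mem_RE_true, rt_sw, face_nw, face_sw] at he hf hv ⊢
    omega
  · simp only [ae_se, mem_RE_false, rt_se, face_se, face_sw] at he hf hv ⊢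
    have h6 : ¬ (x = 0 ∧ y = 0) := by
      rintro ⟨rfl, rfl⟩
      exact hns rfl
    omega

theorem sd_comm' (u v : Vtx) : sd u v = sd v u := by
  unfold sd
  rw [abs_sub_comm u.1, abs_sub_comm u.2]

theorem sd_tri (u v w : Vtx) : sd u w ≤ sd u v + sd v w := by
  unfold sd
  have h1 := abs_sub_le u.1 v.1 w.1
  have h2 := abs_sub_le u.2 v.2 w.2
  omega

theorem sd_self' (u : Vtx) : sd u u = 0 := by
  unfold sd; simp

theorem sd_nxt (H : Set Edg) (σ : St) : sd σ.1 (nxt H σ).1 ≤ 1 := by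
  obtain ⟨⟨x, y⟩, q⟩ := σ
  by_cases h : ae ((x, y), q) ∈ H
  · rw [nxt_open h]
    cases q <;> simp [sd]
  · rw [nxt_closed h]
    cases q <;> simp [sd]

theorem sd_mv (σ : St) : sd σ.1 (mv σ).1 ≤ 1 := by
  obtain ⟨⟨x, y⟩, q⟩ := σ
  cases q <;> simp [sd]

theorem sd_face (σ : St) : sd σ.1 (face σ) ≤ 1 := by
  obtain ⟨⟨x, y⟩, q⟩ := σ
  cases q <;> simp [sd]

theorem sd_face_rt (σ : St) : sd (face σ) (face (rt σ)) ≤ 1 := by
  obtain ⟨⟨x, y⟩, q⟩ := σ
  cases q <;> simp [sd]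

/-- Excursions of the upper path. -/
theorem exc_G (hD : D.Ok) (hG : G ⊆ D.edges) {ρ : ℕ} (hρ : 1 ≤ ρ)
    (hb : ¬ BadV D ρ F G) {k0 k1 : ℕ} (hk : k0 < k1) (hk1 : k1 ≤ D.len G)
    (h0 : D.walk G k0 ∈ MM D F G) (hno : ∀ k, k0 < k → k < k1 → D.walk G k ∉ MM D F G) {k : ℕ}
    (ha : k0 ≤ k) (hb' : k ≤ k1) : sd (D.walk G k0).1 (D.walk G k).1 ≤ ρ + 1 := by
  -- the statement for times before `k1`
  have key : ∀ k, k0 ≤ k → k < k1 → sd (D.walk G k0).1 (D.walk G k).1 ≤ ρ := by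
    intro k hka hkb
    rcases Nat.eq_or_lt_of_le hka with rfl | hka
    · rw [sd_self']; positivity
    have hoff : ∀ m, k0 < m → m < k1 → (D.walk G m).1 ∉ D.clu F := by
      intro m hm1 hm2 hm3
      exact hno m hm1 hm2 ⟨hm3, (walk_clu hD hG (by omega)).2⟩
    -- the flipped edge
    have hv0 := hoff (k0 + 1) (by omega) (by omega)
    rw [clu_walk_succ] at hv0
    have hopen : ae (D.walk G k0) ∈ D.cfg G := by
      by_contra hc
      rw [nxt_closed hc, p2_rt_fst] at hv0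
      exact hv0 h0.1
    rw [nxt_open hopen] at hv0
    have hnF : ae (D.walk G k0) ∉ D.cfg F := by
      intro hc
      apply hv0
      have hr : Reach (D.cfg F) (0, 0) (D.walk G k0).1 := h0.1
      exact hr.trans (Adj.reach ⟨ae (D.walk G k0), hc, p2_ends _⟩)
    have heG : ae (D.walk G k0) ∈ G := by
      rcases hopen with h | h
      · exact h
      · exact absurd (Or.inr h) hnF
    -- the vertices of the excursion
    have hch : ∀ t, k0 + 1 + t < k1 →
        Reach {g | g ∈ D.cfg G ∧ src g ∉ D.clu F ∧ tgt g ∉ D.clu F} (mv (D.walk G k0)).1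
          (D.walk G (k0 + 1 + t)).1 := by
      intro t
      induction t with
      | zero =>
        intro _
        rw [add_zero, clu_walk_succ, nxt_open hopen]
        exact Reach.refl _ _
      | succ t ih =>
        intro ht
        have h1 := ih (by omega)
        have u1 := hoff (k0 + 1 + t) (by omega) (by omega)
        have u2 := hoff (k0 + 1 + (t + 1)) (by omega) (by omega)
        rw [← add_assoc, clu_walk_succ] at u2 ⊢
        by_cases hc : ae (D.walk G (k0 + 1 + t)) ∈ D.cfg G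
        · rw [nxt_open hc] at u2 ⊢
          refine h1.trans (Adj.reach ⟨ae (D.walk G (k0 + 1 + t)), ⟨hc, ?_⟩, p2_ends _⟩)
          rcases p2_ends (D.walk G (k0 + 1 + t)) with ⟨e1, e2⟩ | ⟨e1, e2⟩
          · rw [e1, e2]; exact ⟨u1, u2⟩
          · rw [e1, e2]; exact ⟨u2, u1⟩
        · rw [nxt_closed hc, p2_rt_fst]
          exact h1
    have h3 := hch (k - k0 - 1) (by omega)
    rw [show k0 + 1 + (k - k0 - 1) = k by omega] at h3
    have h4 : sd (mv (D.walk G k0)).1 (D.walk G k).1 < ρ := by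
      by_contra hcon
      push Not at hcon
      apply hb
      refine ⟨ae (D.walk G k0), heG, hnF, (D.walk G k0).1, (mv (D.walk G k0)).1,
        face (D.walk G k0), ?_, ?_, h0.1, hv0, h0.2, (D.walk G k).1, hcon, h3⟩
      · rcases p2_ends (D.walk G k0) with ⟨e1, e2⟩ | ⟨e1, e2⟩
        · exact Or.inl ⟨e1.symm, e2.symm⟩
        · exact Or.inr ⟨e2.symm, e1.symm⟩
      · rcases p2_dends (D.walk G k0) with ⟨e1, e2⟩ | ⟨e1, e2⟩
        · exact Or.inl e1.symm
        · exact Or.inr e2.symm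
    have h5 := sd_tri (D.walk G k0).1 (mv (D.walk G k0)).1 (D.walk G k).1
    have h6 := sd_mv (D.walk G k0)
    omega
  rcases Nat.eq_or_lt_of_le hb' with rfl | hlt
  · obtain ⟨k', rfl⟩ : ∃ k', k = k' + 1 := ⟨k - 1, by omega⟩
    have h1 := key k' (by omega) (by omega)
    have h2 := sd_tri (D.walk G k0).1 (D.walk G k').1 (D.walk G (k' + 1)).1
    have h3 := sd_nxt (D.cfg G) (D.walk G k')
    rw [← clu_walk_succ] at h3
    omega
  · have := key k ha hlt
    omega

/-- Excursions of the lower path. -/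
theorem exc_F (hD : D.Ok) (hFG : F ⊆ G) (hG : G ⊆ D.edges) {ρ : ℕ} (hρ : 1 ≤ ρ)
    (hb : ¬ BadW D ρ F G) {k0 k1 : ℕ} (hk : k0 < k1) (hk1 : k1 ≤ D.len F)
    (h0 : D.walk F k0 ∈ MM D F G) (hno : ∀ k, k0 < k → k < k1 → D.walk F k ∉ MM D F G) {k : ℕ}
    (ha : k0 ≤ k) (hb' : k ≤ k1) : sd (D.walk F k0).1 (D.walk F k).1 ≤ ρ + 3 := by
  have hF : F ⊆ D.edges := hFG.trans hG
  have key : ∀ k, k0 ≤ k → k < k1 → sd (D.walk F k0).1 (D.walk F k).1 ≤ ρ + 2 := by
    intro k hka hkb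
    rcases Nat.eq_or_lt_of_le hka with rfl | hka
    · rw [sd_self']; positivity
    have hoff : ∀ m, k0 < m → m < k1 → face (D.walk F m) ∉ D.dclu G := by
      intro m hm1 hm2 hm3
      exact hno m hm1 hm2 ⟨(walk_clu hD hF (by omega)).1, hm3⟩
    have hns : ∀ m < k1, D.walk F m ≠ Dm.stop := fun m hm => clu_ne_stop (by omega)
    have hin : ∀ m ≤ k1, inR D.l D.r 0 D.h (D.walk F m).1 := fun m hm => walk_in hD hF m
    have hfc : ∀ m ≤ k1, face (D.walk F m) ∈ D.outer ∨
        ((D.l ≤ (face (D.walk F m)).1 ∧ (face (D.walk F m)).1 < D.r) ∧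
          0 ≤ (face (D.walk F m)).2 ∧ (face (D.walk F m)).2 < D.h) := fun m hm =>
      dclu_in hD (walk_clu hD hF (by omega)).2
    -- the flipped edge
    have hv0 := hoff (k0 + 1) (by omega) (by omega)
    rw [clu_walk_succ] at hv0
    have hcl : ae (D.walk F k0) ∉ D.cfg F := by
      intro hc
      rw [nxt_open hc, p2_face_mv] at hv0
      exact hv0 h0.2
    rw [nxt_closed hcl] at hv0
    have hed : ae (D.walk F k0) ∈ D.edges := by
      by_contra hc
      exact hv0 (outer_dclu (rt_outer hD (hin k0 (by omega)) (hfc k0 (by omega)) hc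
        (hns k0 (by omega))) G)
    have hcG : ae (D.walk F k0) ∈ D.cfg G := by
      by_contra hc
      apply hv0
      obtain ⟨g, hg, hr⟩ := h0.2
      exact ⟨g, hg, hr.trans (DAdj.reach ⟨ae (D.walk F k0), ⟨hed, hc⟩, p2_dends _⟩)⟩
    have heG : ae (D.walk F k0) ∈ G := by
      rcases hcG with h | h
      · exact h
      · exact absurd (Or.inr h) hcl
    have hch : ∀ t, k0 + 1 + t < k1 →
        DReach {g | g ∈ D.edges ∧ g ∉ D.cfg F ∧ dsrc g ∉ D.dclu G ∧ dtgt g ∉ D.dclu G}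
          (face (rt (D.walk F k0))) (face (D.walk F (k0 + 1 + t))) := by
      intro t
      induction t with
      | zero =>
        intro _
        rw [add_zero, clu_walk_succ, nxt_closed hcl]
        exact DReach.refl _ _
      | succ t ih =>
        intro ht
        have h1 := ih (by omega)
        have u1 := hoff (k0 + 1 + t) (by omega) (by omega)
        have u2 := hoff (k0 + 1 + (t + 1)) (by omega) (by omega)
        rw [← add_assoc, clu_walk_succ] at u2 ⊢
        by_cases hc : ae (D.walk F (k0 + 1 + t)) ∈ D.cfg F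
        · rw [nxt_open hc, p2_face_mv]
          exact h1
        · rw [nxt_closed hc] at u2 ⊢
          have hed' : ae (D.walk F (k0 + 1 + t)) ∈ D.edges := by
            by_contra hcc
            exact u2 (outer_dclu (rt_outer hD (hin _ (by omega)) (hfc _ (by omega)) hcc
              (hns _ (by omega))) G)
          refine h1.trans (DAdj.reach ⟨ae (D.walk F (k0 + 1 + t)), ⟨hed', hc, ?_⟩, p2_dends _⟩)
          rcases p2_dends (D.walk F (k0 + 1 + t)) with ⟨e1, e2⟩ | ⟨e1, e2⟩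
          · rw [e1, e2]; exact ⟨u1, u2⟩
          · rw [e1, e2]; exact ⟨u2, u1⟩
    have h3 := hch (k - k0 - 1) (by omega)
    rw [show k0 + 1 + (k - k0 - 1) = k by omega] at h3
    have h4 : sd (face (rt (D.walk F k0))) (face (D.walk F k)) < ρ := by
      by_contra hcon
      push Not at hcon
      apply hb
      refine ⟨ae (D.walk F k0), heG, hcl, (D.walk F k0).1, face (D.walk F k0),
        face (rt (D.walk F k0)), ?_, ?_, h0.1, h0.2, hv0, face (D.walk F k), hcon, h3⟩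
      · rcases p2_ends (D.walk F k0) with ⟨e1, e2⟩ | ⟨e1, e2⟩
        · exact Or.inl e1.symm
        · exact Or.inr e2.symm
      · rcases p2_dends (D.walk F k0) with ⟨e1, e2⟩ | ⟨e1, e2⟩
        · exact Or.inl ⟨e1.symm, e2.symm⟩
        · exact Or.inr ⟨e2.symm, e1.symm⟩
    have h5 := sd_tri (D.walk F k0).1 (face (D.walk F k0)) (D.walk F k).1
    have h6 := sd_tri (face (D.walk F k0)) (face (rt (D.walk F k0))) (D.walk F k).1
    have h7 := sd_tri (face (rt (D.walk F k0))) (face (D.walk F k)) (D.walk F k).1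
    have h8 := sd_face (D.walk F k0)
    have h9 := sd_face_rt (D.walk F k0)
    have h10 := sd_face (D.walk F k)
    rw [sd_comm'] at h10
    omega
  rcases Nat.eq_or_lt_of_le hb' with rfl | hlt
  · obtain ⟨k', rfl⟩ : ∃ k', k = k' + 1 := ⟨k - 1, by omega⟩
    have h1 := key k' (by omega) (by omega)
    have h2 := sd_tri (D.walk F k0).1 (D.walk F k').1 (D.walk F (k' + 1)).1
    have h3 := sd_nxt (D.cfg F) (D.walk F k')
    rw [← clu_walk_succ] at h3
    omega
  · have := key k ha hlt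
    omega

end Pool.Agent.N116.EW
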