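import Pool.Agent.N116.EW.Sep
import Pool.Agent.N116.EW.Match

/-!
Project EW (helper116): the path reaches the column `m` if and only if the wired arc is connected to
the column `m`.
-/

set_option autoImplicit false

namespace Pool.Agent.N116.EW

open H974 H12S H389NS H984N H984P H342P H443B Finset

variable {D : Dm} {F : Finset Edg}

/-- The wired arc is connected. -/
theorem wa_clu (hD : D.Ok) (F : Finset Edg) {u : Vtx} (hu : u ∈ wa D) :
    Reach (D.cfg F) (0, 0) u := by
  obtain ⟨h1, h2, h3, h4, h5⟩ := hD
  obtain ⟨x, y⟩ := u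
  have eb : Reach (D.cfg F) (0, 0) (D.l, 0) := by
    have := clu_bottom (D := D) F (-D.l).toNat (by omega)
    rwa [show -(((-D.l).toNat : ℕ) : ℤ) = D.l by omega] at this
  have el : ∀ y : ℤ, 0 ≤ y → y ≤ D.h → Reach (D.cfg F) (D.l, 0) (D.l, y) := by
    intro y hy0 hy1
    have := clu_left (D := D) F y.toNat (by omega)
    rwa [show ((y.toNat : ℕ) : ℤ) = y by omega] at this
  rcases hu with ⟨a1, a2, a3⟩ | ⟨a1, a2, a3⟩ | ⟨a1, a2, a3⟩
  · simp only at a1 a2 a3
    have := clu_top (D := D) F (x - D.l).toNat (by omega)
    rw [show D.l + (((x - D.l).toNat : ℕ) : ℤ) = x by omega] at this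
    rw [a1]
    exact (eb.trans (el D.h (by omega) le_rfl)).trans this
  · simp only at a1 a2 a3
    rw [a1]
    exact eb.trans (el y a2 a3)
  · simp only at a1 a2 a3
    have := clu_bottom (D := D) F (-x).toNat (by omega)
    rw [show -(((-x).toNat : ℕ) : ℤ) = x by omega] at this
    rw [a1]
    exact this

/-- Wired edges have their ends on the wired arc. -/
theorem wir_wa (hD : D.Ok) {e : Edg} (he : e ∈ D.wir) : src e ∈ wa D ∧ tgt e ∈ wa D := by
  obtain ⟨h1, h2, h3, h4, h5⟩ := hD
  obtain ⟨x, y, _ | _⟩ := e
  · simp only [src_mk, tgt_false]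
    unfold Dm.wir at he
    simp at he
    constructor
    · right; left; simp only; omega
    · right; left; simp only; omega
  · simp only [src_mk, tgt_true]
    unfold Dm.wir at he
    simp at he
    rcases he with he | he
    · constructor
      · left; simp only; omega
      · left; simp only; omega
    · constructor
      · right; right; simp only; omega
      · right; right; simp only; omega

/-- Leaving the wired arc for the last time. -/
theorem last_wa (hD : D.Ok) {A : Set Edg} {u v : Vtx} (hu : u ∈ wa D)
    (h : Reach (A ∪ D.wir) u v) : ∃ u' ∈ wa D, Reach A u' v := by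
  unfold Reach at h
  induction h with
  | refl => exact ⟨u, hu, Reach.refl _ _⟩
  | tail _ hst ih =>
    obtain ⟨u', hu', hr⟩ := ih
    obtain ⟨e, he, hor⟩ := hst
    rcases he with he | he
    · exact ⟨u', hu', hr.trans (Adj.reach ⟨e, he, hor⟩)⟩
    · obtain ⟨w1, w2⟩ := wir_wa hD he
      rcases hor with ⟨_, h2⟩ | ⟨h2, _⟩
      · exact ⟨_, by rw [← h2]; exact w2, Reach.refl _ _⟩
      · exact ⟨_, by rw [← h2]; exact w1, Reach.refl _ _⟩

theorem ae_src_tgt (σ : St) : (src (ae σ) = σ.1 ∧ tgt (ae σ) = (mv σ).1) ∨
    (tgt (ae σ) = σ.1 ∧ src (ae σ) = (mv σ).1) := by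
  rcases p2_ends σ with ⟨e1, e2⟩ | ⟨e1, e2⟩
  · exact Or.inl ⟨e1, e2⟩
  · exact Or.inr ⟨e2, e1⟩

theorem mv_col (σ : St) : (mv σ).1.1 ≤ σ.1.1 + 1 := by
  obtain ⟨⟨x, y⟩, q⟩ := σ
  cases q <;> simp only [mv_ne, mv_nw, mv_sw, mv_se] <;> omega

theorem nxt_col (G : Set Edg) (σ : St) : (nxt G σ).1.1 ≤ σ.1.1 + 1 := by
  by_cases h : ae σ ∈ G
  · rw [nxt_open h]; exact mv_col σ
  · rw [nxt_closed h, p2_rt_fst]; omega

theorem hit : S_HIT := by
  intro D hD m hm hmr F hF
  have hmt : D.t < m := lt_of_le_of_lt (le_max_left _ _) hm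
  have hm0 : 0 < m := lt_of_le_of_lt (le_max_right _ _) hm
  constructor
  · rintro ⟨k, hk, hkm⟩
    -- the first time
    classical
    have hex : ∃ j, m ≤ (D.walk F j).1.1 := ⟨k, hkm⟩
    obtain ⟨j, hj, hmin⟩ : ∃ j, m ≤ (D.walk F j).1.1 ∧ ∀ i < j, ¬ m ≤ (D.walk F i).1.1 :=
      ⟨Nat.find hex, Nat.find_spec hex, fun i hi => Nat.find_min hex hi⟩
    have h0 : (D.walk F 0).1.1 = D.t := rfl
    obtain ⟨j', rfl⟩ : ∃ j', j = j' + 1 := by
      rcases j with _ | j'
      · rw [h0] at hj; omega
      · exact ⟨j', rfl⟩
    have hle : ∀ i ≤ j' + 1, (D.walk F i).1.1 ≤ m := by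
      intro i hi
      rcases i with _ | i
      · rw [h0]; omega
      · have h1 := hmin i (by omega)
        have h2 := nxt_col (D.cfg F) (D.walk F i)
        rw [← clu_walk_succ] at h2
        omega
    have heq : (D.walk F (j' + 1)).1.1 = m := le_antisymm (hle _ le_rfl) hj
    have hin := fun i => walk_in hD hF i
    have hch : ∀ i ≤ j' + 1, Reach ((↑F ∩ ↑(RE D.l m 0 D.h) : Set Edg) ∪ D.wir) (D.t, D.h)
        (D.walk F i).1 := by
      intro i
      induction i with
      | zero => intro _; exact Reach.refl _ _
      | succ i ih =>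
        intro hi
        have h1 := ih (by omega)
        by_cases hc : ae (D.walk F i) ∈ D.cfg F
        · have h2 : (D.walk F (i + 1)).1 = (mv (D.walk F i)).1 := by
            rw [clu_walk_succ, nxt_open hc]
          rw [h2]
          refine h1.trans (Adj.reach ⟨ae (D.walk F i), ?_, p2_ends _⟩)
          rcases hc with hc | hc
          · left
            refine ⟨hc, ?_⟩
            have u1 := hin i
            have u2 := hin (i + 1)
            have v1 := hle i (by omega)
            have v2 := hle (i + 1) hi
            rw [h2] at u2 v2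
            have key : inR D.l m 0 D.h (src (ae (D.walk F i))) ∧
                inR D.l m 0 D.h (tgt (ae (D.walk F i))) := by
              obtain ⟨⟨a1, a2⟩, a3, a4⟩ := u1
              obtain ⟨⟨b1, b2⟩, b3, b4⟩ := u2
              rcases ae_src_tgt (D.walk F i) with ⟨e1, e2⟩ | ⟨e1, e2⟩
              · rw [e1, e2]
                exact ⟨⟨⟨a1, v1⟩, a3, a4⟩, ⟨⟨b1, v2⟩, b3, b4⟩⟩
              · rw [e1, e2]
                exact ⟨⟨⟨b1, v2⟩, b3, b4⟩, ⟨⟨a1, v1⟩, a3, a4⟩⟩
            generalize ae (D.walk F i) = e at key
            obtain ⟨x, y, _ | _⟩ := e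
            · rw [Finset.mem_coe, mem_RE_false]
              obtain ⟨⟨⟨a1, a2⟩, a3, a4⟩, ⟨b1, b2⟩, b3, b4⟩ := key
              simp only [src_mk, tgt_false] at a1 a2 a3 a4 b1 b2 b3 b4
              omega
            · rw [Finset.mem_coe, mem_RE_true]
              obtain ⟨⟨⟨a1, a2⟩, a3, a4⟩, ⟨b1, b2⟩, b3, b4⟩ := key
              simp only [src_mk, tgt_true] at a1 a2 a3 a4 b1 b2 b3 b4
              omega
          · exact Or.inr hc
        · have h2 : (D.walk F (i + 1)).1 = (D.walk F i).1 := by
            rw [clu_walk_succ, nxt_closed hc, p2_rt_fst]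
          rw [h2]
          exact h1
    have hst : ((D.t, D.h) : Vtx) ∈ wa D := Or.inl ⟨rfl, hD.l_le, le_rfl⟩
    obtain ⟨u', hu', hr⟩ := last_wa hD hst (hch _ le_rfl)
    have hyin := hin (j' + 1)
    exact ⟨u', hu', (D.walk F (j' + 1)).1, ⟨heq, hyin.2.1, hyin.2.2⟩, hr⟩
  · rintro ⟨u, hu, v, ⟨hv1, hv2, hv3⟩, hr⟩
    by_contra hcon
    push Not at hcon
    -- the truncated rectangle
    obtain ⟨D', hD'⟩ : ∃ D' : Dm, D' = ⟨D.l, m, D.h, D.t⟩ := ⟨_, rfl⟩
    have el : D'.l = D.l := by rw [hD']
    have er : D'.r = m := by rw [hD']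
    have eh : D'.h = D.h := by rw [hD']
    have et : D'.t = D.t := by rw [hD']
    have ew : D'.wir = D.wir := by
      unfold Dm.wir
      rw [el, eh, et]
    have ewa : wa D' = wa D := by
      unfold wa
      rw [el, eh, et]
    have hok : D'.Ok := ⟨by rw [el]; exact hD.l_neg, by rw [er]; exact hm0,
      by rw [eh]; exact hD.h_pos, by rw [el, et]; exact hD.l_le, by rw [et, er]; omega⟩
    obtain ⟨F', hF'⟩ : ∃ F' : Finset Edg, F' = F ∩ RE D.l m 0 D.h := ⟨_, rfl⟩
    have hF'e : F' ⊆ D'.edges := by
      rw [hF']
      unfold Dm.edges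
      rw [el, er, eh]
      exact Finset.inter_subset_right
    have hst : D'.start = D.start := by
      unfold Dm.start
      rw [eh, et]
    -- the walks agree
    have hag : ∀ k ≤ D.len F, D'.walk F' k = D.walk F k := by
      intro k
      induction k with
      | zero => intro _; exact hst
      | succ k ih =>
        intro hk
        have h1 := ih (by omega)
        have hcol := hcon k (by omega)
        have hcol' := hcon (k + 1) hk
        rw [clu_walk_succ, clu_walk_succ, h1]
        have hiff : ae (D.walk F k) ∈ D'.cfg F' ↔ ae (D.walk F k) ∈ D.cfg F := by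
          unfold Dm.cfg
          rw [ew, hF', Finset.coe_inter]
          constructor
          · rintro (h2 | h2)
            · exact Or.inl h2.1
            · exact Or.inr h2
          · rintro (h2 | h2)
            · left
              refine ⟨h2, ?_⟩
              have h3 := hF (Finset.mem_coe.1 h2)
              have h4 := mv_col (D.walk F k)
              have h5 := ae_src_tgt (D.walk F k)
              generalize ae (D.walk F k) = e at h3 h5
              unfold Dm.edges at h3
              obtain ⟨x, y, _ | _⟩ := e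
              · rw [mem_RE_false] at h3
                rw [Finset.mem_coe, mem_RE_false]
                simp only [src_mk, tgt_false] at h5
                rcases h5 with ⟨e1, e2⟩ | ⟨e1, e2⟩
                · have f1 := congrArg Prod.fst e1
                  simp only at f1
                  omega
                · have f1 := congrArg Prod.fst e1
                  simp only at f1
                  omega
              · rw [mem_RE_true] at h3
                rw [Finset.mem_coe, mem_RE_true]
                simp only [src_mk, tgt_true] at h5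
                rcases h5 with ⟨e1, e2⟩ | ⟨e1, e2⟩
                · have f1 := congrArg Prod.fst e1
                  simp only at f1
                  omega
                · have f1 := congrArg Prod.fst e1
                  simp only at f1
                  omega
            · exact Or.inr h2
        by_cases hc : ae (D.walk F k) ∈ D.cfg F
        · rw [nxt_open hc, nxt_open (hiff.2 hc)]
        · rw [nxt_closed hc, nxt_closed (fun h => hc (hiff.1 h))]
    have hlen : D'.len F' ≤ D.len F := by
      apply Nat.sInf_le
      show D'.walk F' (D.len F) = Dm.stop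
      rw [hag _ le_rfl]
      exact walk_len hD hF
    -- a visited state
    have hclu : v ∈ D'.clu F' := by
      have h1 : Reach (D'.cfg F') (0, 0) u := wa_clu hok F' (by rw [ewa]; exact hu)
      have h2 : Reach (D'.cfg F') u v := by
        refine hr.mono ?_
        rw [hF', Dm.cfg, Finset.coe_inter]
        exact Set.subset_union_left
      exact h1.trans h2
    have hface : face ((v, Q4.ne) : St) ∈ D'.dclu F' := by
      refine outer_dclu ?_ F'
      right; left
      obtain ⟨x, y⟩ := v
      simp only at hv1 hv2 hv3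
      rw [face_ne, er, eh]
      simp only
      omega
    obtain ⟨k, hk, hkv⟩ := visited hok hF'e (σ := (v, Q4.ne)) hclu hface
    have h1 := hcon k (hk.trans hlen)
    rw [hag k (hk.trans hlen)] at hkv
    rw [hkv] at h1
    simp only at h1
    omega

end Pool.Agent.N116.EW
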