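import Pool.Agent.N116.EW.Model

/-!
The exploration path of bond percolation on `δ ℤ²` with an arbitrary parameter in a rectangle, in
its natural parametrisation.

`Rect.curve` (constant speed parametrisation of the path of a configuration), `Rect.time` (number of
steps times `δ ^ (7/4)`), `X` (pairs of a parametrised curve and a number) and `Rect.law` (the law
for `p = 1/2`) are in `Pool.Agent.H984R4.NP.Model`.
-/

set_option autoImplicit false

namespace Pool.Agent.N116.EW

open H974 H984N H984P MeasureTheory Filter Topology Finset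

/-- The law of the exploration path with constant speed and of its natural time at mesh `δ` if every
edge of the rectangle is open with probability `p`. -/
noncomputable def nlawM (R : Rect) (δ : ℝ) (p : unitInterval) : Measure X :=
  ∑ F ∈ (R.dm δ).edges.powerset,
    ENNReal.ofReal ((p : ℝ) ^ F.card * (1 - (p : ℝ)) ^ ((R.dm δ).edges \ F).card) •
      Measure.dirac ((R.curve δ F, R.time δ F) : X)

theorem nlawM_apply (R : Rect) (δ : ℝ) (p : unitInterval) {G : Set X} (hG : MeasurableSet G) :
    nlawM R δ p G =
      ENNReal.ofReal (Pr (fun _ => (p : ℝ)) (R.dm δ).edges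
        (fun F => ((R.curve δ F, R.time δ F) : X) ∈ G)) := by
  classical
  have h0 : 0 ≤ (p : ℝ) := p.2.1
  have h1 : 0 ≤ 1 - (p : ℝ) := by linarith [p.2.2]
  unfold nlawM
  rw [Measure.finsetSum_apply, Pr_pow, ENNReal.ofReal_sum_of_nonneg
    (fun F _ => mul_nonneg (mul_nonneg (pow_nonneg h0 _) (pow_nonneg h1 _)) (ind_nonneg _))]
  apply Finset.sum_congr rfl
  intro F _
  rw [Measure.smul_apply, Measure.dirac_apply' _ hG, smul_eq_mul,
    ENNReal.ofReal_mul (mul_nonneg (pow_nonneg h0 _) (pow_nonneg h1 _))]
  congr 1
  by_cases h : ((R.curve δ F, R.time δ F) : X) ∈ G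
  · rw [ind_of h, Set.indicator_of_mem h]; simp
  · rw [ind_not_of h, Set.indicator_of_notMem h]; simp

theorem nlawM_univ (R : Rect) (δ : ℝ) (p : unitInterval) : nlawM R δ p Set.univ = 1 := by
  rw [nlawM_apply R δ p MeasurableSet.univ,
    Pr_true _ (fun F _ => Set.mem_univ ((R.curve δ F, R.time δ F) : X))]
  simp

/-- The law of the exploration path with constant speed and of its natural time at mesh `δ` and
parameter `p`. -/
noncomputable def nlaw (R : Rect) (δ : ℝ) (p : unitInterval) : ProbabilityMeasure X :=
  ⟨nlawM R δ p, ⟨nlawM_univ R δ p⟩⟩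

/-- At the critical parameter this is `Rect.law`. -/
theorem nlaw_pc (R : Rect) (δ : ℝ) : nlaw R δ pc = R.law δ := by
  apply Subtype.ext
  show nlawM R δ pc = R.lawM δ
  ext G hG
  rw [nlawM_apply R δ pc hG, R.lawM_apply δ hG]
  rfl

end Pool.Agent.N116.EW
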