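import Pool.Agent.N116.EW.NatA
import Pool.Agent.N116.EW.ModelN
import Pool.Agent.N116.EW.Fin

/-!
Project EW (helper116): scaling limits of the path in its natural parametrisation inside the window.
-/

set_option autoImplicit false

namespace Pool.Agent.N116.EW

open H974 H12S H389NS H984N H984P H342P MeasureTheory Filter Topology

/-- The coupled paths with their times: the first one is critical. -/
noncomputable def prN (R : Rect) (δ : ℝ) (b : Bool) (K : Finset (Edg × Bool)) : X × X :=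
  ((R.curve δ (if b then lo b K else up b K), R.time δ (if b then lo b K else up b K)),
    (R.curve δ (if b then up b K else lo b K), R.time δ (if b then up b K else lo b K)))

noncomputable def cplN (R : Rect) (δ η : ℝ) (b : Bool) : Measure (X × X) :=
  ∑ K ∈ (CE (R.dm δ).edges).powerset,
    ENNReal.ofReal (wK η (R.dm δ).edges K) • Measure.dirac (prN R δ b K)

theorem cplN_apply (R : Rect) (δ : ℝ) {η : ℝ} (h0 : 0 ≤ η) (h1 : η ≤ 1) (b : Bool)
    {A : Set (X × X)} (hA : MeasurableSet A) :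
    cplN R δ η b A =
      ENNReal.ofReal (Pr (cw η) (CE (R.dm δ).edges) (fun K => prN R δ b K ∈ A)) := by
  classical
  have e0 : Pr (cw η) (CE (R.dm δ).edges) (fun K => prN R δ b K ∈ A) =
      ∑ K ∈ (CE (R.dm δ).edges).powerset, wK η (R.dm δ).edges K * ind (prN R δ b K ∈ A) := rfl
  rw [e0, ENNReal.ofReal_sum_of_nonneg
    (fun K _ => mul_nonneg (wK_nonneg h0 h1 _ K) (ind_nonneg _))]
  unfold cplN
  rw [Measure.finsetSum_apply]
  apply Finset.sum_congr rfl
  intro K _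
  rw [Measure.smul_apply, Measure.dirac_apply' _ hA, smul_eq_mul,
    ENNReal.ofReal_mul (wK_nonneg h0 h1 _ K)]
  congr 1
  by_cases h : prN R δ b K ∈ A
  · rw [ind_of h, Set.indicator_of_mem h]; simp
  · rw [ind_not_of h, Set.indicator_of_notMem h]; simp

theorem cplN_fst (R : Rect) (δ : ℝ) {η : ℝ} (h0 : 0 ≤ η) (h1 : η ≤ 1) (b : Bool) :
    (cplN R δ η b).map Prod.fst = nlawM R δ pc := by
  ext G hG
  rw [Measure.map_apply measurable_fst hG, cplN_apply R δ h0 h1 b (measurable_fst hG),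
    nlawM_apply R δ pc hG]
  congr 1
  cases b
  · have h := PC_up false η (R.dm δ).edges (fun F => ((R.curve δ F, R.time δ F) : X) ∈ G)
    simp only [Bool.false_eq_true, if_false] at h
    exact h
  · have h := PC_lo true η (R.dm δ).edges (fun F => ((R.curve δ F, R.time δ F) : X) ∈ G)
    simp only [if_true] at h
    exact h

theorem cplN_snd (R : Rect) (δ : ℝ) {η : ℝ} (h0 : 0 ≤ η) (h1 : η ≤ 1) (b : Bool)
    {p : unitInterval} (hp : (p : ℝ) = op b η) :
    (cplN R δ η b).map Prod.snd = nlawM R δ p := by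
  ext G hG
  rw [Measure.map_apply measurable_snd hG, cplN_apply R δ h0 h1 b (measurable_snd hG),
    nlawM_apply R δ p hG, hp]
  congr 1
  cases b
  · have h := PC_lo false η (R.dm δ).edges (fun F => ((R.curve δ F, R.time δ F) : X) ∈ G)
    simp only [Bool.false_eq_true, if_false] at h
    exact h
  · have h := PC_up true η (R.dm δ).edges (fun F => ((R.curve δ F, R.time δ F) : X) ∈ G)
    simp only [if_true] at h
    exact h

theorem cplN_far (R : Rect) (δ : ℝ) {η : ℝ} (h0 : 0 ≤ η) (h1 : η ≤ 1) (b : Bool) (r : ℝ) :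
    cplN R δ η b {q | r < dist q.1 q.2} = ENNReal.ofReal (PC b η (R.dm δ).edges
      (fun F G => r < dist ((R.curve δ F, R.time δ F) : X) (R.curve δ G, R.time δ G))) := by
  rw [cplN_apply R δ h0 h1 b (meas_far r)]
  have h3 : Pr (cw η) (CE (R.dm δ).edges) (fun K => prN R δ b K ∈ {q | r < dist q.1 q.2}) =
      Pr (cw η) (CE (R.dm δ).edges) (fun K =>
        r < dist ((R.curve δ (lo b K), R.time δ (lo b K)) : X)
          (R.curve δ (up b K), R.time δ (up b K))) := by
    apply Pr_congr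
    intro K _
    cases b
    · simp only [prN, Set.mem_ofPred_eq, Bool.false_eq_true, if_false]
      rw [dist_comm]
    · simp only [prN, Set.mem_ofPred_eq, if_true]
  rw [h3]
  unfold PC
  rfl

/-- **The coupling in the natural parametrisation.** -/
theorem natC (hSUM : S_SUM) (hLOC : S_LOC) (hONE : S_ONE) (R : Rect) (hHOL : S_HOL R)
    (r ε : ℝ) (hr : 0 < r) (hε : 0 < ε) : ∃ δ1 t : ℝ, 0 < δ1 ∧ 0 < t ∧
    ∀ δ : ℝ, 0 < δ → δ ≤ δ1 → ∀ p : unitInterval,
      |(p : ℝ) - 1 / 2| * δ ^ (-(3 / 4) : ℝ) ≤ t → ∃ π : Measure (X × X),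
      π.map Prod.fst = nlaw R δ pc ∧ π.map Prod.snd = nlaw R δ p ∧
        π {q | r < dist q.1 q.2} ≤ ENNReal.ofReal ε := by
  obtain ⟨δ1, t, hδ1, ht, h⟩ := far_nat hSUM hLOC hONE R hHOL hr hε
  refine ⟨δ1, t / 2, hδ1, by positivity, ?_⟩
  intro δ hδ hle p hp
  obtain ⟨b, η, hη0, hη1, hpb, hη⟩ := par p
  refine ⟨cplN R δ η b, cplN_fst R δ hη0 hη1 b, cplN_snd R δ hη0 hη1 b hpb, ?_⟩
  rw [cplN_far R δ hη0 hη1 b r]
  apply ENNReal.ofReal_le_ofReal
  refine h δ η hδ hle hη0 hη1 ?_ b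
  rw [hη]
  linarith

/-- A diagonal choice of couplings. -/
theorem diag {Ω : Type*} [PseudoMetricSpace Ω] [MeasurableSpace Ω] [BorelSpace Ω]
    [SecondCountableTopology Ω] {μ ν : ℕ → ProbabilityMeasure Ω}
    (h : ∀ r ε : ℝ, 0 < r → 0 < ε → ∀ᶠ i in atTop, ∃ π : Measure (Ω × Ω),
      π.map Prod.fst = μ i ∧ π.map Prod.snd = ν i ∧
        π {q | r < dist q.1 q.2} ≤ ENNReal.ofReal ε)
    {μ0 : ProbabilityMeasure Ω} (hμ : Tendsto μ atTop (𝓝 μ0)) : Tendsto ν atTop (𝓝 μ0) := by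
  classical
  -- the least `1 / (k + 1)` which works
  have hm : ∀ k : ℕ, ∃ N : ℕ, ∀ i ≥ N, ∃ π : Measure (Ω × Ω),
      π.map Prod.fst = μ i ∧ π.map Prod.snd = ν i ∧
        π {q | 1 / ((k : ℝ) + 1) < dist q.1 q.2} ≤ ENNReal.ofReal (1 / ((k : ℝ) + 1)) := fun k =>
    eventually_atTop.1 (h (1 / ((k : ℝ) + 1)) (1 / ((k : ℝ) + 1)) (by positivity) (by positivity))
  choose N hN using hm
  -- the best level at time `i`
  obtain ⟨kk, hkk⟩ : ∃ kk : ℕ → ℕ, ∀ i, kk i = Nat.findGreatest (fun k => N k ≤ i) i :=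
    ⟨fun i => Nat.findGreatest (fun k => N k ≤ i) i, fun i => rfl⟩
  have hkt : Tendsto kk atTop atTop := by
    rw [tendsto_atTop_atTop]
    intro k
    refine ⟨max k (N k), fun i hi => ?_⟩
    rw [hkk]
    exact Nat.le_findGreatest (le_trans (le_max_left _ _) hi) (le_trans (le_max_right _ _) hi)
  have hex : ∀ i, ∃ π : Measure (Ω × Ω), N 0 ≤ i → π.map Prod.fst = μ i ∧
      π.map Prod.snd = ν i ∧
        π {q | 1 / ((kk i : ℝ) + 1) < dist q.1 q.2} ≤ ENNReal.ofReal (1 / ((kk i : ℝ) + 1)) := by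
    intro i
    by_cases h0 : N 0 ≤ i
    · have h1 : N (kk i) ≤ i := by
        rw [hkk]
        exact Nat.findGreatest_spec (P := fun k => N k ≤ i) (Nat.zero_le i) h0
      obtain ⟨π, hπ⟩ := hN (kk i) i h1
      exact ⟨π, fun _ => hπ⟩
    · exact ⟨0, fun h1 => absurd h1 h0⟩
  choose π hπ using hex
  rw [← tendsto_add_atTop_iff_nat (N 0)] at hμ ⊢
  refine slutsky (π := fun i => π (i + N 0)) (fun i => (hπ (i + N 0) (by omega)).1)
    (fun i => (hπ (i + N 0) (by omega)).2.1) ?_ hμ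
  intro r hr
  rw [tendsto_add_atTop_iff_nat (f := fun i => π i {q : Ω × Ω | r < dist q.1 q.2}) (N 0)]
  have hz : Tendsto (fun i => ENNReal.ofReal (1 / ((kk i : ℝ) + 1))) atTop (𝓝 0) := by
    rw [← ENNReal.ofReal_zero]
    apply (ENNReal.continuous_ofReal.tendsto 0).comp
    exact tendsto_one_div_add_atTop_nhds_zero_nat.comp hkt
  apply tendsto_of_tendsto_of_tendsto_of_le_of_le' tendsto_const_nhds hz
    (Eventually.of_forall fun i => zero_le)
  have h2 : ∀ᶠ i in atTop, 1 / ((kk i : ℝ) + 1) < r :=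
    (tendsto_one_div_add_atTop_nhds_zero_nat.comp hkt).eventually (gt_mem_nhds hr)
  filter_upwards [h2, eventually_ge_atTop (N 0)] with i h3 h4
  refine le_trans (measure_mono ?_) (hπ i h4).2.2
  intro q hq
  exact lt_trans h3 hq

theorem swap_cpl {Ω : Type*} [PseudoMetricSpace Ω] [MeasurableSpace Ω] [BorelSpace Ω]
    [SecondCountableTopology Ω] {μ ν : Measure Ω} {r : ℝ} {e : ENNReal}
    (h : ∃ π : Measure (Ω × Ω), π.map Prod.fst = μ ∧ π.map Prod.snd = ν ∧
        π {q | r < dist q.1 q.2} ≤ e) :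
    ∃ π : Measure (Ω × Ω), π.map Prod.fst = ν ∧ π.map Prod.snd = μ ∧
        π {q | r < dist q.1 q.2} ≤ e := by
  obtain ⟨π, h1, h2, h3⟩ := h
  refine ⟨π.map Prod.swap, ?_, ?_, ?_⟩
  · rw [Measure.map_map measurable_fst measurable_swap]
    exact h2
  · rw [Measure.map_map measurable_snd measurable_swap]
    exact h1
  · rw [Measure.map_apply measurable_swap (meas_far r)]
    refine le_trans (le_of_eq ?_) h3
    congr 1
    ext q
    simp only [Set.mem_ofPred_eq, Set.mem_preimage, Prod.fst_swap, Prod.snd_swap]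
    rw [dist_comm]

/-- **Part 3 in the natural parametrisation.** -/
theorem part3N (hSUM : S_SUM) (hLOC : S_LOC) (hONE : S_ONE) (R : Rect) (hHOL : S_HOL R)
    (δ : ℕ → ℝ) (p : ℕ → unitInterval)
    (hδ : ∀ i, 0 < δ i) (hδ0 : Tendsto δ atTop (𝓝 0))
    (hp : Tendsto (fun i => |(p i : ℝ) - 1 / 2| * (δ i) ^ (-(3 / 4) : ℝ)) atTop (𝓝 0))
    (μ : ProbabilityMeasure X) :
    Tendsto (fun i => nlaw R (δ i) pc) atTop (𝓝 μ) ↔
      Tendsto (fun i => nlaw R (δ i) (p i)) atTop (𝓝 μ) := by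
  have h : ∀ r ε : ℝ, 0 < r → 0 < ε → ∀ᶠ i in atTop, ∃ π : Measure (X × X),
      π.map Prod.fst = nlaw R (δ i) pc ∧ π.map Prod.snd = nlaw R (δ i) (p i) ∧
        π {q | r < dist q.1 q.2} ≤ ENNReal.ofReal ε := by
    intro r ε hr hε
    obtain ⟨δ1, t, hδ1, ht, h1⟩ := natC hSUM hLOC hONE R hHOL r ε hr hε
    filter_upwards [hδ0.eventually (ge_mem_nhds hδ1), hp.eventually (ge_mem_nhds ht)] with i i1 i2
    exact h1 (δ i) (hδ i) i1 (p i) i2
  constructor
  · intro ht
    exact diag h ht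
  · intro ht
    refine diag (fun r ε hr hε => ?_) ht
    filter_upwards [h r ε hr hε] with i hi
    exact swap_cpl hi

end Pool.Agent.N116.EW
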