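import Pool.Agent.N116.EW.Far
import Pool.Agent.N116.EW.NatB

/-!
Project EW (helper116): the two sequences of laws have the same limits if and only if the parameter
is inside the window.
-/

set_option autoImplicit false

namespace Pool.Agent.N116.EW

open H974 H12S H389NS H984N H984P H342P MeasureTheory Filter Topology
open H342L (cdist Curve)

/-- Forget the parametrisation and the time. -/
def fc (x : X) : Curve := ⟨x.1⟩

theorem fc_cont : Continuous fc := mk_cont.comp continuous_fst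

theorem law_map (R : Rect) (δ : ℝ) (p : unitInterval) :
    (nlaw R δ p).map fc_cont.measurable.aemeasurable = law R δ p := by
  apply Subtype.ext
  show (nlawM R δ p).map fc = lawM R δ p
  ext G hG
  rw [Measure.map_apply fc_cont.measurable hG, nlawM_apply R δ p (fc_cont.measurable hG),
    lawM_apply R δ p hG]
  rfl

theorem map_lim {ν : ℕ → ProbabilityMeasure X} {M : ProbabilityMeasure X}
    (h : Tendsto ν atTop (𝓝 M)) :
    Tendsto (fun i => (ν i).map fc_cont.measurable.aemeasurable) atTop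
      (𝓝 (M.map fc_cont.measurable.aemeasurable)) :=
  ProbabilityMeasure.tendsto_map_of_tendsto_of_continuous ν M h fc_cont

/-- A subsequence on which the parameter stays at distance of the window and the critical laws
converge. -/
theorem extract (R : Rect)
    (htight : ∀ δ : ℕ → ℝ, (∀ i, 0 < δ i) → Tendsto δ atTop (𝓝 0) →
      ∃ φ : ℕ → ℕ, StrictMono φ ∧ ∃ μ : ProbabilityMeasure X,
        Tendsto (fun i => R.law (δ (φ i))) atTop (𝓝 μ))
    (δ : ℕ → ℝ) (p : ℕ → unitInterval) (hδ : ∀ i, 0 < δ i) (hδ0 : Tendsto δ atTop (𝓝 0))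
    (hp : ¬ Tendsto (fun i => |(p i : ℝ) - 1 / 2| * (δ i) ^ (-(3 / 4) : ℝ)) atTop (𝓝 0)) :
    ∃ (lam : ℝ) (φ : ℕ → ℕ) (M : ProbabilityMeasure X), 0 < lam ∧ StrictMono φ ∧
      (∀ i, lam ≤ |(p (φ i) : ℝ) - 1 / 2| * (δ (φ i)) ^ (-(3 / 4) : ℝ)) ∧
      Tendsto (fun i => nlaw R (δ (φ i)) pc) atTop (𝓝 M) := by
  rw [Metric.tendsto_atTop] at hp
  push Not at hp
  obtain ⟨lam, hlam, hN⟩ := hp
  have hfr : ∃ᶠ i in atTop, lam ≤ |(p i : ℝ) - 1 / 2| * (δ i) ^ (-(3 / 4) : ℝ) := by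
    rw [frequently_atTop]
    intro N
    obtain ⟨i, hi, h1⟩ := hN N
    refine ⟨i, hi, ?_⟩
    rw [Real.dist_eq, sub_zero, abs_of_nonneg (mul_nonneg (abs_nonneg _)
      (Real.rpow_nonneg (hδ i).le _))] at h1
    exact h1
  obtain ⟨φ, hφ, h1⟩ := extraction_of_frequently_atTop hfr
  obtain ⟨ψ, hψ, M, hM⟩ := htight (fun i => δ (φ i)) (fun i => hδ _)
    (hδ0.comp hφ.tendsto_atTop)
  refine ⟨lam, fun i => φ (ψ i), M, hlam, hφ.comp hψ, fun i => h1 (ψ i), ?_⟩
  refine hM.congr fun i => ?_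
  rw [nlaw_pc]

/-- **The window.** -/
theorem window (hSUM : S_SUM) (hPL : S_PL) (hLOC : S_LOC) (hONE : S_ONE) (hSEP : S_SEP) (R : Rect)
    (hHOL : S_HOL R) (htight : ∀ δ : ℕ → ℝ, (∀ i, 0 < δ i) → Tendsto δ atTop (𝓝 0) →
      ∃ φ : ℕ → ℕ, StrictMono φ ∧ ∃ μ : ProbabilityMeasure X,
        Tendsto (fun i => R.law (δ (φ i))) atTop (𝓝 μ))
    (δ : ℕ → ℝ) (p : ℕ → unitInterval) (hδ : ∀ i, 0 < δ i) (hδ0 : Tendsto δ atTop (𝓝 0)) :
    (Tendsto (fun i => |(p i : ℝ) - 1 / 2| * (δ i) ^ (-(3 / 4) : ℝ)) atTop (𝓝 0) ↔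
      ∀ (φ : ℕ → ℕ), StrictMono φ → ∀ μ : ProbabilityMeasure Curve,
        (Tendsto (fun i => law R (δ (φ i)) pc) atTop (𝓝 μ) ↔
          Tendsto (fun i => law R (δ (φ i)) (p (φ i))) atTop (𝓝 μ))) ∧
    (Tendsto (fun i => |(p i : ℝ) - 1 / 2| * (δ i) ^ (-(3 / 4) : ℝ)) atTop (𝓝 0) ↔
      ∀ (φ : ℕ → ℕ), StrictMono φ → ∀ μ : ProbabilityMeasure X,
        (Tendsto (fun i => nlaw R (δ (φ i)) pc) atTop (𝓝 μ) ↔
          Tendsto (fun i => nlaw R (δ (φ i)) (p (φ i))) atTop (𝓝 μ))) := by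
  have main : ∀ (lam : ℝ) (φ : ℕ → ℕ) (M : ProbabilityMeasure X), 0 < lam → StrictMono φ →
      (∀ i, lam ≤ |(p (φ i) : ℝ) - 1 / 2| * (δ (φ i)) ^ (-(3 / 4) : ℝ)) →
      Tendsto (fun i => nlaw R (δ (φ i)) pc) atTop (𝓝 M) →
      ¬ Tendsto (fun i => law R (δ (φ i)) (p (φ i))) atTop
        (𝓝 (M.map fc_cont.measurable.aemeasurable)) := by
    intro lam φ M hlam hφ hl hM ht
    have h1 := map_lim hM
    simp only [law_map] at h1
    exact part5 hSEP R (fun i => δ (φ i)) (fun i => p (φ i)) (fun i => hδ _)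
      (hδ0.comp hφ.tendsto_atTop) hlam hl h1 ht
  constructor
  · constructor
    · intro hp φ hφ μ
      exact part3 hSUM hPL R (fun i => δ (φ i)) (fun i => p (φ i)) (fun i => hδ _)
        (hδ0.comp hφ.tendsto_atTop) (hp.comp hφ.tendsto_atTop) μ
    · intro h
      by_contra hp
      obtain ⟨lam, φ, M, hlam, hφ, hl, hM⟩ := extract R htight δ p hδ hδ0 hp
      apply main lam φ M hlam hφ hl hM
      have h1 := map_lim hM
      simp only [law_map] at h1
      exact (h φ hφ _).1 h1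
  · constructor
    · intro hp φ hφ μ
      exact part3N hSUM hLOC hONE R hHOL (fun i => δ (φ i)) (fun i => p (φ i)) (fun i => hδ _)
        (hδ0.comp hφ.tendsto_atTop) (hp.comp hφ.tendsto_atTop) μ
    · intro h
      by_contra hp
      obtain ⟨lam, φ, M, hlam, hφ, hl, hM⟩ := extract R htight δ p hδ hδ0 hp
      apply main lam φ M hlam hφ hl hM
      have h1 := map_lim ((h φ hφ M).1 hM)
      simp only [law_map] at h1
      exact h1

end Pool.Agent.N116.EW
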