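import Pool.Agent.N116.EW.Far

/-!
Project EW (helper116): every coupling of the paths at `1/2` and at `p` moves them by at least a
constant times `min(1, |p - 1/2| δ^(-3/4))`.
-/

set_option autoImplicit false

namespace Pool.Agent.N116.EW

open H974 H12S H389NS H984N H984P H342P MeasureTheory Filter Topology
open H342L (cdist Curve)

/-- The path reaches the column `m`. -/
def Rc (D : Dm) (m : ℤ) (F : Finset Edg) : Prop := ∃ k ≤ D.len F, m ≤ (D.walk F k).1.1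

theorem Rc_anti {D : Dm} {m m' : ℤ} (h : m ≤ m') {F : Finset Edg} (hR : Rc D m' F) :
    Rc D m F := by
  obtain ⟨k, hk, hk'⟩ := hR
  exact ⟨k, hk, h.trans hk'⟩

/-- The columns right of `max t 0`. -/
noncomputable def cls (D : Dm) : Finset ℤ := Finset.Ioc (max D.t 0) D.r

/-- The number of columns reached (right of `max t 0`). -/
noncomputable def nc (D : Dm) (F : Finset Edg) : ℝ := ∑ m ∈ cls D, ind (Rc D m F)

/-- The last column which is reached. -/
theorem nc_eq {D : Dm} (hD : D.Ok) {F : Finset Edg} (hF : F ⊆ D.edges) :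
    ∃ M : ℤ, max D.t 0 ≤ M ∧ M ≤ D.r ∧ Rc D M F ∧ ¬ Rc D (M + 1) F ∧
      nc D F = ((M - max D.t 0 : ℤ) : ℝ) := by
  classical
  have hlen := walk_len hD hF
  have h0 : Rc D (max D.t 0) F := by
    rcases max_choice D.t 0 with h | h
    · rw [h]
      exact ⟨0, Nat.zero_le _, le_rfl⟩
    · rw [h]
      refine ⟨D.len F, le_rfl, ?_⟩
      rw [hlen]
      exact le_rfl
  have hr : ¬ Rc D (D.r + 1) F := by
    rintro ⟨k, -, hk⟩
    have := (walk_in hD hF k).1.2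
    omega
  -- the last column
  obtain ⟨M, hM1, hM2, hM3⟩ : ∃ M : ℤ, max D.t 0 ≤ M ∧ Rc D M F ∧ ¬ Rc D (M + 1) F := by
    by_contra hcon
    push Not at hcon
    have : ∀ j : ℕ, Rc D (max D.t 0 + j) F := by
      intro j
      induction j with
      | zero => simpa using h0
      | succ j ih =>
        have := hcon (max D.t 0 + j) (by omega) ih
        rwa [Nat.cast_succ, ← add_assoc]
    have h1 := this (D.r + 1 - max D.t 0).toNat
    apply hr
    exact Rc_anti (by omega) h1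
  have hMr : M ≤ D.r := by
    by_contra hcon
    push Not at hcon
    exact hr (Rc_anti (by omega) hM2)
  refine ⟨M, hM1, hMr, hM2, hM3, ?_⟩
  unfold nc
  have h1 : ∀ m ∈ cls D, ind (Rc D m F) = if m ≤ M then (1 : ℝ) else 0 := by
    intro m _
    by_cases h : m ≤ M
    · rw [if_pos h, ind_of (Rc_anti h hM2)]
    · rw [if_neg h, ind_not_of (fun hc => hM3 (Rc_anti (by omega) hc))]
  rw [Finset.sum_congr rfl h1, ← Finset.sum_filter, Finset.sum_const, nsmul_eq_mul, mul_one]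
  have h2 : (cls D).filter (fun m => m ≤ M) = Finset.Ioc (max D.t 0) M := by
    ext m
    rw [Finset.mem_filter, cls, Finset.mem_Ioc, Finset.mem_Ioc]
    omega
  rw [h2, Int.card_Ioc]
  have h3 : (((M - max D.t 0).toNat : ℕ) : ℤ) = M - max D.t 0 := by omega
  exact_mod_cast h3

/-- The rightmost point and the number of columns. -/
theorem fre_nc (R : Rect) {δ : ℝ} (hδ : 0 < δ) (hD : (R.dm δ).Ok) {F : Finset Edg}
    (hF : F ⊆ (R.dm δ).edges) :
    δ * (((max (R.dm δ).t 0 : ℤ) : ℝ) + nc (R.dm δ) F - 1 / 4) ≤ fre ⟨R.curve δ F⟩ ∧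
    fre ⟨R.curve δ F⟩ ≤ δ * (((max (R.dm δ).t 0 : ℤ) : ℝ) + nc (R.dm δ) F + 1 / 4) := by
  obtain ⟨M, h1, h2, h3, h4, h5⟩ := nc_eq hD hF
  have a1 := curve_reach R hδ hD hF h3
  have a2 := curve_not_reach R hδ hD hF h4
  have e : ((max (R.dm δ).t 0 : ℤ) : ℝ) + nc (R.dm δ) F = (M : ℝ) := by
    rw [h5, Int.cast_sub]
    ring
  rw [e]
  refine ⟨a1, a2.trans (le_of_eq ?_)⟩
  push_cast
  ring

/-- Expectations for different parameters. -/
theorem Ex_nc (D : Dm) (q : ℝ) :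
    Ex (fun _ => q) D.edges (nc D) = ∑ m ∈ cls D, Pr (fun _ => q) D.edges (Rc D m) := by
  unfold Pr
  rw [← Ex_sum]
  rfl

theorem Pr_Rc {D : Dm} (hD : D.Ok) {m : ℤ} (hm : m ∈ cls D) (q : ℝ) :
    Pr (fun _ => q) D.edges (Rc D m) = Pr (fun _ => q) D.edges (KM D m) := by
  unfold cls at hm
  rw [Finset.mem_Ioc] at hm
  apply Pr_congr
  intro F hF
  exact hit D hD m hm.1 hm.2 F hF

theorem KM_mono {D : Dm} {m : ℤ} {F G : Finset Edg} (hFG : F ⊆ G) (hK : KM D m F) :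
    KM D m G := by
  obtain ⟨u, hu, v, hv, h⟩ := hK
  refine ⟨u, hu, v, hv, h.mono ?_⟩
  exact Set.inter_subset_inter_left _ (by exact_mod_cast hFG)

/-- Comparison of the mean numbers of columns. -/
theorem nc_cmp {D : Dm} (hD : D.Ok) {q0 q1 : ℝ} (h0 : 0 ≤ q0) (h01 : q0 ≤ q1) (h1 : q1 ≤ 1)
    {y x : ℝ} (hx : 0 ≤ x) (hr : ((max D.t 0 : ℤ) : ℝ) + 3 * y ≤ D.r)
    (hy : 1 ≤ y) (h : ∀ m : ℤ, ((max D.t 0 : ℤ) : ℝ) + y ≤ m → m ≤ D.r →
      Pr (fun _ => q0) D.edges (KM D m) + x ≤ Pr (fun _ => q1) D.edges (KM D m)) :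
    y * x ≤ Ex (fun _ => q1) D.edges (nc D) - Ex (fun _ => q0) D.edges (nc D) := by
  classical
  rw [Ex_nc, Ex_nc, ← Finset.sum_sub_distrib]
  obtain ⟨A, hA⟩ : ∃ A : Finset ℤ, A = Finset.Ioc (max D.t 0 + ⌈y⌉) D.r := ⟨_, rfl⟩
  have hAs : A ⊆ cls D := by
    intro m hm
    rw [hA, Finset.mem_Ioc] at hm
    rw [cls, Finset.mem_Ioc]
    have : 0 ≤ ⌈y⌉ := Int.ceil_nonneg (by linarith)
    omega
  have hAm : ∀ m ∈ A, ((max D.t 0 : ℤ) : ℝ) + y ≤ m ∧ m ≤ D.r := by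
    intro m hm
    rw [hA, Finset.mem_Ioc] at hm
    have h1 : ((max D.t 0 + ⌈y⌉ : ℤ) : ℝ) ≤ m := by exact_mod_cast hm.1.le
    rw [Int.cast_add] at h1
    have h2 := Int.le_ceil y
    exact ⟨by linarith, hm.2⟩
  have hAc : y ≤ (A.card : ℝ) := by
    rw [hA, Int.card_Ioc]
    have h2 : ((⌈y⌉ : ℤ) : ℝ) < y + 1 := Int.ceil_lt_add_one _
    have h3 : y ≤ ((D.r - (max D.t 0 + ⌈y⌉) : ℤ) : ℝ) := by
      rw [Int.cast_sub, Int.cast_add]
      linarith
    refine h3.trans ?_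
    exact_mod_cast Int.self_le_toNat _
  have hmono : ∀ m ∈ cls D, Pr (fun _ => q0) D.edges (Rc D m) ≤
      Pr (fun _ => q1) D.edges (Rc D m) := by
    intro m hm
    rw [Pr_Rc hD hm, Pr_Rc hD hm]
    exact Pr_mono_param (fun _ => ⟨h0, h01.trans h1⟩) (fun _ => ⟨h0.trans h01, h1⟩)
      (fun _ => h01) (fun F G hFG _ hK => KM_mono hFG hK)
  calc y * x ≤ (A.card : ℝ) * x := mul_le_mul_of_nonneg_right hAc hx
    _ = ∑ _m ∈ A, x := by rw [Finset.sum_const, nsmul_eq_mul]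
    _ ≤ ∑ m ∈ A, (Pr (fun _ => q1) D.edges (Rc D m) - Pr (fun _ => q0) D.edges (Rc D m)) := by
        apply Finset.sum_le_sum
        intro m hm
        rw [Pr_Rc hD (hAs hm), Pr_Rc hD (hAs hm)]
        have := h m (hAm m hm).1 (hAm m hm).2
        linarith
    _ ≤ _ := Finset.sum_le_sum_of_subset_of_nonneg hAs
        (fun m hm _ => by linarith [hmono m hm])

/-- The mean number of columns moves by a constant times `n`. -/
theorem nc_gap (hSEP : S_SEP) {κ : ℝ} (hκ : 0 < κ) : ∃ c : ℝ, 0 < c ∧ ∀ (n : ℝ) (D : Dm), 1 ≤ n →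
    D.Shape κ n → ((max D.t 0 : ℤ) : ℝ) + 3 * (κ * n) ≤ D.r → 1 ≤ κ * n → ∀ q : ℝ, 0 ≤ q → q ≤ 1 →
    c * n * min 1 (|q - 1 / 2| * n ^ (3 / 4 : ℝ)) ≤
      |Ex (fun _ => q) D.edges (nc D) - Ex (fun _ => (1 / 2 : ℝ)) D.edges (nc D)| := by
  obtain ⟨c, hc, hsep⟩ := hSEP κ hκ
  refine ⟨c * κ, by positivity, ?_⟩
  intro n D hn hs hr hκn q hq0 hq1
  rcases le_total (1 / 2) q with hq | hq
  · have h1 := nc_cmp hs.ok (q0 := 1 / 2) (q1 := q) (by norm_num) hq hq1 (y := κ * n)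
      (x := c * min 1 ((q - 1 / 2) * n ^ (3 / 4 : ℝ)))
      (mul_nonneg hc.le (le_min zero_le_one (mul_nonneg (by linarith) (by positivity)))) hr hκn
      (fun m hm hmr => (hsep n D hn hs m hm hmr q hq0 hq1).1 hq)
    rw [abs_of_nonneg (by linarith : 0 ≤ q - 1 / 2)]
    refine le_trans (le_of_eq ?_) (h1.trans (le_abs_self _))
    ring
  · have h1 := nc_cmp hs.ok (q0 := q) (q1 := 1 / 2) hq0 hq (by norm_num) (y := κ * n)
      (x := c * min 1 ((1 / 2 - q) * n ^ (3 / 4 : ℝ)))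
      (mul_nonneg hc.le (le_min zero_le_one (mul_nonneg (by linarith) (by positivity)))) hr hκn
      (fun m hm hmr => (hsep n D hn hs m hm hmr q hq0 hq1).2 hq)
    rw [abs_of_nonpos (by linarith : q - 1 / 2 ≤ 0), neg_sub, abs_sub_comm]
    refine le_trans (le_of_eq ?_) (h1.trans (le_abs_self _))
    ring

/-! ### Couplings -/

/-- Integrals of functions of the path. -/
theorem law_int (R : Rect) (δ : ℝ) (p : unitInterval) {f : Curve → ℝ} (hf : Measurable f) :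
    ∫ γ, f γ ∂(law R δ p : Measure Curve) =
      Ex (fun _ => (p : ℝ)) (R.dm δ).edges (fun F => f ⟨R.curve δ F⟩) := by
  classical
  have h0 : 0 ≤ (p : ℝ) := p.2.1
  have h1 : 0 ≤ 1 - (p : ℝ) := by linarith [p.2.2]
  have hw : ∀ F : Finset Edg,
      0 ≤ (p : ℝ) ^ F.card * (1 - (p : ℝ)) ^ ((R.dm δ).edges \ F).card :=
    fun F => mul_nonneg (pow_nonneg h0 _) (pow_nonneg h1 _)
  show ∫ γ, f γ ∂(lawM R δ p) = _
  unfold lawM
  have hint : ∀ F ∈ (R.dm δ).edges.powerset, Integrable f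
      (ENNReal.ofReal ((p : ℝ) ^ F.card * (1 - (p : ℝ)) ^ ((R.dm δ).edges \ F).card) •
        Measure.dirac (⟨R.curve δ F⟩ : Curve)) := by
    intro F _
    apply Integrable.smul_measure _ ENNReal.ofReal_ne_top
    exact integrable_dirac' hf.stronglyMeasurable (by simp)
  rw [integral_finsetSum_measure hint]
  unfold Ex
  apply Finset.sum_congr rfl
  intro F _
  rw [integral_smul_measure, integral_dirac' _ _ hf.stronglyMeasurable,
    ENNReal.toReal_ofReal (hw F), Finset.prod_const, Finset.prod_const]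
  rfl

theorem law_integrable (R : Rect) (δ : ℝ) (p : unitInterval) {f : Curve → ℝ}
    (hf : Measurable f) : Integrable f (law R δ p : Measure Curve) := by
  classical
  show Integrable f (lawM R δ p)
  unfold lawM
  rw [integrable_finsetSum_measure]
  intro F _
  apply Integrable.smul_measure _ ENNReal.ofReal_ne_top
  exact integrable_dirac' hf.stronglyMeasurable (by simp)

/-- The mean of the rightmost point. -/
theorem fre_mean (R : Rect) {δ : ℝ} (hδ : 0 < δ) (hD : (R.dm δ).Ok) (p : unitInterval) :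
    |∫ γ, fre γ ∂(law R δ p : Measure Curve) - δ * (((max (R.dm δ).t 0 : ℤ) : ℝ) +
      Ex (fun _ => (p : ℝ)) (R.dm δ).edges (nc (R.dm δ)))| ≤ δ / 4 := by
  have hok : Ok (fun _ : Edg => (p : ℝ)) := fun _ => p.2
  rw [law_int R δ p fre_cont.measurable]
  obtain ⟨T, hT⟩ : ∃ T : ℝ, T = ((max (R.dm δ).t 0 : ℤ) : ℝ) := ⟨_, rfl⟩
  have e : ∀ s : ℝ, Ex (fun _ => (p : ℝ)) (R.dm δ).edges (fun F => δ * (T + nc (R.dm δ) F + s)) =
      δ * (T + Ex (fun _ => (p : ℝ)) (R.dm δ).edges (nc (R.dm δ)) + s) := by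
    intro s
    rw [Ex_mul_left]
    congr 1
    rw [Ex_add, Ex_add, Ex_const, Ex_const]
  have h1 : Ex (fun _ => (p : ℝ)) (R.dm δ).edges (fun F => δ * (T + nc (R.dm δ) F + -(1 / 4))) ≤
      Ex (fun _ => (p : ℝ)) (R.dm δ).edges (fun F => fre ⟨R.curve δ F⟩) := by
    apply Ex_mono hok
    intro F hF
    have := (fre_nc R hδ hD hF).1
    rw [← hT] at this
    linarith
  have h2 : Ex (fun _ => (p : ℝ)) (R.dm δ).edges (fun F => fre ⟨R.curve δ F⟩) ≤
      Ex (fun _ => (p : ℝ)) (R.dm δ).edges (fun F => δ * (T + nc (R.dm δ) F + 1 / 4)) := by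
    apply Ex_mono hok
    intro F hF
    have := (fre_nc R hδ hD hF).2
    rw [← hT] at this
    linarith
  rw [e] at h1 h2
  rw [← hT, abs_le]
  constructor
  · nlinarith
  · nlinarith

/-- **Part 6**: every coupling. -/
theorem kan (hSEP : S_SEP) (R : Rect) : ∃ c δ0 : ℝ, 0 < c ∧ 0 < δ0 ∧ ∀ δ : ℝ, 0 < δ → δ ≤ δ0 →
    ∀ (p : unitInterval) (π : Measure (Curve × Curve)), π.map Prod.fst = law R δ pc →
      π.map Prod.snd = law R δ p →
      ENNReal.ofReal (c * min 1 (|(p : ℝ) - 1 / 2| * δ ^ (-(3 / 4) : ℝ)) - δ) ≤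
        ∫⁻ q, ENNReal.ofReal (dist q.1 q.2) ∂π := by
  obtain ⟨κ, S, δ0, hκ, hS, hδ0, hδ01, hshape⟩ := R.shape
  obtain ⟨T, hT⟩ : ∃ T, T = max R.t 0 := ⟨_, rfl⟩
  have hTt : R.t ≤ T := by rw [hT]; exact le_max_left _ _
  have hT0 : 0 ≤ T := by rw [hT]; exact le_max_right _ _
  have hTB : T < R.B := by rw [hT]; exact max_lt R.ht2 R.hB
  obtain ⟨κ', hκ'⟩ : ∃ κ', κ' = min κ ((R.B - T) / (6 * S)) := ⟨_, rfl⟩
  have hκ'0 : 0 < κ' := by
    rw [hκ']
    exact lt_min hκ (div_pos (by linarith) (by positivity))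
  obtain ⟨c, hc, hgap⟩ := nc_gap hSEP hκ'0
  obtain ⟨W, hW⟩ : ∃ W, W = min 1 (S ^ (3 / 4 : ℝ)) := ⟨_, rfl⟩
  have hW0 : 0 < W := by rw [hW]; exact lt_min one_pos (by positivity)
  refine ⟨c * S * W, min (min δ0 S) (min (κ' * S) ((R.B - T) / 4)), by positivity,
    lt_min (lt_min hδ0 hS) (lt_min (by positivity) (by linarith)), ?_⟩
  intro δ hδ hle p π hπ1 hπ2
  have d1 : δ ≤ δ0 := hle.trans ((min_le_left _ _).trans (min_le_left _ _))
  have d2 : δ ≤ S := hle.trans ((min_le_left _ _).trans (min_le_right _ _))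
  have d3 : δ ≤ κ' * S := hle.trans ((min_le_right _ _).trans (min_le_left _ _))
  have d4 : δ ≤ (R.B - T) / 4 := hle.trans ((min_le_right _ _).trans (min_le_right _ _))
  obtain ⟨n, hn⟩ : ∃ n, n = S / δ := ⟨_, rfl⟩
  have hn1 : 1 ≤ n := by rw [hn, le_div_iff₀ hδ]; linarith
  have hnδ : n * δ = S := by rw [hn]; field_simp
  have hsh : (R.dm δ).Shape κ' n := by
    rw [hn]
    exact shape_mono (by positivity) (by rw [hκ']; exact min_le_left _ _) (hshape δ hδ d1)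
  have hD := hsh.ok
  have hκn : 1 ≤ κ' * n := by rw [hn, mul_div_assoc', le_div_iff₀ hδ]; linarith
  have hdt : (R.dm δ).t = ⌊R.t / δ⌋ := rfl
  have hdr : (R.dm δ).r = ⌈R.B / δ⌉ - 1 := rfl
  have hmt : ((max (R.dm δ).t 0 : ℤ) : ℝ) ≤ T / δ := by
    rw [hdt]
    push_cast
    apply max_le
    · refine (Int.floor_le _).trans ?_
      exact div_le_div_of_nonneg_right hTt hδ.le
    · positivity
  have hr : ((max (R.dm δ).t 0 : ℤ) : ℝ) + 3 * (κ' * n) ≤ (R.dm δ).r := by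
    have h1 : κ' * n ≤ (R.B - T) / (6 * δ) := by
      have h2 : κ' ≤ (R.B - T) / (6 * S) := by rw [hκ']; exact min_le_right _ _
      calc κ' * n ≤ (R.B - T) / (6 * S) * n := mul_le_mul_of_nonneg_right h2 (by linarith)
        _ = (R.B - T) / (6 * δ) := by rw [hn]; field_simp
    have h2 : R.B / δ - 1 ≤ ((R.dm δ).r : ℝ) := by
      rw [hdr, Int.cast_sub, Int.cast_one]
      linarith [Int.le_ceil (R.B / δ)]
    have h3 : T / δ + 3 * ((R.B - T) / (6 * δ)) ≤ R.B / δ - 1 := by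
      have h4 : T / δ + 3 * ((R.B - T) / (6 * δ)) = R.B / δ - (R.B - T) / 2 / δ := by
        field_simp
        ring
      have h5 : 1 ≤ (R.B - T) / 2 / δ := by
        rw [le_div_iff₀ hδ]
        linarith
      linarith
    linarith
  have hg := hgap n (R.dm δ) hn1 hsh hr hκn p p.2.1 p.2.2
  -- the means
  have m1 := fre_mean R hδ hD pc
  have m2 := fre_mean R hδ hD p
  have hpc : ((pc : unitInterval) : ℝ) = 1 / 2 := rfl
  rw [hpc] at m1
  obtain ⟨E1, hE1⟩ : ∃ E1, E1 = Ex (fun _ => (1 / 2 : ℝ)) (R.dm δ).edges (nc (R.dm δ)) := ⟨_, rfl⟩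
  obtain ⟨E2, hE2⟩ : ∃ E2, E2 = Ex (fun _ => (p : ℝ)) (R.dm δ).edges (nc (R.dm δ)) := ⟨_, rfl⟩
  obtain ⟨I1, hI1⟩ : ∃ I1, I1 = ∫ γ, fre γ ∂(law R δ pc : Measure Curve) := ⟨_, rfl⟩
  obtain ⟨I2, hI2⟩ : ∃ I2, I2 = ∫ γ, fre γ ∂(law R δ p : Measure Curve) := ⟨_, rfl⟩
  rw [← hE1, ← hI1] at m1
  rw [← hE2, ← hI2] at m2
  rw [← hE1, ← hE2] at hg
  have hmean : c * S * W * min 1 (|(p : ℝ) - 1 / 2| * δ ^ (-(3 / 4) : ℝ)) - δ ≤ |I1 - I2| := by
    obtain ⟨x, hx⟩ : ∃ x, x = |(p : ℝ) - 1 / 2| * δ ^ (-(3 / 4) : ℝ) := ⟨_, rfl⟩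
    have hx0 : 0 ≤ x := by rw [hx]; positivity
    rw [← hx]
    have hn34 : |(p : ℝ) - 1 / 2| * n ^ (3 / 4 : ℝ) = S ^ (3 / 4 : ℝ) * x := by
      rw [hn, Real.div_rpow hS.le hδ.le, hx, Real.rpow_neg hδ.le]
      ring
    rw [hn34] at hg
    have h1 : W * min 1 x ≤ min 1 (S ^ (3 / 4 : ℝ) * x) := by
      have hW1 : W ≤ 1 := by rw [hW]; exact min_le_left _ _
      have hW2 : W ≤ S ^ (3 / 4 : ℝ) := by rw [hW]; exact min_le_right _ _
      have hm0 : 0 ≤ min 1 x := le_min zero_le_one hx0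
      apply le_min
      · calc W * min 1 x ≤ 1 * 1 := mul_le_mul hW1 (min_le_left _ _) hm0 zero_le_one
          _ = 1 := one_mul 1
      · exact mul_le_mul hW2 (min_le_right _ _) hm0 (by positivity)
    have h2 : c * S * W * min 1 x ≤ δ * |E2 - E1| := by
      calc c * S * W * min 1 x = δ * (c * n * (W * min 1 x)) := by rw [← hnδ]; ring
        _ ≤ δ * (c * n * min 1 (S ^ (3 / 4 : ℝ) * x)) := by
            apply mul_le_mul_of_nonneg_left _ hδ.le
            exact mul_le_mul_of_nonneg_left h1 (by positivity)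
        _ ≤ δ * |E2 - E1| := mul_le_mul_of_nonneg_left hg hδ.le
    have h3 : δ * |E2 - E1| = |(δ * ((((max (R.dm δ).t 0 : ℤ) : ℝ)) + E2)) -
        (δ * ((((max (R.dm δ).t 0 : ℤ) : ℝ)) + E1))| := by
      rw [← abs_of_pos hδ, ← abs_mul, abs_of_pos hδ]
      congr 1
      ring
    rw [h3] at h2
    have h4 := abs_sub_le (δ * ((((max (R.dm δ).t 0 : ℤ) : ℝ)) + E2)) I2
      (δ * ((((max (R.dm δ).t 0 : ℤ) : ℝ)) + E1))
    have h5 := abs_sub_le I2 I1 (δ * ((((max (R.dm δ).t 0 : ℤ) : ℝ)) + E1))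
    rw [abs_sub_comm _ I2] at h4
    rw [abs_sub_comm I2 I1] at h5
    linarith
  refine (ENNReal.ofReal_le_ofReal hmean).trans ?_
  have hfm := fre_cont.measurable
  have i1 : I1 = ∫ q, fre q.1 ∂π := by
    rw [hI1, ← hπ1, integral_map measurable_fst.aemeasurable hfm.aestronglyMeasurable]
  have i2 : I2 = ∫ q, fre q.2 ∂π := by
    rw [hI2, ← hπ2, integral_map measurable_snd.aemeasurable hfm.aestronglyMeasurable]
  have j1 : Integrable (fun q : Curve × Curve => fre q.1) π := by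
    have := law_integrable R δ pc hfm
    rw [← hπ1, integrable_map_measure hfm.aestronglyMeasurable measurable_fst.aemeasurable] at this
    exact this
  have j2 : Integrable (fun q : Curve × Curve => fre q.2) π := by
    have := law_integrable R δ p hfm
    rw [← hπ2, integrable_map_measure hfm.aestronglyMeasurable measurable_snd.aemeasurable] at this
    exact this
  rw [i1, i2, ← integral_sub j1 j2, ← Real.enorm_eq_ofReal_abs]
  refine (enorm_integral_le_lintegral_enorm _).trans ?_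
  apply lintegral_mono
  intro q
  dsimp only
  rw [Real.enorm_eq_ofReal_abs]
  apply ENNReal.ofReal_le_ofReal
  rw [abs_le]
  have h1 := fre_lip q.1 q.2
  have h2 := fre_lip q.2 q.1
  rw [dist_comm] at h2
  constructor <;> linarith

end Pool.Agent.N116.EW
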