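import Pool.Agent.N116.EW.Stm3

/-!
The exploration path of bond percolation on `δ ℤ²` with an arbitrary parameter in a rectangle, as a
random curve up to reparametrisation.

`Rect` and `Rect.curve` (the exploration path of a configuration) are in
`Pool.Agent.H984R4.NP.Model`, `Curve` (paths in the plane, with the distance
`inf_φ sup_t |γ(t) - γ'(φ(t))|`) is in `Pool.Agent.H342R3.Lim.Curve`.
-/

set_option autoImplicit false

namespace Pool.Agent.N116.EW

open H974 H984N H984P MeasureTheory Filter Topology Finset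
open H342L (cdist Curve)

/-- The law of the exploration path (as a curve up to reparametrisation) at mesh `δ` if every edge
of the rectangle is open with probability `p`: the configuration `F` (set of open edges) has
probability `p ^ |F| (1 - p) ^ |edges \ F|`. -/
noncomputable def lawM (R : Rect) (δ : ℝ) (p : unitInterval) : Measure Curve :=
  ∑ F ∈ (R.dm δ).edges.powerset,
    ENNReal.ofReal ((p : ℝ) ^ F.card * (1 - (p : ℝ)) ^ ((R.dm δ).edges \ F).card) •
      Measure.dirac (⟨R.curve δ F⟩ : Curve)

theorem Pr_pow (p : ℝ) (S : Finset Edg) (A : Finset Edg → Prop) :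
    Pr (fun _ => p) S A =
      ∑ F ∈ S.powerset, p ^ F.card * (1 - p) ^ (S \ F).card * ind (A F) := by
  unfold Pr Ex
  apply Finset.sum_congr rfl
  intro F _
  rw [Finset.prod_const, Finset.prod_const]

theorem lawM_apply (R : Rect) (δ : ℝ) (p : unitInterval) {G : Set Curve} (hG : MeasurableSet G) :
    lawM R δ p G =
      ENNReal.ofReal (Pr (fun _ => (p : ℝ)) (R.dm δ).edges (fun F => (⟨R.curve δ F⟩ : Curve) ∈ G)) := by
  classical
  have h0 : 0 ≤ (p : ℝ) := p.2.1
  have h1 : 0 ≤ 1 - (p : ℝ) := by linarith [p.2.2]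
  unfold lawM
  rw [Measure.finsetSum_apply, Pr_pow, ENNReal.ofReal_sum_of_nonneg
    (fun F _ => mul_nonneg (mul_nonneg (pow_nonneg h0 _) (pow_nonneg h1 _)) (ind_nonneg _))]
  apply Finset.sum_congr rfl
  intro F _
  rw [Measure.smul_apply, Measure.dirac_apply' _ hG, smul_eq_mul,
    ENNReal.ofReal_mul (mul_nonneg (pow_nonneg h0 _) (pow_nonneg h1 _))]
  congr 1
  by_cases h : (⟨R.curve δ F⟩ : Curve) ∈ G
  · rw [ind_of h, Set.indicator_of_mem h]; simp
  · rw [ind_not_of h, Set.indicator_of_notMem h]; simp

theorem lawM_univ (R : Rect) (δ : ℝ) (p : unitInterval) : lawM R δ p Set.univ = 1 := by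
  rw [lawM_apply R δ p MeasurableSet.univ,
    Pr_true _ (fun F _ => Set.mem_univ (⟨R.curve δ F⟩ : Curve))]
  simp

/-- The law of the exploration path at mesh `δ` and parameter `p`. -/
noncomputable def law (R : Rect) (δ : ℝ) (p : unitInterval) : ProbabilityMeasure Curve :=
  ⟨lawM R δ p, ⟨lawM_univ R δ p⟩⟩

/-- The critical parameter. -/
noncomputable def pc : unitInterval := ⟨1 / 2, by norm_num, by norm_num⟩

end Pool.Agent.N116.EW
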