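import Pool.Agent.N116.EW.Cnt

/-!
Project EW (helper116): inside the window the two coupled paths in their natural parametrisation are
close with high probability.
-/

set_option autoImplicit false

namespace Pool.Agent.N116.EW

open H974 H12S H389NS H984N H984P H342P H443B Finset

/-- The regularity of the critical path which is used (`NaturalCurve`). -/
def S_HOL (R : Rect) : Prop := ∀ β ε : ℝ, 0 < β → β < 4 / 7 → 0 < ε → ∃ Λ δ0 : ℝ, 0 < Λ ∧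
  0 < δ0 ∧ ∀ δ : ℝ, 0 < δ → δ ≤ δ0 → 1 - ε ≤ R.prob δ (fun F =>
    (1 / Λ ≤ R.time δ F ∧ R.time δ F ≤ Λ) ∧
    ∀ s t : unitInterval, dist (R.curve δ F s) (R.curve δ F t) ≤ Λ * |(s : ℝ) - t| ^ β)

/-- The critical configuration. -/
theorem PC_crit (b : Bool) (η : ℝ) (S : Finset Edg) (A : Finset Edg → Prop) :
    PC b η S (fun F G => A (if b then F else G)) = Pr (fun _ => (1 / 2 : ℝ)) S A := by
  cases b
  · have h := PC_up false η S A
    simpa using h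
  · have h := PC_lo true η S A
    simpa using h

/-- **The coupled paths in their natural parametrisation.** -/
theorem far_nat (hSUM : S_SUM) (hLOC : S_LOC) (hONE : S_ONE) (R : Rect) (hHOL : S_HOL R)
    {r ε : ℝ} (hr : 0 < r) (hε : 0 < ε) : ∃ δ1 t : ℝ, 0 < δ1 ∧ 0 < t ∧
    ∀ δ η : ℝ, 0 < δ → δ ≤ δ1 → 0 ≤ η → η ≤ 1 → η * δ ^ (-(3 / 4) : ℝ) ≤ t → ∀ b : Bool,
      PC b η (R.dm δ).edges (fun F G => r < dist ((R.curve δ F, R.time δ F) : X)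
        (R.curve δ G, R.time δ G)) ≤ ε := by
  obtain ⟨κ, S, δ0, hκ, hS, hδ0, hδ01, hshape⟩ := R.shape
  obtain ⟨C1, t1, hC1, ht1, hsum⟩ := hSUM κ hκ
  obtain ⟨C2, t2, hC2, ht2, hcnt⟩ := cO_bound hLOC hONE κ hκ
  obtain ⟨Λ, δ3, hΛ, hδ3, hhol⟩ := hHOL (1 / 2) (ε / 4) (by norm_num) (by norm_num) (by linarith)
  obtain ⟨Z, hZ⟩ : ∃ Z, Z = S ^ (7 / 4 : ℝ) := ⟨_, rfl⟩
  have hZ0 : 0 < Z := by rw [hZ]; positivity
  obtain ⟨W, hW⟩ : ∃ W, W = S ^ (3 / 4 : ℝ) := ⟨_, rfl⟩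
  have hW0 : 0 < W := by rw [hW]; positivity
  obtain ⟨y, hy⟩ : ∃ y, y = min (r / (8 * Z)) ((r / (3 * Λ)) ^ 2 / (8 * Z * Λ)) := ⟨_, rfl⟩
  have hy0 : 0 < y := by rw [hy]; exact lt_min (by positivity) (by positivity)
  have hya : 4 * (y * Z) ≤ r / 2 := by
    have h1 : y ≤ r / (8 * Z) := by rw [hy]; exact min_le_left _ _
    rw [le_div_iff₀ (by positivity)] at h1
    linarith
  have hyb : Λ * (8 * (y * Z) * Λ) ^ (1 / 2 : ℝ) ≤ r / 3 := by
    have h1 : y ≤ (r / (3 * Λ)) ^ 2 / (8 * Z * Λ) := by rw [hy]; exact min_le_right _ _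
    rw [le_div_iff₀ (by positivity)] at h1
    have h2 : 8 * (y * Z) * Λ ≤ (r / (3 * Λ)) ^ 2 := by linarith
    have h3 : (8 * (y * Z) * Λ) ^ (1 / 2 : ℝ) ≤ r / (3 * Λ) := by
      rw [← Real.sqrt_eq_rpow]
      exact (Real.sqrt_le_sqrt h2).trans (le_of_eq (Real.sqrt_sq (by positivity)))
    calc Λ * (8 * (y * Z) * Λ) ^ (1 / 2 : ℝ) ≤ Λ * (r / (3 * Λ)) :=
          mul_le_mul_of_nonneg_left h3 hΛ.le
      _ = r / 3 := by field_simp
  obtain ⟨θ, hθ⟩ : ∃ θ, θ = min 1 (min (r / (16 * S)) ((ε * y / (4 * C2)) ^ (4 / 3 : ℝ))) :=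
    ⟨_, rfl⟩
  have hθ0 : 0 < θ := by
    rw [hθ]; exact lt_min one_pos (lt_min (by positivity) (by positivity))
  have hθ1 : θ ≤ 1 := by rw [hθ]; exact min_le_left _ _
  have hθa : 4 * θ * S ≤ r / 4 := by
    have h1 : θ ≤ r / (16 * S) := by
      rw [hθ]; exact (min_le_right _ _).trans (min_le_left _ _)
    rw [le_div_iff₀ (by positivity)] at h1
    linarith
  have hθb : C2 * θ ^ (3 / 4 : ℝ) / y ≤ ε / 4 := by
    have h1 : θ ≤ (ε * y / (4 * C2)) ^ (4 / 3 : ℝ) := by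
      rw [hθ]; exact (min_le_right _ _).trans (min_le_right _ _)
    have h2 : θ ^ (3 / 4 : ℝ) ≤ ε * y / (4 * C2) := by
      refine (Real.rpow_le_rpow hθ0.le h1 (by norm_num)).trans (le_of_eq ?_)
      rw [← Real.rpow_mul (by positivity)]
      norm_num
    rw [div_le_iff₀ hy0]
    rw [le_div_iff₀ (by positivity)] at h2
    linarith
  obtain ⟨q, hq⟩ : ∃ q, q = (θ / 2) ^ (-(5 / 4) : ℝ) := ⟨_, rfl⟩
  have hq0 : 0 < q := by rw [hq]; positivity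
  refine ⟨min (min δ0 δ3) (min (r / 36) (min (θ * S / 2) S)),
    min (min (t1 / W) (t2 / W)) (min (ε / (8 * C1 * W * q)) (ε * y / (4 * C2 * W))), ?_, ?_, ?_⟩
  · exact lt_min (lt_min hδ0 hδ3) (lt_min (by positivity) (lt_min (by positivity) hS))
  · exact lt_min (lt_min (by positivity) (by positivity)) (lt_min (by positivity) (by positivity))
  intro δ η hδ hle hη0 hη1 ht b
  have d1 : δ ≤ δ0 := hle.trans ((min_le_left _ _).trans (min_le_left _ _))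
  have d2 : δ ≤ δ3 := hle.trans ((min_le_left _ _).trans (min_le_right _ _))
  have d3 : δ ≤ r / 36 := hle.trans ((min_le_right _ _).trans (min_le_left _ _))
  have d4 : δ ≤ θ * S / 2 :=
    hle.trans ((min_le_right _ _).trans ((min_le_right _ _).trans (min_le_left _ _)))
  have d5 : δ ≤ S :=
    hle.trans ((min_le_right _ _).trans ((min_le_right _ _).trans (min_le_right _ _)))
  have e1 : η * δ ^ (-(3 / 4) : ℝ) ≤ t1 / W := ht.trans ((min_le_left _ _).trans (min_le_left _ _))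
  have e2 : η * δ ^ (-(3 / 4) : ℝ) ≤ t2 / W := ht.trans ((min_le_left _ _).trans (min_le_right _ _))
  have e3 : η * δ ^ (-(3 / 4) : ℝ) ≤ ε / (8 * C1 * W * q) :=
    ht.trans ((min_le_right _ _).trans (min_le_left _ _))
  have e4 : η * δ ^ (-(3 / 4) : ℝ) ≤ ε * y / (4 * C2 * W) :=
    ht.trans ((min_le_right _ _).trans (min_le_right _ _))
  have hsh := hshape δ hδ d1
  obtain ⟨n, hn⟩ : ∃ n, n = S / δ := ⟨_, rfl⟩
  rw [← hn] at hsh
  have hn1 : 1 ≤ n := by rw [hn, le_div_iff₀ hδ]; linarith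
  have hn0 : 0 < n := by linarith
  have hnδ : n * δ = S := by rw [hn]; field_simp
  have hn34 : n ^ (3 / 4 : ℝ) = W * δ ^ (-(3 / 4) : ℝ) := by
    rw [hn, hW, Real.div_rpow hS.le hδ.le, Real.rpow_neg hδ.le]
    rfl
  have hn74 : n ^ (7 / 4 : ℝ) * δ ^ (7 / 4 : ℝ) = Z := by
    rw [← Real.mul_rpow hn0.le hδ.le, hnδ, hZ]
  obtain ⟨x, hx⟩ : ∃ x, x = η * n ^ (3 / 4 : ℝ) := ⟨_, rfl⟩
  have hx' : x = W * (η * δ ^ (-(3 / 4) : ℝ)) := by rw [hx, hn34]; ring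
  have hx0 : 0 ≤ x := by rw [hx]; positivity
  have x1 : x ≤ t1 := by
    rw [hx']
    rw [le_div_iff₀ hW0] at e1
    linarith
  have x2 : x ≤ t2 := by
    rw [hx']
    rw [le_div_iff₀ hW0] at e2
    linarith
  have x3 : 2 * C1 * (x * q) ≤ ε / 4 := by
    rw [hx']
    rw [le_div_iff₀ (by positivity)] at e3
    linarith
  have x4 : C2 * x / y ≤ ε / 4 := by
    rw [hx', div_le_iff₀ hy0]
    rw [le_div_iff₀ (by positivity)] at e4
    linarith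
  -- the radius
  have hθn : 2 ≤ θ * n := by
    have h1 : δ * 2 ≤ θ * S := by linarith
    rw [hn, mul_div_assoc', le_div_iff₀ hδ]
    linarith
  obtain ⟨ρ, hρ⟩ : ∃ ρ : ℕ, ρ = ⌊θ * n⌋₊ := ⟨_, rfl⟩
  have hρa : (ρ : ℝ) ≤ θ * n := by rw [hρ]; exact Nat.floor_le (by positivity)
  have hρb : θ / 2 * n ≤ ρ := by
    have : θ * n < (ρ : ℝ) + 1 := by rw [hρ]; exact Nat.lt_floor_add_one _
    linarith
  have hρ1 : 1 ≤ ρ := by
    have : (0 : ℝ) < (ρ : ℝ) := by linarith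
    exact_mod_cast this
  obtain ⟨Y, hY⟩ : ∃ Y, Y = y * n ^ (7 / 4 : ℝ) := ⟨_, rfl⟩
  have hY0 : 0 < Y := by rw [hY]; positivity
  -- the probabilities
  obtain ⟨p1, p2⟩ := hsum n (R.dm δ) hn1 hsh η hη0 hη1 (by rw [← hx]; exact x1) ρ hρ1 b
  have p3 := hcnt n (R.dm δ) hn1 hsh η hη0 hη1 (by rw [← hx]; exact x2) ρ hρ1 b Y hY0
  have hb1 : η * n ^ 2 * (ρ : ℝ) ^ (-(5 / 4 : ℝ)) ≤ x * q := by
    have h1 : (ρ : ℝ) ^ (-(5 / 4 : ℝ)) ≤ (θ / 2 * n) ^ (-(5 / 4 : ℝ)) :=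
      Real.rpow_le_rpow_of_nonpos (by positivity) hρb (by norm_num)
    have h2 : (θ / 2 * n) ^ (-(5 / 4 : ℝ)) = q * n ^ (-(5 / 4 : ℝ)) := by
      rw [Real.mul_rpow (by positivity) hn0.le, hq]
    have h3 : n ^ 2 * n ^ (-(5 / 4 : ℝ)) = n ^ (3 / 4 : ℝ) := by
      rw [← Real.rpow_natCast, ← Real.rpow_add hn0]
      norm_num
    calc η * n ^ 2 * (ρ : ℝ) ^ (-(5 / 4 : ℝ)) ≤ η * n ^ 2 * (q * n ^ (-(5 / 4 : ℝ))) := by
          rw [← h2]
          exact mul_le_mul_of_nonneg_left h1 (by positivity)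
      _ = η * (n ^ 2 * n ^ (-(5 / 4 : ℝ))) * q := by ring
      _ = x * q := by rw [h3, hx]
  have hb2 : C2 * (η * n ^ 2 * (ρ : ℝ) ^ (1 / 2 : ℝ) + n * (ρ : ℝ) ^ (3 / 4 : ℝ)) / Y ≤
      C2 * x / y + C2 * θ ^ (3 / 4 : ℝ) / y := by
    have h1 : (ρ : ℝ) ^ (1 / 2 : ℝ) ≤ n ^ (1 / 2 : ℝ) := by
      exact Real.rpow_le_rpow (by positivity) (hρa.trans (mul_le_of_le_one_left hn0.le hθ1))
        (by norm_num)
    have h2 : (ρ : ℝ) ^ (3 / 4 : ℝ) ≤ θ ^ (3 / 4 : ℝ) * n ^ (3 / 4 : ℝ) := by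
      rw [← Real.mul_rpow hθ0.le hn0.le]
      exact Real.rpow_le_rpow (by positivity) hρa (by norm_num)
    have h3 : n ^ 2 * n ^ (1 / 2 : ℝ) = n ^ (3 / 4 : ℝ) * n ^ (7 / 4 : ℝ) := by
      rw [← Real.rpow_natCast, ← Real.rpow_add hn0, ← Real.rpow_add hn0]
      norm_num
    have h4 : n * n ^ (3 / 4 : ℝ) = n ^ (7 / 4 : ℝ) := by
      nth_rewrite 1 [← Real.rpow_one n]
      rw [← Real.rpow_add hn0]
      norm_num
    have h5 : η * n ^ 2 * (ρ : ℝ) ^ (1 / 2 : ℝ) ≤ x * n ^ (7 / 4 : ℝ) := by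
      calc η * n ^ 2 * (ρ : ℝ) ^ (1 / 2 : ℝ) ≤ η * n ^ 2 * n ^ (1 / 2 : ℝ) :=
            mul_le_mul_of_nonneg_left h1 (by positivity)
        _ = η * (n ^ 2 * n ^ (1 / 2 : ℝ)) := by ring
        _ = x * n ^ (7 / 4 : ℝ) := by rw [h3, hx]; ring
    have h6 : n * (ρ : ℝ) ^ (3 / 4 : ℝ) ≤ θ ^ (3 / 4 : ℝ) * n ^ (7 / 4 : ℝ) := by
      calc n * (ρ : ℝ) ^ (3 / 4 : ℝ) ≤ n * (θ ^ (3 / 4 : ℝ) * n ^ (3 / 4 : ℝ)) :=
            mul_le_mul_of_nonneg_left h2 hn0.le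
        _ = θ ^ (3 / 4 : ℝ) * (n * n ^ (3 / 4 : ℝ)) := by ring
        _ = _ := by rw [h4]
    rw [div_le_iff₀ hY0, hY]
    have h7 : (C2 * x / y + C2 * θ ^ (3 / 4 : ℝ) / y) * (y * n ^ (7 / 4 : ℝ)) =
        C2 * (x * n ^ (7 / 4 : ℝ) + θ ^ (3 / 4 : ℝ) * n ^ (7 / 4 : ℝ)) := by
      field_simp
    rw [h7]
    exact mul_le_mul_of_nonneg_left (add_le_add h5 h6) hC2.le
  -- the good event for the critical path
  have p4 : PC b η (R.dm δ).edges (fun F G => ¬ ((1 / Λ ≤ R.time δ (if b then F else G) ∧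
      R.time δ (if b then F else G) ≤ Λ) ∧ ∀ s t : unitInterval,
        dist (R.curve δ (if b then F else G) s) (R.curve δ (if b then F else G) t) ≤
          Λ * |(s : ℝ) - t| ^ (1 / 2 : ℝ))) ≤ ε / 4 := by
    rw [PC_crit b η (R.dm δ).edges (fun H => ¬ ((1 / Λ ≤ R.time δ H ∧
      R.time δ H ≤ Λ) ∧ ∀ s t : unitInterval, dist (R.curve δ H s) (R.curve δ H t) ≤
          Λ * |(s : ℝ) - t| ^ (1 / 2 : ℝ))), Pr_not]
    have := hhol δ hδ d2
    unfold Rect.prob P at this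
    linarith
  -- the inclusion
  have hinc : PC b η (R.dm δ).edges (fun F G => r < dist ((R.curve δ F, R.time δ F) : X)
        (R.curve δ G, R.time δ G)) ≤
      PC b η (R.dm δ).edges (fun F G => (BadV (R.dm δ) ρ F G ∨ BadW (R.dm δ) ρ F G) ∨
        (((¬ BadV (R.dm δ) ρ F G ∧ ¬ BadW (R.dm δ) ρ F G) ∧ Y ≤ cO (R.dm δ) F G) ∨
        ¬ ((1 / Λ ≤ R.time δ (if b then F else G) ∧
      R.time δ (if b then F else G) ≤ Λ) ∧ ∀ s t : unitInterval,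
        dist (R.curve δ (if b then F else G) s) (R.curve δ (if b then F else G) t) ≤
          Λ * |(s : ℝ) - t| ^ (1 / 2 : ℝ)))) := by
    apply PC_mono hη0 hη1
    intro F G hFG hG hlt
    by_contra hcon
    push Not at hcon
    obtain ⟨⟨c1, c2⟩, c3, c4⟩ := hcon
    have c3' := c3 ⟨c1, c2⟩
    obtain ⟨u1, u2⟩ := uni R hδ hsh.ok hFG hG hρ1 c1 c2
    obtain ⟨⟨g1, g2⟩, g3⟩ := c4
    have hδ74 : 0 < δ ^ (7 / 4 : ℝ) := by positivity
    have hcoδ : (cO (R.dm δ) F G : ℝ) * δ ^ (7 / 4 : ℝ) ≤ y * Z := by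
      calc (cO (R.dm δ) F G : ℝ) * δ ^ (7 / 4 : ℝ) ≤ Y * δ ^ (7 / 4 : ℝ) :=
            mul_le_mul_of_nonneg_right c3'.le hδ74.le
        _ = y * (n ^ (7 / 4 : ℝ) * δ ^ (7 / 4 : ℝ)) := by rw [hY]; ring
        _ = y * Z := by rw [hn74]
    -- times
    have htime : dist (R.time δ F) (R.time δ G) ≤ r / 2 := by
      rw [Real.dist_eq]
      unfold Rect.time
      rw [← mul_sub, abs_mul, abs_of_pos hδ74]
      calc δ ^ (7 / 4 : ℝ) * |((R.dm δ).len F : ℝ) - (R.dm δ).len G| ≤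
            δ ^ (7 / 4 : ℝ) * (4 * cO (R.dm δ) F G) := mul_le_mul_of_nonneg_left u1 hδ74.le
        _ = 4 * ((cO (R.dm δ) F G : ℝ) * δ ^ (7 / 4 : ℝ)) := by ring
        _ ≤ 4 * (y * Z) := by linarith
        _ ≤ r / 2 := hya
    -- curves
    obtain ⟨H, hH⟩ : ∃ H, H = if b then F else G := ⟨_, rfl⟩
    rw [← hH] at g1 g2 g3
    have hH' : H = F ∨ H = G := by
      rw [hH]; cases b <;> simp
    have hM : ∀ u v : unitInterval, |(u : ℝ) - v| * (R.dm δ).len H ≤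
        2 * (4 * cO (R.dm δ) F G) → dist (R.curve δ H u) (R.curve δ H v) ≤ r / 3 := by
      intro u v huv
      refine (g3 u v).trans (le_trans ?_ hyb)
      apply mul_le_mul_of_nonneg_left _ hΛ.le
      apply Real.rpow_le_rpow (abs_nonneg _) _ (by norm_num)
      have h1 : |(u : ℝ) - v| * (1 / Λ) ≤ |(u : ℝ) - v| * R.time δ H :=
        mul_le_mul_of_nonneg_left g1 (abs_nonneg _)
      have h2 : |(u : ℝ) - v| * R.time δ H ≤ 8 * (y * Z) := by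
        unfold Rect.time
        calc |(u : ℝ) - v| * (δ ^ (7 / 4 : ℝ) * (R.dm δ).len H) =
              δ ^ (7 / 4 : ℝ) * (|(u : ℝ) - v| * (R.dm δ).len H) := by ring
          _ ≤ δ ^ (7 / 4 : ℝ) * (2 * (4 * cO (R.dm δ) F G)) :=
              mul_le_mul_of_nonneg_left huv hδ74.le
          _ = 8 * ((cO (R.dm δ) F G : ℝ) * δ ^ (7 / 4 : ℝ)) := by ring
          _ ≤ _ := by linarith
      have h3 := h1.trans h2
      rw [mul_one_div, div_le_iff₀ hΛ] at h3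
      exact h3
    have hcurve : dist (R.curve δ F) (R.curve δ G) ≤ r := by
      rw [ContinuousMap.dist_le hr.le]
      intro s
      refine (u2 H hH' (r / 3) hM s).trans ?_
      have h1 : δ * (ρ : ℝ) ≤ θ * S := by
        calc δ * (ρ : ℝ) ≤ δ * (θ * n) := mul_le_mul_of_nonneg_left hρa hδ.le
          _ = θ * (n * δ) := by ring
          _ = θ * S := by rw [hnδ]
      have h2 : δ * (4 * (ρ : ℝ) + 9) = 4 * (δ * ρ) + 9 * δ := by ring
      rw [h2]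
      linarith
    have : dist ((R.curve δ F, R.time δ F) : X) (R.curve δ G, R.time δ G) ≤ r := by
      rw [Prod.dist_eq]
      exact max_le hcurve (by linarith)
    linarith
  refine hinc.trans ((PC_or hη0 hη1 _ _ _).trans ?_)
  have q1 := PC_or (b := b) hη0 hη1 (R.dm δ).edges (BadV (R.dm δ) ρ) (BadW (R.dm δ) ρ)
  have q2 := PC_or (b := b) hη0 hη1 (R.dm δ).edges
    (fun F G => (¬ BadV (R.dm δ) ρ F G ∧ ¬ BadW (R.dm δ) ρ F G) ∧ Y ≤ cO (R.dm δ) F G)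
    (fun F G => ¬ ((1 / Λ ≤ R.time δ (if b then F else G) ∧
      R.time δ (if b then F else G) ≤ Λ) ∧ ∀ s t : unitInterval,
        dist (R.curve δ (if b then F else G) s) (R.curve δ (if b then F else G) t) ≤
          Λ * |(s : ℝ) - t| ^ (1 / 2 : ℝ)))
  have q3 : C1 * (η * n ^ 2 * (ρ : ℝ) ^ (-(5 / 4 : ℝ))) ≤ C1 * (x * q) :=
    mul_le_mul_of_nonneg_left hb1 hC1.le
  linarith

end Pool.Agent.N116.EW
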