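import Pool.Agent.N116.EW.Stm

/-!
Project EW (helper116): crossing probabilities move at the scale of the window (statements).
-/

set_option autoImplicit false

namespace Pool.Agent.N116.EW

open H974 H12S H389NS H984N H984P H342P Finset

/-- The vertices of the wired arc. -/
def wa (D : Dm) : Set Vtx :=
  {v | (v.2 = D.h ∧ D.l ≤ v.1 ∧ v.1 ≤ D.t) ∨ (v.1 = D.l ∧ 0 ≤ v.2 ∧ v.2 ≤ D.h) ∨
    (v.2 = 0 ∧ D.l ≤ v.1 ∧ v.1 ≤ 0)}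

/-- The wired arc is connected to the column `m` in the part of the rectangle left of it. -/
def KM (D : Dm) (m : ℤ) (F : Finset Edg) : Prop :=
  Cn (wa D) (lsd m 0 D.h) ((↑F : Set Edg) ∩ ↑(RE D.l m 0 D.h))

/-- EW13: the inward inequality in general domains, at all scales of the window. -/
def S_INW : Prop := ∃ b : ℝ, 0 < b ∧ ∀ δ : ℝ, 0 < δ → ∃ (B Mr : ℕ) (Ci : ℝ), 2 ≤ B ∧ 1 ≤ Mr ∧
  0 < Ci ∧ ∀ n : ℕ, 1 ≤ n → ∀ q : ℝ, |q - 1/2| ≤ b * (n:ℝ) ^ (-(3/4 : ℝ)) →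
    ∀ r : ℕ, Mr ≤ r → B * r ≤ n → ∀ (S : Finset Edg) (I J I' J' : Set Vtx) (p : ℤ × ℤ),
      blk p (4 * (B * r)) ⊆ S → DomD S I J I' J' → FarS (I ∪ J) p (4 * (B * r)) →
      FarS (I' ∪ J') p (4 * (B * r)) →
      (PQ q S (fun F => BPv I J (blk p (B * r - 1)) ↑F) - δ) * (r:ℝ) ^ (3/4 : ℝ) ≤
        Ci * ∑ e ∈ S, PQ q S (fun F => Pv I J e ↑F)

/-- EW14: duality in the part of the rectangle left of the column `m`. -/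
def S_DOM : Prop := ∀ D : Dm, D.Ok → ∀ m : ℤ, max D.t 0 < m → m ≤ D.r → ∃ I' J' : Set Vtx,
  DomD (RE D.l m 0 D.h) (wa D) (lsd m 0 D.h) I' J' ∧ ∀ f ∈ I' ∪ J', f.2 = -1 ∨ f.2 = D.h

/-- EW15: a macroscopic block is pivotal with positive probability. -/
def S_MAC : Prop := ∀ κ : ℝ, 0 < κ → ∃ c : ℝ, 0 < c ∧ ∀ n : ℕ, 1 ≤ n → ∀ q : ℝ, 1/4 ≤ q →
  q ≤ 3/4 → |q - 1/2| ≤ (n:ℝ) ^ (-(3/4 : ℝ)) → ∀ D : Dm, D.Shape κ n →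
  ∀ (m : ℤ) (p : ℤ × ℤ) (ρ : ℕ), m ≤ D.r → κ * n ≤ ρ → 1 ≤ ρ →
    ((max D.t 0 : ℤ) : ℝ) + κ * n + ρ ≤ p.1 → (p.1 : ℝ) + κ * n + ρ ≤ m →
    κ * n + ρ ≤ p.2 → (p.2 : ℝ) + κ * n + ρ ≤ D.h →
    c ≤ PQ q (RE D.l m 0 D.h) (fun F => BPv (wa D) (lsd m 0 D.h) (blk p ρ) ↑F)

/-- EW16: the probability that the wired arc is connected to the column `m` moves by a constant at
the scale of the window. -/
def S_SEP : Prop := ∀ κ : ℝ, 0 < κ → ∃ c : ℝ, 0 < c ∧ ∀ (n : ℝ) (D : Dm), 1 ≤ n → D.Shape κ n →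
  ∀ m : ℤ, ((max D.t 0 : ℤ) : ℝ) + κ * n ≤ m → m ≤ D.r → ∀ q : ℝ, 0 ≤ q → q ≤ 1 →
    (1 / 2 ≤ q → Pr (fun _ => (1 / 2 : ℝ)) D.edges (KM D m) +
      c * min 1 ((q - 1 / 2) * n ^ (3 / 4 : ℝ)) ≤ Pr (fun _ => q) D.edges (KM D m)) ∧
    (q ≤ 1 / 2 → Pr (fun _ => q) D.edges (KM D m) +
      c * min 1 ((1 / 2 - q) * n ^ (3 / 4 : ℝ)) ≤ Pr (fun _ => (1 / 2 : ℝ)) D.edges (KM D m))

/-- EW17: the path reaches the column `m` if and only if the wired arc is connected to it. -/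
def S_HIT : Prop := ∀ D : Dm, D.Ok → ∀ m : ℤ, max D.t 0 < m → m ≤ D.r → ∀ F : Finset Edg,
  F ⊆ D.edges → ((∃ k ≤ D.len F, m ≤ (D.walk F k).1.1) ↔ KM D m F)

end Pool.Agent.N116.EW
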