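import Pool.Agent.N116.EW.Defs

/-!
Project EW (helper116): statements of the parts (nothing is assumed).
-/

set_option autoImplicit false

namespace Pool.Agent.N116.EW

open H974 H12S H389NS H984N H984P H342P Finset
open Pool.Agent.W424.OD (AE Cl A3v)

/-- EW1a: restriction of the annulus. -/
def S_XAsub : Prop := ∀ (c : ℤ × ℤ) (d d' k' k : ℕ) (F G : Set Edg), 1 ≤ d → d ≤ d' → d' ≤ k' →
  k' ≤ k → XA c d k F G → XA c d' k' F G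

/-- EW1b: from the box to the annulus and to smaller boxes. -/
def S_XEsub : Prop := ∀ (e : Edg) (m : ℕ) (F G : Set Edg), XE e m F G →
  (∀ d : ℕ, 1 ≤ d → d ≤ m → XA (src e) d m F G) ∧ ∀ m' : ℕ, 1 ≤ m' → m' ≤ m → XE e m' F G

/-- EW1c: the annulus: four arms of the upper configuration or a flipped edge. -/
def S_DICHA : Prop := ∀ (c : ℤ × ℤ) (d k : ℕ) (F G : Set Edg), 1 ≤ d → 4 * d ≤ k → F ⊆ G →
  XA c d k F G → A4a c (2 * d) (k / 2) G ∨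
    ∃ e ∈ blk c (k / 2), e ∉ blk c (2 * d) ∧ e ∈ G ∧ e ∉ F ∧ XE' e (nrm c e / 4) F G ∧
      XA c d (nrm c e / 2) F G ∧ XA c (2 * nrm c e) k F G

/-- EW1d: the box: four arms of the upper configuration or another flipped edge. -/
def S_DICHE : Prop := ∀ (e : Edg) (m : ℕ) (F G : Set Edg), 2 ≤ m → F ⊆ G → XE e m F G →
  A4 ((src e).1 - (m / 2 : ℕ)) ((src e).1 + (m / 2 : ℕ)) ((src e).2 - (m / 2 : ℕ))
      ((src e).2 + (m / 2 : ℕ)) e G ∨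
    ∃ g ∈ blk (src e) (m / 2), g ≠ e ∧ g ∈ G ∧ g ∉ F ∧ XE' g (nrm (src e) g / 4) F G ∧
      XE' e (nrm (src e) g / 2) F G ∧ XA (src e) (max 1 (2 * nrm (src e) g)) m F G

/-- EW2, EW3: mixed four arms in a box have the exponent `5/4`. -/
def S_XE (b : Bool) : Prop := ∃ M t : ℝ, 0 < M ∧ 0 < t ∧ ∀ (n : ℕ) (η : ℝ), 1 ≤ n → 0 ≤ η →
  η ≤ 1 → η * (n : ℝ) ^ (3 / 4 : ℝ) ≤ t → ∀ (e : Edg) (m : ℕ), 1 ≤ m → m ≤ n →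
  ∀ S : Finset Edg, blk (src e) m ⊆ S →
    PC b η S (fun F G => XE e m ↑F ↑G) ≤ M * (m : ℝ) ^ (-(5 / 4 : ℝ))

/-- EW4: the same for the dual version. -/
def S_XD (b : Bool) : Prop := ∃ M t : ℝ, 0 < M ∧ 0 < t ∧ ∀ (n : ℕ) (η : ℝ), 1 ≤ n → 0 ≤ η →
  η ≤ 1 → η * (n : ℝ) ^ (3 / 4 : ℝ) ≤ t → ∀ (e : Edg) (m : ℕ), 1 ≤ m → m ≤ n →
  ∀ S : Finset Edg, blk (src (dl e)) m ⊆ dmp S →
    PC b η S (fun F G => XD e m ↑F ↑G) ≤ M * (m : ℝ) ^ (-(5 / 4 : ℝ))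

/-- EW5: one arm near the boundary has the exponent `1/3`. -/
def S_NX : Prop := ∀ κ : ℝ, 0 < κ → ∃ C c : ℝ, 0 < C ∧ 0 < c ∧ ∀ (n : ℝ) (D : Dm), 1 ≤ n →
  D.Shape κ n → ∀ (z : Vtx) (d R : ℕ), inR D.l D.r 0 D.h z → 1 ≤ d → D.bd z ≤ d → d ≤ R →
  (R : ℝ) ≤ c * qd D z →
    Pr (fun _ => (1 / 2 : ℝ)) D.edges (NX D z d R) ≤ C * ((d : ℝ) / R) ^ (1 / 3 : ℝ)

/-- EW6: long excursions are unlikely. -/
def S_SUM : Prop := ∀ κ : ℝ, 0 < κ → ∃ C t : ℝ, 0 < C ∧ 0 < t ∧ ∀ (n : ℝ) (D : Dm), 1 ≤ n →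
  D.Shape κ n → ∀ η : ℝ, 0 ≤ η → η ≤ 1 → η * n ^ (3 / 4 : ℝ) ≤ t → ∀ ρ : ℕ, 1 ≤ ρ → ∀ b : Bool,
    PC b η D.edges (BadV D ρ) ≤ C * (η * n ^ 2 * (ρ : ℝ) ^ (-(5 / 4 : ℝ))) ∧
    PC b η D.edges (BadW D ρ) ≤ C * (η * n ^ 2 * (ρ : ℝ) ^ (-(5 / 4 : ℝ)))

/-- EW7: piecewise linear curves with matched pieces. -/
def S_PL : Prop := ∀ (N N' m : ℕ) (p p' : ℕ → ℂ) (a b : ℕ → ℕ) (r : ℝ), 0 < N → 0 < N' →
  a 0 = 0 → b 0 = 0 → a m = N → b m = N' → (∀ i < m, a i < a (i + 1)) →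
  (∀ i < m, b i < b (i + 1)) →
  (∀ i < m, ∀ k l : ℕ, a i ≤ k → k ≤ a (i + 1) → b i ≤ l → l ≤ b (i + 1) →
    dist (p k) (p' l) ≤ r) →
  ∃ φ : unitInterval ≃o unitInterval, ∀ s, dist (pl N p s) (pl N' p' (φ s)) ≤ r

end Pool.Agent.N116.EW
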