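import Pool.Agent.N116.EW.Stm

/-!
Project EW (helper116): away from the window the exploration path follows a boundary arc
(statement).
-/

set_option autoImplicit false

namespace Pool.Agent.N116.EW

open H974 H12S H389NS H984N H984P H342P Finset

/-- EW8: beyond the correlation length there are no long excursions from the full configuration
(supercritical case) and from the empty configuration (subcritical case). -/
def S_SUP : Prop := ∀ κ r : ℝ, 0 < κ → 0 < r → ∃ C c n0 : ℝ, 0 < C ∧ 0 < c ∧ ∀ (n : ℝ) (D : Dm),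
  n0 ≤ n → 1 ≤ n → D.Shape κ n → ∀ p : ℝ, 1 / 2 ≤ p → p ≤ 1 → ∀ ρ : ℕ, r * n ≤ ρ →
    Pr (fun _ => p) D.edges (fun F => BadV D ρ F D.edges ∨ BadW D ρ F D.edges) ≤
      C * Real.exp (-(c * (n * (p - 1 / 2) ^ (4 / 3 : ℝ)))) ∧
    Pr (fun _ => 1 - p) D.edges (fun G => BadV D ρ ∅ G ∨ BadW D ρ ∅ G) ≤
      C * Real.exp (-(c * (n * (p - 1 / 2) ^ (4 / 3 : ℝ))))

end Pool.Agent.N116.EW
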