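import Pool.Agent.N116.EW.Stm
import Pool.Agent.H342R3.Lim.Curve

/-!
Project EW (helper116): the boundary arcs as curves (statement).
-/

set_option autoImplicit false

namespace Pool.Agent.N116.EW

open H974 H12S H389NS H984N H984P H342P Finset
open H342L (cdist Curve)

/-- The boundary arc from `a = t + i H` clockwise to `b = 0` (through the right side). -/
noncomputable def arcR (R : Rect) : C(unitInterval, ℂ) :=
  pl 3 (fun k => if k = 0 then R.a else if k = 1 then ⟨R.B, R.H⟩ else if k = 2 then ⟨R.B, 0⟩
    else 0)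

/-- The boundary arc from `a = t + i H` counterclockwise to `b = 0` (through the left side). -/
noncomputable def arcL (R : Rect) : C(unitInterval, ℂ) :=
  pl 3 (fun k => if k = 0 then R.a else if k = 1 then ⟨-R.A, R.H⟩ else if k = 2 then ⟨-R.A, 0⟩
    else 0)

/-- EW9: if all edges are open, the path follows the right boundary arc, if all are closed it
follows the left boundary arc. -/
def S_ARC : Prop := ∀ R : Rect, ∃ C δ0 : ℝ, 0 < C ∧ 0 < δ0 ∧ ∀ δ : ℝ, 0 < δ → δ ≤ δ0 →
  cdist (R.curve δ (R.dm δ).edges) (arcR R) ≤ C * δ ∧ cdist (R.curve δ ∅) (arcL R) ≤ C * δ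

end Pool.Agent.N116.EW
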