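import Pool.Agent.N116.EW.Vis
import Pool.Agent.N116.EW.Close
import Pool.Agent.N839.EW.PL

/-!
Project EW (helper116): the two paths in their natural parametrisation are close if there is no
long excursion and few vertices are visited by exactly one of them (deterministic part).
-/

set_option autoImplicit false

namespace Pool.Agent.N116.EW

open H974 H12S H389NS H984N H984P H342P H443B Finset
open Pool.Agent.N839.EW (a_mono exists_seg sub_seg dist_conv)

variable {D : Dm} {F G : Finset Edg}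

/-- The pieces between two common states. -/
theorem matched0 (hD : D.Ok) (hFG : F ⊆ G) (hG : G ⊆ D.edges) :
    ∃ (m : ℕ) (a b : ℕ → ℕ), a 0 = 0 ∧ b 0 = 0 ∧ a m = D.len F ∧ b m = D.len G ∧
      (∀ i < m, a i < a (i + 1)) ∧ (∀ i < m, b i < b (i + 1)) ∧
      (∀ i ≤ m, D.walk F (a i) ∈ MM D F G ∧ D.walk G (b i) = D.walk F (a i)) ∧
      (∀ i < m, ∀ k, a i < k → k < a (i + 1) → D.walk F k ∉ MM D F G) ∧
      (∀ i < m, ∀ k, b i < k → k < b (i + 1) → D.walk G k ∉ MM D F G) := by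
  classical
  have hF : F ⊆ D.edges := hFG.trans hG
  obtain ⟨A, hA⟩ : ∃ A : Finset ℕ, ∀ k, k ∈ A ↔ k ≤ D.len F ∧ D.walk F k ∈ MM D F G :=
    ⟨(Finset.range (D.len F + 1)).filter (fun k => D.walk F k ∈ MM D F G), fun k => by
      rw [Finset.mem_filter, Finset.mem_range, Nat.lt_succ_iff]⟩
  have h0A : 0 ∈ A := (hA 0).2 ⟨Nat.zero_le _, start_MM hD F G⟩
  have hLA : D.len F ∈ A := (hA _).2 ⟨le_rfl, by rw [walk_len hD hF]; exact stop_MM hD F G⟩
  obtain ⟨m, hm⟩ : ∃ m, A.card = m + 1 := ⟨A.card - 1, by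
    have := Finset.card_pos.2 ⟨0, h0A⟩; omega⟩
  obtain ⟨f, hf⟩ : ∃ f, f = A.orderEmbOfFin hm := ⟨_, rfl⟩
  have hfm : ∀ i, f i ∈ A := fun i => by rw [hf]; exact Finset.orderEmbOfFin_mem _ _ _
  have hfs : ∀ k ∈ A, ∃ i, f i = k := by
    intro k hk
    have := Finset.range_orderEmbOfFin A hm
    rw [← hf] at this
    have h3 : k ∈ Set.range f := by rw [this]; exact Finset.mem_coe.2 hk
    exact h3
  have hfi : ∀ i j, f i < f j ↔ i < j := fun i j => f.lt_iff_lt
  obtain ⟨a, ha⟩ : ∃ a : ℕ → ℕ, ∀ i (h : i < m + 1), a i = f ⟨i, h⟩ :=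
    ⟨fun i => if h : i < m + 1 then f ⟨i, h⟩ else 0, fun i h => by simp [h]⟩
  have haA : ∀ i ≤ m, a i ∈ A := fun i hi => by rw [ha i (by omega)]; exact hfm _
  have hex : ∀ i, ∃ k, i ≤ m → k ≤ D.len G ∧ D.walk G k = D.walk F (a i) := by
    intro i
    by_cases hi : i ≤ m
    · have h3 := ((hA _).1 (haA i hi)).2
      obtain ⟨k, hk, hk'⟩ := visited hD hG (clu_mono hFG h3.1) h3.2
      exact ⟨k, fun _ => ⟨hk, hk'⟩⟩
    · exact ⟨0, fun h => absurd h hi⟩
  choose b hb using hex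
  have hamono : ∀ i < m, a i < a (i + 1) := by
    intro i hi
    rw [ha i (by omega), ha (i + 1) (by omega), hfi]
    exact Fin.mk_lt_mk.2 (by omega)
  have hgapF : ∀ i < m, ∀ k, a i < k → k < a (i + 1) → D.walk F k ∉ MM D F G := by
    intro i hi k hk1 hk2 hmem
    have hkA : k ∈ A := (hA k).2 ⟨by
      have := ((hA _).1 (haA (i + 1) (by omega))).1
      omega, hmem⟩
    obtain ⟨⟨j, hj⟩, rfl⟩ := hfs k hkA
    rw [ha i (by omega), hfi] at hk1
    rw [ha (i + 1) (by omega), hfi] at hk2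
    have h3 := Fin.mk_lt_mk.1 hk1
    have h4 := Fin.mk_lt_mk.1 hk2
    omega
  have hbmono : ∀ i < m, b i < b (i + 1) := by
    intro i hi
    have e1 := hb i (by omega)
    have e2 := hb (i + 1) (by omega)
    have p1 := (hA _).1 (haA i (by omega))
    have p2 := (hA _).1 (haA (i + 1) (by omega))
    exact (ord_walk hD hFG hG p1.2 p2.2 p1.1 p2.1 e1.1 e2.1 rfl e1.2 rfl e2.2).1 (hamono i hi)
  have hgapG : ∀ i < m, ∀ k, b i < k → k < b (i + 1) → D.walk G k ∉ MM D F G := by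
    intro i hi k hk1 hk2 hmem
    have e1 := hb i (by omega)
    have e2 := hb (i + 1) (by omega)
    have p1 := (hA _).1 (haA i (by omega))
    have p2 := (hA _).1 (haA (i + 1) (by omega))
    obtain ⟨k', hk', hk''⟩ := visited hD hF hmem.1 (dclu_anti hFG hmem.2)
    have q1 := (ord_walk hD hFG hG p1.2 hmem p1.1 hk' e1.1 (by omega) rfl e1.2 hk'' rfl).2 hk1
    have q2 := (ord_walk hD hFG hG hmem p2.2 hk' p2.1 (by omega) e2.1 hk'' rfl rfl e2.2).2 hk2
    exact hgapF i hi k' q1 q2 (by rw [hk'']; exact hmem)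
  refine ⟨m, a, b, ?_, ?_, ?_, ?_, hamono, hbmono, ?_, hgapF, hgapG⟩
  · obtain ⟨⟨i, hi⟩, h3⟩ := hfs 0 h0A
    rw [ha 0 (by omega)]
    have h4 : f ⟨0, by omega⟩ ≤ f ⟨i, hi⟩ := f.monotone (Fin.mk_le_mk.2 (Nat.zero_le _))
    rw [h3] at h4
    exact Nat.le_zero.1 h4
  · have e1 := hb 0 (Nat.zero_le _)
    have h3 : a 0 = 0 := by
      obtain ⟨⟨i, hi⟩, h3⟩ := hfs 0 h0A
      rw [ha 0 (by omega)]
      have h4 : f ⟨0, by omega⟩ ≤ f ⟨i, hi⟩ := f.monotone (Fin.mk_le_mk.2 (Nat.zero_le _))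
      rw [h3] at h4
      exact Nat.le_zero.1 h4
    rw [h3] at e1
    exact walk_inj' hD hG e1.1 (Nat.zero_le _) e1.2
  · obtain ⟨⟨i, hi⟩, h3⟩ := hfs _ hLA
    rw [ha m (by omega)]
    have h4 : f ⟨i, hi⟩ ≤ f ⟨m, by omega⟩ := f.monotone (Fin.mk_le_mk.2 (by omega))
    rw [h3] at h4
    exact le_antisymm ((hA _).1 (hfm _)).1 h4
  · have e1 := hb m le_rfl
    have h3 : a m = D.len F := by
      obtain ⟨⟨i, hi⟩, h3⟩ := hfs _ hLA
      rw [ha m (by omega)]
      have h4 : f ⟨i, hi⟩ ≤ f ⟨m, by omega⟩ := f.monotone (Fin.mk_le_mk.2 (by omega))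
      rw [h3] at h4
      exact le_antisymm ((hA _).1 (hfm _)).1 h4
    rw [h3, walk_len hD hF] at e1
    exact walk_inj' hD hG e1.1 le_rfl (e1.2.trans (walk_len hD hG).symm)
  · intro i hi
    exact ⟨((hA _).1 (haA i hi)).2, (hb i hi).2⟩

/-- The vertices of the rectangle. -/
noncomputable def vts (D : Dm) : Finset Vtx := Finset.Icc D.l D.r ×ˢ Finset.Icc 0 D.h

theorem mem_vts {x : Vtx} : x ∈ vts D ↔ inR D.l D.r 0 D.h x := by
  unfold vts inR
  rw [Finset.mem_product, Finset.mem_Icc, Finset.mem_Icc]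

/-- The vertex `x` is visited by exactly one of the two paths (at some corner). -/
def Vx (D : Dm) (F G : Finset Edg) (x : Vtx) : Prop :=
  ∃ q : Q4, ((x, q) : St) ∈ OG D F G ∨ ((x, q) : St) ∈ OF D F G

open Classical in
/-- The number of vertices with a state which is visited by exactly one of the two paths. -/
noncomputable def cO (D : Dm) (F G : Finset Edg) : ℕ := ((vts D).filter (Vx D F G)).card

theorem card_Q4 : Fintype.card Q4 = 4 := rfl

/-- Times of one path. -/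
theorem count_gap {w : ℕ → St} {m N : ℕ} {a : ℕ → ℕ} {O : Finset St} (ha0 : a 0 = 0)
    (ham : a m = N) (ha : ∀ i < m, a i < a (i + 1))
    (hinj : ∀ i j, i ≤ N → j ≤ N → w i = w j → i = j)
    (hgap : ∀ i < m, ∀ k, a i < k → k < a (i + 1) → w k ∈ O) :
    ∀ i ≤ m, i ≤ a i ∧ a i ≤ i + O.card := by
  classical
  have h1 : ∀ i ≤ m, i ≤ a i ∧ a i ≤ i + ((Finset.range (a i)).filter (fun k => w k ∈ O)).card := by
    intro i
    induction i with
    | zero => intro _; rw [ha0]; simp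
    | succ i ih =>
      intro hi
      obtain ⟨h1, h2⟩ := ih (by omega)
      have h3 := ha i (by omega)
      refine ⟨by omega, ?_⟩
      have h4 : (Finset.range (a i)).filter (fun k => w k ∈ O) ∪ Finset.Ioo (a i) (a (i + 1)) ⊆
          (Finset.range (a (i + 1))).filter (fun k => w k ∈ O) := by
        intro k hk
        rw [Finset.mem_union, Finset.mem_filter, Finset.mem_range, Finset.mem_Ioo] at hk
        rw [Finset.mem_filter, Finset.mem_range]
        rcases hk with ⟨hk1, hk2⟩ | ⟨hk1, hk2⟩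
        · exact ⟨by omega, hk2⟩
        · exact ⟨hk2, hgap i (by omega) k hk1 hk2⟩
      have h5 : Disjoint ((Finset.range (a i)).filter (fun k => w k ∈ O))
          (Finset.Ioo (a i) (a (i + 1))) := by
        rw [Finset.disjoint_left]
        intro k hk1 hk2
        rw [Finset.mem_filter, Finset.mem_range] at hk1
        rw [Finset.mem_Ioo] at hk2
        omega
      have h6 := Finset.card_le_card h4
      rw [Finset.card_union_of_disjoint h5, Nat.card_Ioo] at h6
      omega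
  intro i hi
  refine ⟨(h1 i hi).1, (h1 i hi).2.trans ?_⟩
  apply Nat.add_le_add_left
  have haN : a i ≤ N := by rw [← ham]; exact a_mono ha hi le_rfl
  apply Finset.card_le_card_of_injOn w
  · intro k hk
    rw [Finset.mem_coe, Finset.mem_filter] at hk
    exact hk.2
  · intro k hk l hl hkl
    rw [Finset.mem_coe, Finset.mem_filter, Finset.mem_range] at hk hl
    exact hinj k l (by omega) (by omega) hkl

open Classical in
/-- Matched times are close. -/
theorem matched_time (hD : D.Ok) (hFG : F ⊆ G) (hG : G ⊆ D.edges) {m : ℕ} {a b : ℕ → ℕ}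
    (ha0 : a 0 = 0) (hb0 : b 0 = 0) (ham : a m = D.len F) (hbm : b m = D.len G)
    (ha : ∀ i < m, a i < a (i + 1)) (hb : ∀ i < m, b i < b (i + 1))
    (hgF : ∀ i < m, ∀ k, a i < k → k < a (i + 1) → D.walk F k ∉ MM D F G)
    (hgG : ∀ i < m, ∀ k, b i < k → k < b (i + 1) → D.walk G k ∉ MM D F G) :
    ∀ i ≤ m, |(a i : ℝ) - b i| ≤ 4 * cO D F G := by
  have hF : F ⊆ D.edges := hFG.trans hG
  have hO : (((vts D).filter (Vx D F G)) ×ˢ (Finset.univ : Finset Q4)).card = 4 * cO D F G := by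
    rw [Finset.card_product, Finset.card_univ, card_Q4, mul_comm]
    rfl
  have h1 := count_gap (w := D.walk F) (O := ((vts D).filter (Vx D F G)) ×ˢ Finset.univ) ha0 ham ha
    (fun i j hi hj h => walk_inj' hD hF hi hj h) (fun i hi k hk1 hk2 => by
      have haN : a (i + 1) ≤ D.len F := by rw [← ham]; exact a_mono ha hi le_rfl
      have h3 := walk_clu hD hF (k := k) (by omega)
      have h4 := walk_in hD hF k
      rw [Finset.mem_product, Finset.mem_filter, mem_vts]
      refine ⟨⟨h4, (D.walk F k).2, Or.inr ⟨h3.1, h3.2, fun h5 => ?_⟩⟩, Finset.mem_univ _⟩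
      exact hgF i hi k hk1 hk2 ⟨h3.1, h5⟩)
  have h2 := count_gap (w := D.walk G) (O := ((vts D).filter (Vx D F G)) ×ˢ Finset.univ) hb0 hbm hb
    (fun i j hi hj h => walk_inj' hD hG hi hj h) (fun i hi k hk1 hk2 => by
      have haN : b (i + 1) ≤ D.len G := by rw [← hbm]; exact a_mono hb hi le_rfl
      have h3 := walk_clu hD hG (k := k) (by omega)
      have h4 := walk_in hD hG k
      rw [Finset.mem_product, Finset.mem_filter, mem_vts]
      refine ⟨⟨h4, (D.walk G k).2, Or.inl ⟨h3.1, fun h5 => ?_, h3.2⟩⟩, Finset.mem_univ _⟩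
      exact hgG i hi k hk1 hk2 ⟨h5, h3.2⟩)
  intro i hi
  obtain ⟨p1, p2⟩ := h1 i hi
  obtain ⟨q1, q2⟩ := h2 i hi
  rw [hO] at p2 q2
  have p1' : (i : ℝ) ≤ a i := by exact_mod_cast p1
  have q1' : (i : ℝ) ≤ b i := by exact_mod_cast q1
  have p2' : (a i : ℝ) ≤ i + 4 * cO D F G := by exact_mod_cast p2
  have q2' : (b i : ℝ) ≤ i + 4 * cO D F G := by exact_mod_cast q2
  rw [abs_le]
  constructor <;> linarith

/-- Piecewise linear curves with matched pieces at close times. -/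
theorem pl_uni {N N' m : ℕ} {p p' : ℕ → ℂ} {a b : ℕ → ℕ} {r c M : ℝ} (hN : 0 < N) (hN' : 0 < N')
    (ha0 : a 0 = 0) (ham : a m = N) (hbm : b m = N')
    (ha : ∀ i < m, a i < a (i + 1)) (hb : ∀ i < m, b i < b (i + 1))
    (hd : ∀ i < m, ∀ k l : ℕ, a i ≤ k → k ≤ a (i + 1) → b i ≤ l → l ≤ b (i + 1) →
      dist (p k) (p' l) ≤ r) (hab : ∀ i ≤ m, |(a i : ℝ) - b i| ≤ c)
    (hM : ∀ u v : unitInterval, |(u : ℝ) - v| * N' ≤ 2 * c → dist (pl N' p' u) (pl N' p' v) ≤ M)
    (s : unitInterval) : dist (pl N p s) (pl N' p' s) ≤ r + M := by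
  have hNr : (0 : ℝ) < N := Nat.cast_pos.2 hN
  have hN'r : (0 : ℝ) < N' := Nat.cast_pos.2 hN'
  obtain ⟨i, hi, hi1, hi2⟩ := exists_seg (m := m) (a := a) hN ha0 ham s.2.1 s.2.2
  obtain ⟨y, hy⟩ : ∃ y : ℝ, y = max (b i : ℝ) (min (b (i + 1) : ℝ) (s * N)) := ⟨_, rfl⟩
  have hbb : (b i : ℝ) ≤ b (i + 1) := by exact_mod_cast (hb i hi).le
  have hy1 : (b i : ℝ) ≤ y := by rw [hy]; exact le_max_left _ _
  have hy2 : y ≤ b (i + 1) := by rw [hy]; exact max_le hbb (min_le_left _ _)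
  have haN : a (i + 1) ≤ N := by rw [← ham]; exact a_mono ha (by omega) le_rfl
  have hbN : b (i + 1) ≤ N' := by rw [← hbm]; exact a_mono hb (by omega) le_rfl
  have hbN' : (b (i + 1) : ℝ) ≤ N' := by exact_mod_cast hbN
  have h1 := abs_le.1 (hab i (by omega))
  have h2 := abs_le.1 (hab (i + 1) (by omega))
  have h3 := abs_le.1 (hab m le_rfl)
  have hc0 : 0 ≤ c := (abs_nonneg _).trans (hab m le_rfl)
  have hys : |y - s * N| ≤ c := by
    rw [hy, abs_le]
    constructor
    · rcases le_total (b (i + 1) : ℝ) (s * N) with h | h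
      · have := le_max_right (b i : ℝ) (min (b (i + 1) : ℝ) (s * N))
        rw [min_eq_left h] at this
        rw [min_eq_left h]
        linarith
      · have := le_max_right (b i : ℝ) (min (b (i + 1) : ℝ) (s * N))
        rw [min_eq_right h] at this
        rw [min_eq_right h]
        linarith
    · have : max (b i : ℝ) (min (b (i + 1) : ℝ) (s * N)) ≤ s * N + c := by
        apply max_le
        · linarith
        · exact (min_le_right _ _).trans (by linarith)
      linarith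
  have hv : y / N' ∈ unitInterval :=
    ⟨div_nonneg ((Nat.cast_nonneg _).trans hy1) hN'r.le,
      by rw [div_le_one hN'r]; linarith⟩
  have hvN : ((⟨y / N', hv⟩ : unitInterval) : ℝ) * N' = y := by
    show y / N' * N' = y
    field_simp
  have hMs : dist (pl N' p' ⟨y / N', hv⟩) (pl N' p' s) ≤ M := by
    apply hM
    have e : |((⟨y / N', hv⟩ : unitInterval) : ℝ) - s| * N' = |y - s * N'| := by
      have e1 : |((⟨y / N', hv⟩ : unitInterval) : ℝ) - s| * |(N' : ℝ)| = |y - s * N'| := by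
        rw [← abs_mul, sub_mul, hvN]
      rwa [abs_of_pos hN'r] at e1
    rw [e]
    have h4 : |(s : ℝ) * N - s * N'| ≤ c := by
      rw [← mul_sub, abs_mul, abs_of_nonneg s.2.1]
      have h5 : |(N : ℝ) - N'| ≤ c := by
        have := hab m le_rfl
        rwa [ham, hbm] at this
      calc (s : ℝ) * |(N : ℝ) - N'| ≤ 1 * |(N : ℝ) - N'| :=
            mul_le_mul_of_nonneg_right s.2.2 (abs_nonneg _)
        _ ≤ c := by rw [one_mul]; exact h5
    have h6 := abs_sub_le y (s * N) (s * N')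
    linarith
  obtain ⟨k, hkN, hk1, hk2, hk3, hk4⟩ := sub_seg (ha i hi) haN hi1 hi2
  obtain ⟨l, hlN, hl1, hl2, hl3, hl4⟩ := sub_seg (hb i hi) hbN hy1 hy2
  refine (dist_triangle _ (pl N' p' ⟨y / N', hv⟩) _).trans (add_le_add ?_ hMs)
  rw [pl_seg hkN hk3 hk4, pl_seg hlN (by rw [hvN]; exact hl3) (by rw [hvN]; exact hl4), hvN]
  have key : ∀ q, (q = p' l ∨ q = p' (l + 1)) →
      dist (p k + (((s : ℝ) * N - k : ℝ) : ℂ) * (p (k + 1) - p k)) q ≤ r := by
    intro q hq
    refine dist_conv (by linarith) (by linarith) ?_ ?_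
    · rcases hq with rfl | rfl
      · exact hd i hi k l hk1 (by omega) hl1 (by omega)
      · exact hd i hi k (l + 1) hk1 (by omega) (by omega) (by omega)
    · rcases hq with rfl | rfl
      · exact hd i hi (k + 1) l (by omega) (by omega) hl1 (by omega)
      · exact hd i hi (k + 1) (l + 1) (by omega) (by omega) (by omega) (by omega)
  rw [dist_comm]
  refine dist_conv (by linarith) (by linarith) ?_ ?_
  · rw [dist_comm]; exact key _ (Or.inl rfl)
  · rw [dist_comm]; exact key _ (Or.inr rfl)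

/-- **The two paths in their natural parametrisation.** -/
theorem uni (R : Rect) {δ : ℝ} (hδ : 0 < δ) (hD : (R.dm δ).Ok) (hFG : F ⊆ G)
    (hG : G ⊆ (R.dm δ).edges) {ρ : ℕ} (hρ : 1 ≤ ρ) (h1 : ¬ BadV (R.dm δ) ρ F G)
    (h2 : ¬ BadW (R.dm δ) ρ F G) :
    |((R.dm δ).len F : ℝ) - (R.dm δ).len G| ≤ 4 * cO (R.dm δ) F G ∧
    ∀ H : Finset Edg, H = F ∨ H = G → ∀ M : ℝ,
      (∀ u v : unitInterval, |(u : ℝ) - v| * (R.dm δ).len H ≤ 2 * (4 * cO (R.dm δ) F G) →
        dist (R.curve δ H u) (R.curve δ H v) ≤ M) →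
      ∀ s : unitInterval, dist (R.curve δ F s) (R.curve δ G s) ≤ δ * (4 * ρ + 9) + M := by
  have hF : F ⊆ (R.dm δ).edges := hFG.trans hG
  obtain ⟨m, a, b, ha0, hb0, ham, hbm, ha, hb, hab, hgF, hgG⟩ := matched0 hD hFG hG
  have ht := matched_time hD hFG hG ha0 hb0 ham hbm ha hb hgF hgG
  have hpos : ∀ i < m, ∀ k l : ℕ, a i ≤ k → k ≤ a (i + 1) → b i ≤ l → l ≤ b (i + 1) →
      dist (pos δ ((R.dm δ).walk F k)) (pos δ ((R.dm δ).walk G l)) ≤ δ * (4 * ρ + 9) := by
    intro i hi k l hk1 hk2 hl1 hl2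
    have haN : a (i + 1) ≤ (R.dm δ).len F := by rw [← ham]; exact a_mono ha (by omega) le_rfl
    have hbN : b (i + 1) ≤ (R.dm δ).len G := by rw [← hbm]; exact a_mono hb (by omega) le_rfl
    have e1 := hab i (by omega)
    have q1 := exc_F hD hFG hG hρ h2 (ha i hi) haN e1.1 (hgF i hi) hk1 hk2
    have q2 := exc_G hD hG hρ h1 (hb i hi) hbN (by rw [e1.2]; exact e1.1) (hgG i hi) hl1 hl2
    rw [e1.2] at q2
    have q3 := sd_tri ((R.dm δ).walk F k).1 ((R.dm δ).walk F (a i)).1 ((R.dm δ).walk G l).1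
    rw [sd_comm' ((R.dm δ).walk F k).1 ((R.dm δ).walk F (a i)).1] at q3
    refine (dist_pos_le hδ.le _ _).trans ?_
    apply mul_le_mul_of_nonneg_left _ hδ.le
    have h3 : ((sd ((R.dm δ).walk F k).1 ((R.dm δ).walk G l).1 : ℤ) : ℝ) ≤
        ((2 * (ρ : ℤ) + 4 : ℤ) : ℝ) := by
      exact_mod_cast (by omega)
    push_cast at h3
    linarith
  refine ⟨?_, ?_⟩
  · have := ht m le_rfl
    rwa [ham, hbm] at this
  · intro H hH M hM s
    rcases hH with rfl | rfl
    · -- the modulus of the lower path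
      rw [dist_comm]
      exact pl_uni (p := fun k => pos δ ((R.dm δ).walk G k))
        (p' := fun k => pos δ ((R.dm δ).walk H k)) (a := b) (b := a) (len_pos hD hG)
        (len_pos hD hF) hb0 hbm ham hb ha
        (fun i hi k l hk1 hk2 hl1 hl2 => by
          rw [dist_comm]; exact hpos i hi l k hl1 hl2 hk1 hk2)
        (fun i hi => by rw [abs_sub_comm]; exact ht i hi) hM s
    · exact pl_uni (p := fun k => pos δ ((R.dm δ).walk F k))
        (p' := fun k => pos δ ((R.dm δ).walk H k)) (a := a) (b := b) (len_pos hD hF)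
        (len_pos hD hG) ha0 ham hbm ha hb hpos ht hM s

end Pool.Agent.N116.EW
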