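import Pool.Agent.N116.EW.Match2

/-!
Project EW (helper116): the states visited by exactly one of the two paths.
-/

set_option autoImplicit false

namespace Pool.Agent.N116.EW

open H974 H12S H389NS H984N H984P H342P H443B Finset

/-- States visited by the upper path only. -/
def OG (D : Dm) (F G : Finset Edg) : Set St :=
  {σ | σ.1 ∈ D.clu G ∧ σ.1 ∉ D.clu F ∧ face σ ∈ D.dclu G}

/-- States visited by the lower path only. -/
def OF (D : Dm) (F G : Finset Edg) : Set St :=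
  {σ | σ.1 ∈ D.clu F ∧ face σ ∈ D.dclu F ∧ face σ ∉ D.dclu G}

variable {D : Dm} {F G : Finset Edg}

/-- The last visit of a common state before a given time. -/
theorem last_MM {H : Finset Edg} {k : ℕ} (h0 : D.walk H 0 ∈ MM D F G)
    (hk : D.walk H k ∉ MM D F G) :
    ∃ k0 < k, D.walk H k0 ∈ MM D F G ∧ ∀ m, k0 < m → m ≤ k → D.walk H m ∉ MM D F G := by
  classical
  have hex : ∃ j, j ≤ k ∧ D.walk H (k - j) ∈ MM D F G := ⟨k, le_rfl, by rwa [Nat.sub_self]⟩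
  obtain ⟨j, ⟨hj1, hj2⟩, hmin⟩ : ∃ j, (j ≤ k ∧ D.walk H (k - j) ∈ MM D F G) ∧
      ∀ m < j, ¬ (m ≤ k ∧ D.walk H (k - m) ∈ MM D F G) :=
    ⟨Nat.find hex, Nat.find_spec hex, fun m hm => Nat.find_min hex hm⟩
  have hj0 : 0 < j := by
    rcases Nat.eq_zero_or_pos j with h | h
    · rw [h, Nat.sub_zero] at hj2; exact absurd hj2 hk
    · exact h
  refine ⟨k - j, by omega, hj2, fun m hm1 hm2 hm3 => ?_⟩
  exact hmin (k - m) (by omega) ⟨by omega, by rwa [show k - (k - m) = m by omega]⟩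

/-- **A state of the upper path only is behind a flipped edge.** -/
theorem og_edge (hD : D.Ok) (hFG : F ⊆ G) (hG : G ⊆ D.edges) {σ : St} (hσ : σ ∈ OG D F G) :
    ∃ e ∈ G, e ∉ D.cfg F ∧ ∃ x v y : Vtx, En e x v ∧ (y = dsrc e ∨ y = dtgt e) ∧
      x ∈ D.clu F ∧ v ∉ D.clu F ∧ y ∈ D.dclu G ∧
      Reach {g | g ∈ D.cfg G ∧ src g ∉ D.clu F ∧ tgt g ∉ D.clu F} v σ.1 := by
  obtain ⟨k, hk, hkσ⟩ := visited hD hG hσ.1 hσ.2.2
  have hkM : D.walk G k ∉ MM D F G := by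
    rw [hkσ]
    exact fun h => hσ.2.1 h.1
  obtain ⟨k0, hk0, h0, hno⟩ := last_MM (H := G) (start_MM hD F G) hkM
  have hoff : ∀ m, k0 < m → m ≤ k → (D.walk G m).1 ∉ D.clu F := by
    intro m hm1 hm2 hm3
    exact hno m hm1 hm2 ⟨hm3, (walk_clu hD hG (by omega)).2⟩
  have hv0 := hoff (k0 + 1) (by omega) (by omega)
  rw [clu_walk_succ] at hv0
  have hopen : ae (D.walk G k0) ∈ D.cfg G := by
    by_contra hc
    rw [nxt_closed hc, p2_rt_fst] at hv0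
    exact hv0 h0.1
  rw [nxt_open hopen] at hv0
  have hnF : ae (D.walk G k0) ∉ D.cfg F := by
    intro hc
    apply hv0
    have hr : Reach (D.cfg F) (0, 0) (D.walk G k0).1 := h0.1
    exact hr.trans (Adj.reach ⟨ae (D.walk G k0), hc, p2_ends _⟩)
  have heG : ae (D.walk G k0) ∈ G := by
    rcases hopen with h | h
    · exact h
    · exact absurd (Or.inr h) hnF
  have hch : ∀ t, k0 + 1 + t ≤ k →
      Reach {g | g ∈ D.cfg G ∧ src g ∉ D.clu F ∧ tgt g ∉ D.clu F} (mv (D.walk G k0)).1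
        (D.walk G (k0 + 1 + t)).1 := by
    intro t
    induction t with
    | zero =>
      intro _
      rw [add_zero, clu_walk_succ, nxt_open hopen]
      exact Reach.refl _ _
    | succ t ih =>
      intro ht
      have h1 := ih (by omega)
      have u1 := hoff (k0 + 1 + t) (by omega) (by omega)
      have u2 := hoff (k0 + 1 + (t + 1)) (by omega) (by omega)
      rw [← add_assoc, clu_walk_succ] at u2 ⊢
      by_cases hc : ae (D.walk G (k0 + 1 + t)) ∈ D.cfg G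
      · rw [nxt_open hc] at u2 ⊢
        refine h1.trans (Adj.reach ⟨ae (D.walk G (k0 + 1 + t)), ⟨hc, ?_⟩, p2_ends _⟩)
        rcases p2_ends (D.walk G (k0 + 1 + t)) with ⟨e1, e2⟩ | ⟨e1, e2⟩
        · rw [e1, e2]; exact ⟨u1, u2⟩
        · rw [e1, e2]; exact ⟨u2, u1⟩
      · rw [nxt_closed hc, p2_rt_fst]
        exact h1
  have h3 := hch (k - k0 - 1) (by omega)
  rw [show k0 + 1 + (k - k0 - 1) = k by omega, hkσ] at h3
  refine ⟨ae (D.walk G k0), heG, hnF, (D.walk G k0).1, (mv (D.walk G k0)).1,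
    face (D.walk G k0), ?_, ?_, h0.1, hv0, h0.2, h3⟩
  · rcases p2_ends (D.walk G k0) with ⟨e1, e2⟩ | ⟨e1, e2⟩
    · exact Or.inl ⟨e1.symm, e2.symm⟩
    · exact Or.inr ⟨e2.symm, e1.symm⟩
  · rcases p2_dends (D.walk G k0) with ⟨e1, e2⟩ | ⟨e1, e2⟩
    · exact Or.inl e1.symm
    · exact Or.inr e2.symm

/-- **A state of the lower path only is behind a flipped edge.** -/
theorem of_edge (hD : D.Ok) (hFG : F ⊆ G) (hG : G ⊆ D.edges) {σ : St} (hσ : σ ∈ OF D F G) :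
    ∃ e ∈ G, e ∉ D.cfg F ∧ ∃ x y z : Vtx, (x = src e ∨ x = tgt e) ∧
      ((y = dsrc e ∧ z = dtgt e) ∨ (y = dtgt e ∧ z = dsrc e)) ∧
      x ∈ D.clu F ∧ y ∈ D.dclu G ∧ z ∉ D.dclu G ∧
      DReach {g | g ∈ D.edges ∧ g ∉ D.cfg F ∧ dsrc g ∉ D.dclu G ∧ dtgt g ∉ D.dclu G} z
        (face σ) := by
  have hF : F ⊆ D.edges := hFG.trans hG
  obtain ⟨k, hk, hkσ⟩ := visited hD hF hσ.1 hσ.2.1
  have hkM : D.walk F k ∉ MM D F G := by
    rw [hkσ]
    exact fun h => hσ.2.2 h.2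
  obtain ⟨k0, hk0, h0, hno⟩ := last_MM (H := F) (start_MM hD F G) hkM
  have hoff : ∀ m, k0 < m → m ≤ k → face (D.walk F m) ∉ D.dclu G := by
    intro m hm1 hm2 hm3
    exact hno m hm1 hm2 ⟨(walk_clu hD hF (by omega)).1, hm3⟩
  have hns : ∀ m < k, D.walk F m ≠ Dm.stop := fun m hm => clu_ne_stop (by omega)
  have hin : ∀ m ≤ k, inR D.l D.r 0 D.h (D.walk F m).1 := fun m hm => walk_in hD hF m
  have hfc : ∀ m ≤ k, face (D.walk F m) ∈ D.outer ∨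
      ((D.l ≤ (face (D.walk F m)).1 ∧ (face (D.walk F m)).1 < D.r) ∧
        0 ≤ (face (D.walk F m)).2 ∧ (face (D.walk F m)).2 < D.h) := fun m hm =>
    dclu_in hD (walk_clu hD hF (by omega)).2
  have hv0 := hoff (k0 + 1) (by omega) (by omega)
  rw [clu_walk_succ] at hv0
  have hcl : ae (D.walk F k0) ∉ D.cfg F := by
    intro hc
    rw [nxt_open hc, p2_face_mv] at hv0
    exact hv0 h0.2
  rw [nxt_closed hcl] at hv0
  have hed : ae (D.walk F k0) ∈ D.edges := by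
    by_contra hc
    exact hv0 (outer_dclu (rt_outer hD (hin k0 (by omega)) (hfc k0 (by omega)) hc
      (hns k0 (by omega))) G)
  have hcG : ae (D.walk F k0) ∈ D.cfg G := by
    by_contra hc
    apply hv0
    obtain ⟨g, hg, hr⟩ := h0.2
    exact ⟨g, hg, hr.trans (DAdj.reach ⟨ae (D.walk F k0), ⟨hed, hc⟩, p2_dends _⟩)⟩
  have heG : ae (D.walk F k0) ∈ G := by
    rcases hcG with h | h
    · exact h
    · exact absurd (Or.inr h) hcl
  have hch : ∀ t, k0 + 1 + t ≤ k →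
      DReach {g | g ∈ D.edges ∧ g ∉ D.cfg F ∧ dsrc g ∉ D.dclu G ∧ dtgt g ∉ D.dclu G}
        (face (rt (D.walk F k0))) (face (D.walk F (k0 + 1 + t))) := by
    intro t
    induction t with
    | zero =>
      intro _
      rw [add_zero, clu_walk_succ, nxt_closed hcl]
      exact DReach.refl _ _
    | succ t ih =>
      intro ht
      have h1 := ih (by omega)
      have u1 := hoff (k0 + 1 + t) (by omega) (by omega)
      have u2 := hoff (k0 + 1 + (t + 1)) (by omega) (by omega)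
      rw [← add_assoc, clu_walk_succ] at u2 ⊢
      by_cases hc : ae (D.walk F (k0 + 1 + t)) ∈ D.cfg F
      · rw [nxt_open hc, p2_face_mv]
        exact h1
      · rw [nxt_closed hc] at u2 ⊢
        have hed' : ae (D.walk F (k0 + 1 + t)) ∈ D.edges := by
          by_contra hcc
          exact u2 (outer_dclu (rt_outer hD (hin _ (by omega)) (hfc _ (by omega)) hcc
            (hns _ (by omega))) G)
        refine h1.trans (DAdj.reach ⟨ae (D.walk F (k0 + 1 + t)), ⟨hed', hc, ?_⟩, p2_dends _⟩)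
        rcases p2_dends (D.walk F (k0 + 1 + t)) with ⟨e1, e2⟩ | ⟨e1, e2⟩
        · rw [e1, e2]; exact ⟨u1, u2⟩
        · rw [e1, e2]; exact ⟨u2, u1⟩
  have h3 := hch (k - k0 - 1) (by omega)
  rw [show k0 + 1 + (k - k0 - 1) = k by omega, hkσ] at h3
  refine ⟨ae (D.walk F k0), heG, hcl, (D.walk F k0).1, face (D.walk F k0),
    face (rt (D.walk F k0)), ?_, ?_, h0.1, h0.2, hv0, h3⟩
  · rcases p2_ends (D.walk F k0) with ⟨e1, e2⟩ | ⟨e1, e2⟩
    · exact Or.inl e1.symm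
    · exact Or.inr e2.symm
  · rcases p2_dends (D.walk F k0) with ⟨e1, e2⟩ | ⟨e1, e2⟩
    · exact Or.inl ⟨e1.symm, e2.symm⟩
    · exact Or.inr ⟨e2.symm, e1.symm⟩

/-! ### Two arms -/

/-- Two arms in an annulus: an open path and a closed dual path. -/
def T2 (c : Vtx) (r m : ℕ) (F : Set Edg) : Prop :=
  Crs c.1 c.2 r m (F ∩ (↑(blk c m) \ ↑(blk c r))) ∧
    DCrs c.1 c.2 (r + 1) m ((↑(blk c m) \ ↑(blk c r)) \ F)

/-- EW10: near-critical two-arm bounds. -/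
def S_T2 (b : Bool) : Prop := ∃ C t : ℝ, 0 < C ∧ 0 < t ∧ ∀ (n : ℕ) (η : ℝ), 1 ≤ n → 0 ≤ η →
  η ≤ 1 → η * (n : ℝ) ^ (3 / 4 : ℝ) ≤ t → ∀ (c : Vtx) (m : ℕ), 1 ≤ m → m ≤ n →
  ∀ S : Finset Edg, blk c m ⊆ S →
    PC b η S (fun F _ => T2 c 1 m ↑F) ≤ C * (m : ℝ) ^ (-(1 / 4 : ℝ)) ∧
    PC b η S (fun _ G => T2 c 1 m ↑G) ≤ C * (m : ℝ) ^ (-(1 / 4 : ℝ))

/-- EW11: a given vertex of the bulk is rarely visited by exactly one of the two paths. -/
def S_LOC : Prop := ∀ κ : ℝ, 0 < κ → ∃ C t : ℝ, 0 < C ∧ 0 < t ∧ ∀ (n : ℝ) (D : Dm), 1 ≤ n →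
  D.Shape κ n → ∀ η : ℝ, 0 ≤ η → η ≤ 1 → η * n ^ (3 / 4 : ℝ) ≤ t → ∀ (x : Vtx) (ρ : ℕ),
  inR D.l D.r 0 D.h x → 1 ≤ ρ → 8 * (ρ : ℤ) ≤ D.bd x → ∀ b : Bool,
    PC b η D.edges (fun F G => (¬ BadV D ρ F G ∧ ¬ BadW D ρ F G) ∧
      ∃ q : Q4, ((x, q) : St) ∈ OG D F G ∨ ((x, q) : St) ∈ OF D F G) ≤
      C * (η * (ρ : ℝ) ^ (1 / 2 : ℝ))

/-- EW12: a given vertex is rarely visited (one of the two paths). -/
def S_ONE : Prop := ∀ κ : ℝ, 0 < κ → ∃ C t : ℝ, 0 < C ∧ 0 < t ∧ ∀ (n : ℝ) (D : Dm), 1 ≤ n →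
  D.Shape κ n → ∀ η : ℝ, 0 ≤ η → η ≤ 1 → η * n ^ (3 / 4 : ℝ) ≤ t → ∀ x : Vtx,
  inR D.l D.r 0 D.h x → ∀ b : Bool,
    PC b η D.edges (fun F _ => ∃ q : Q4, x ∈ D.clu F ∧ face ((x, q) : St) ∈ D.dclu F) ≤
      C * ((D.bd x : ℝ) + 1) ^ (-(1 / 4 : ℝ)) ∧
    PC b η D.edges (fun _ G => ∃ q : Q4, x ∈ D.clu G ∧ face ((x, q) : St) ∈ D.dclu G) ≤
      C * ((D.bd x : ℝ) + 1) ^ (-(1 / 4 : ℝ))

end Pool.Agent.N116.EW
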